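import Pool.Agent.Lib.MP_9a2ae6_ag.Volume

/-! Existence of forms with slack. -/

set_option linter.unusedSectionVars false

open Polynomial IntermediateField Module MulAction

namespace Pool.Agent.Lib.MP_9a2ae6_ag

open Pool.Agent.Lib.MP_e06174_ag Place

variable {n : ℕ} {F : Fin n → Type} [∀ i, Field (F i)] [∀ i, Algebra ℂ (F i)]
  {G : Type} [Group G] [Finite G] [∀ i, MulSemiringAction G (F i)] [∀ i, SMulCommClass G ℂ (F i)]
  {K : Type} [Field K] [Algebra ℂ K] [MulSemiringAction G K] [SMulCommClass G ℂ K]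
  {ι : ∀ i, F i →ₐ[ℂ] K} (S : Setup G ι) [∀ i, FaithfulSMul G (F i)] [FaithfulSMul G K]

/-- There is a non-zero form with positive slack. -/
def Strict (x : ∀ i, Fix ℂ (F i) G) : Prop := ∃ (m : ℕ) (Ψ : K), 1 ≤ m ∧ Ψ ≠ 0 ∧ Gs S x m 1 Ψ

theorem strict_easy (x : ∀ i, Fix ℂ (F i) G) (hx : ∀ i, IsCoord ℂ (x i : F i)) (hn : 5 ≤ n)
    (a : Fin n → ℕ) (hA : ∀ i, ∃ Φ, Adm (x i) Φ 12 (a i))
    (h : ∀ L : S.Loc, n < L.e → 12 < ∑ i, L.d i * a i) : Strict S x :=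
  vol_case S x hx hn (u := 1) (ε := 1) (κ := 1) le_rfl le_rfl ∅ a (by simp) a
    (fun i _ => ⟨by omega, hA i⟩) ∅ (fun L hL h1 => absurd (h L hL) (by omega)) (by simp)
    (by simp)

theorem le_sum_loc (L : S.Loc) (a : Fin n → ℕ) : ∑ i, a i ≤ ∑ i, L.d i * a i :=
  Finset.sum_le_sum fun i _ => Nat.le_mul_of_pos_left _ (L.one_le_d i)

theorem kap_four {x : ∀ i, Fix ℂ (F i) G} (hx : ∀ i, IsCoord ℂ (x i : F i)) {i : Fin n}
    (hgen : ℂ⟮x i⟯ = ⊤) (h : TA ℂ (F i) G (7 ≤ ·)) : Kap ℂ (F i) G 4 := fun p q hp hq => by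
  obtain ⟨A, B, h6⟩ := h.tri237 (hx i) hgen hp hq
  rcases h6.dichotomy with h7 | h7 <;> omega

theorem strict_border (x : ∀ i, Fix ℂ (F i) G) (hx : ∀ i, IsCoord ℂ (x i : F i)) (hn : 5 ≤ n)
    (a : Fin n → ℕ) (hA : ∀ i, ∃ Φ, Adm (x i) Φ 12 (a i)) (ha : ∀ i, 2 ≤ a i)
    (hs : 12 ≤ ∑ i, a i) {i j : Fin n} (hij : i ≠ j) (hi : a i = 2) (hj : a j = 2)
    (hgi : ℂ⟮x i⟯ = ⊤) (hgj : ℂ⟮x j⟯ = ⊤) (hi' : TA ℂ (F i) G (7 ≤ ·))
    (hj' : TA ℂ (F j) G (7 ≤ ·)) : Strict S x := by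
  classical
  let α : Fin n → ℕ := fun l => if l ∈ ({i, j} : Finset (Fin n)) then 12 else 7 * a l
  have h1 : 80 ≤ ∑ l, α l := by
    have h1 : ∑ l, (α l + if l ∈ ({i, j} : Finset (Fin n)) then 2 else 0) = ∑ l, 7 * a l :=
      Finset.sum_congr rfl fun l _ => by
        simp only [α]
        split_ifs with h
        · rcases Finset.mem_insert.1 h with rfl | h
          · omega
          · rw [Finset.mem_singleton.1 h]; omega
        · rfl
    rw [Finset.sum_add_distrib, Finset.sum_ite_mem, Finset.univ_inter, Finset.sum_pair hij,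
      ← Finset.mul_sum] at h1
    omega
  refine vol_case S x hx hn (u := 7) (ε := 2) (κ := 4) (by omega) (by omega) {i, j} α
    (fun l hl => ?_) a (fun l hl => ⟨by simp only [α, if_neg hl]; omega, hA l⟩) {fun _ => 1}
    (fun L _ h2 => ?_) (fun d hd => ?_) ?_
  · simp only [α, if_pos hl]
    rcases Finset.mem_insert.1 hl with rfl | hl
    · exact hi'.fdata (hx _) hgi (by omega) fun r hr => by omega
    · rw [Finset.mem_singleton.1 hl]
      exact hj'.fdata (hx _) hgj (by omega) fun r hr => by omega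
  · refine Finset.mem_singleton.2 (funext fun l => by_contra fun hl => ?_)
    have h3 := L.one_le_d l
    have h4 : ∑ l' ∈ Finset.univ.erase l, α l' ≤ ∑ l' ∈ Finset.univ.erase l, L.d l' * α l' :=
      Finset.sum_le_sum fun i _ => Nat.le_mul_of_pos_left _ (L.one_le_d i)
    rw [← Finset.add_sum_erase _ _ (Finset.mem_univ l)] at h1 h2
    have h5 : 12 ≤ α l := by
      have := ha l
      simp only [α]
      split_ifs <;> omega
    have h6 : 2 * α l ≤ L.d l * α l := Nat.mul_le_mul_right _ (by omega)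
    omega
  · rw [Finset.mem_singleton.1 hd]
    exact ⟨i, by simp, rfl, kap_four hx hgi hi'⟩
  · rw [Finset.sum_singleton, Finset.card_pair hij]
    simp only [one_mul]
    have h2 : (12 * 7 - ∑ l, α l) ^ 2 ≤ 4 ^ 2 := Nat.pow_le_pow_left (by omega) _
    exact h2.trans_lt (by decide)

omit [FaithfulSMul G K] in
include S in
theorem exists_weights (hirr : ∀ i (t : F i), ℂ⟮t⟯ ≠ ⊤) :
    ∃ (x : ∀ i, Fix ℂ (F i) G) (a : Fin n → ℕ), (∀ i, IsCoord ℂ (x i : F i)) ∧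
      (∀ i, ∃ Φ, Adm (x i) Φ 12 (a i)) ∧ (∀ i, 2 ≤ a i) ∧
      (∀ i, a i ≤ 3 → ℂ⟮x i⟯ = ⊤ ∧ (TA ℂ (F i) G (6 ≤ ·) ∨ TB ℂ (F i) G)) ∧
      ∀ i, a i = 2 → TA ℂ (F i) G (6 ≤ ·) := by
  choose y hy using S.coord
  choose x hx hc using fun i => classify G (hy i) (hirr i)
  have h1 : ∀ i, ∃ a : ℕ, (∃ Φ : Fix ℂ (F i) G, Adm (x i) Φ 12 a) ∧ 2 ≤ a ∧
      (a ≤ 3 → ℂ⟮x i⟯ = ⊤ ∧ (TA ℂ (F i) G (6 ≤ ·) ∨ TB ℂ (F i) G)) ∧
      (a = 2 → TA ℂ (F i) G (6 ≤ ·)) := fun i => by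
    obtain h | ⟨hgen, a, b, c, ht, ha, hc, hb | hb⟩ := hc i
    · exact ⟨4, h, by omega, by omega, by omega⟩
    · have h : TA ℂ (F i) G (6 ≤ ·) := ⟨a, b, c, ht, ha, hb, hc⟩
      exact ⟨2, h.exists_adm (hx i) hgen, le_rfl, fun _ => ⟨hgen, Or.inl h⟩, fun _ => h⟩
    · have h : TB ℂ (F i) G := ⟨a, b, c, ht, ha, hb, hc⟩
      exact ⟨3, h.exists_adm (hx i) hgen, by omega, fun _ => ⟨hgen, Or.inr h⟩, by omega⟩
  choose a h1 h2 h3 h4 using h1
  exact ⟨x, a, hx, h1, h2, h3, h4⟩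

theorem TA_seven {i : Fin n} (h : TA ℂ (F i) G (6 ≤ ·)) {q : Place ℂ (Fix ℂ (F i) G)}
    (hq : 7 ≤ q.ram) : TA ℂ (F i) G (7 ≤ ·) :=
  (h.eq_ram (q := q) (by omega)).mono fun _ h => by omega

theorem strict_six (hn : 6 ≤ n) (hirr : ∀ i (t : F i), ℂ⟮t⟯ ≠ ⊤) :
    ∃ x : ∀ i, Fix ℂ (F i) G, (∀ i, IsCoord ℂ (x i : F i)) ∧ Strict S x := by
  obtain ⟨x, a, hx, h1, h2, h3, h4⟩ := exists_weights S hirr
  refine ⟨x, hx, ?_⟩
  by_cases h5 : ∀ L : S.Loc, n < L.e → 12 < ∑ i, L.d i * a i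
  · exact strict_easy S x hx (by omega) a h1 h5
  push Not at h5
  obtain ⟨L, hL, h5⟩ := h5
  have h6 := (le_sum_loc S L a).trans h5
  have h7 : ∀ i, (n - 1) * 2 + a i ≤ ∑ i, a i := fun i => by
    have := Finset.card_nsmul_le_sum (Finset.univ.erase i) (fun l => a l) 2 fun l _ => h2 l
    rw [Finset.card_erase_of_mem (Finset.mem_univ _), Finset.card_univ, Fintype.card_fin,
      smul_eq_mul] at this
    rw [← Finset.add_sum_erase _ _ (Finset.mem_univ i)]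
    omega
  have h8 : ∀ i, a i = 2 := fun i => by have := h7 i; have := h2 i; omega
  have h9 : ∀ i, TA ℂ (F i) G (7 ≤ ·) := fun i =>
    TA_seven (h4 i (h8 i)) (q := L.q i) (by have := L.le_ram i; omega)
  exact strict_border S x hx (by omega) a h1 h2
    (by have := h7 ⟨0, by omega⟩; have := h8 ⟨0, by omega⟩; omega)
    (i := ⟨0, by omega⟩) (j := ⟨1, by omega⟩) (by simp) (h8 _) (h8 _)
    (h3 _ (by rw [h8]; omega)).1 (h3 _ (by rw [h8]; omega)).1 (h9 _) (h9 _)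

end Pool.Agent.Lib.MP_9a2ae6_ag
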