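import Pool.Agent.Lib.MP_9a2ae6_ag.Upper
import Pool.Agent.Lib.MP_9a2ae6_ag.Strict

/-! Numerical dimension and Kodaira dimension of quotients of products of curves. -/

set_option linter.unusedSectionVars false

open IntermediateField Module

namespace Pool.Agent.Lib.MP_9a2ae6_ag

open Pool.Agent.Lib.MP_e06174_ag Place

variable {n : ℕ} {F : Fin n → Type} [∀ i, Field (F i)] [∀ i, Algebra ℂ (F i)]
  {G : Type} [Group G] [Finite G] [∀ i, MulSemiringAction G (F i)] [∀ i, SMulCommClass G ℂ (F i)]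
  {K : Type} [Field K] [Algebra ℂ K] [MulSemiringAction G K] [SMulCommClass G ℂ K]
  {ι : ∀ i, F i →ₐ[ℂ] K}

open Classical in
theorem kappaSigma_le (S : Setup G ι) (i₀ : Fin n) : kappaSigma ℂ (Fix ℂ K G) n ≤
    (((Finset.univ.filter fun i => ¬ Ell ℂ (F i)).card : ℕ∞) : WithBot ℕ∞) := by
  have h1 : ∀ i, ∃ α : ℕ, VF (F i) α ∧ (Ell ℂ (F i) → α = 0) := fun i => by
    by_cases h : Ell ℂ (F i)
    · exact ⟨0, vf_of_ell h, fun _ => rfl⟩
    · obtain ⟨y, hy⟩ := S.coord i
      obtain ⟨α, hα⟩ := exists_vf hy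
      exact ⟨α, hα, fun h' => absurd h' h⟩
  choose α hα hα' using h1
  refine iSup_le fun W => ?_
  obtain ⟨d, c, h⟩ := rank_sections_le S i₀ hα W
  refine growth_le (C := d * ∏ i, (α i + c)) fun m hm => (h m).trans (Nat.cast_le.2 ?_)
  rw [mul_assoc, ← Finset.prod_const, Finset.prod_filter, ← Finset.prod_mul_distrib]
  refine Nat.mul_le_mul_left _ (Finset.prod_le_prod' fun i _ => ?_)
  rw [show (α i : ℤ) * m + c = (α i * m + c : ℕ) by push_cast; rfl, Int.toNat_natCast]
  split_ifs with hi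
  · simp [hα' i hi]
  · nlinarith

theorem kappaSigma_eq_bot (S : Setup G ι) {i : Fin n} {t : F i} (ht : ℂ⟮t⟯ = ⊤) :
    kappaSigma ℂ (Fix ℂ K G) n = ⊥ := by
  classical
  choose y hy using S.coord
  choose α hα using fun i => exists_vf (hy i)
  refine le_bot_iff.1 (iSup_le fun W => le_of_eq ?_)
  obtain ⟨d, c, h⟩ := rank_sections_le S i (α := Function.update (fun i => α i) i (-2))
    (fun j => by
      by_cases hj : j = i
      · subst hj
        simpa using vf_of_rational (hy j) ht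
      · simpa [hj] using hα j) W
  refine growth_eq_bot (m₀ := c) fun m hm => le_zero_iff.1 ((h m).trans (le_of_eq ?_))
  rw [Finset.prod_eq_zero (Finset.mem_univ i) (by rw [Function.update_self]; omega), mul_zero,
    Nat.cast_zero]

variable [∀ i, FaithfulSMul G (F i)]

theorem abundance_six (S : Setup G ι) (hn : 6 ≤ n) :
    kappaSigma ℂ (Fix ℂ K G) n = kodaira ℂ (Fix ℂ K G) n := by
  refine le_antisymm ?_ (kodaira_le_kappaSigma _ _ _)
  let i₀ : Fin n := ⟨0, by omega⟩
  by_cases hirr : ∀ i (t : F i), ℂ⟮t⟯ ≠ ⊤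
  · have : FaithfulSMul G K := S.faithful fun g hg => ⟨i₀, by
      by_contra h
      push Not at h
      exact hg (faithfulSMul_iff.1 (inferInstanceAs (FaithfulSMul G (F i₀))) g h)⟩
    obtain ⟨x, hx, m, Ψ, hm, hΨ, h⟩ := strict_six S hn hirr
    exact (kappaSigma_le S i₀).trans (h.le_kodaira hx hirr hΨ hm)
  · push Not at hirr
    obtain ⟨i, t, ht⟩ := hirr
    exact (kappaSigma_eq_bot S ht).trans_le bot_le

end Pool.Agent.Lib.MP_9a2ae6_ag
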