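import Mathlib

set_option autoImplicit false

namespace Pool.Agent.Lib.MP_9a2ae6_ag

open MvPolynomial

/-- The homogeneous coordinate ring of complex projective `n`-space. -/
abbrev S (n : ℕ) : Type := MvPolynomial (Fin (n + 1)) ℂ

/-- `P` is the homogeneous prime ideal of a non-empty smooth subvariety of codimension `c`
of projective `n`-space (Jacobian criterion at every point). -/
structure IsSmoothCentre {n : ℕ} (P : Ideal (S n)) (c : ℕ) : Prop where
  prime : P.IsPrime
  homog : ∀ f ∈ P, ∀ j : ℕ, homogeneousComponent j f ∈ P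
  height : P.height = c
  nonempty : ∃ x ∈ zeroLocus ℂ P, x ≠ 0
  smooth : ∀ x ∈ zeroLocus ℂ P, x ≠ 0 →
    Module.finrank ℂ (Submodule.span ℂ
      {w : Fin (n + 1) → ℂ | ∃ f ∈ P, w = fun l => eval x (pderiv l f)}) = c

/-- The subvariety defined by `P` is a linear subspace. -/
def IsLinearCentre {n : ℕ} (P : Ideal (S n)) : Prop :=
  ∃ W : Submodule ℂ (Fin (n + 1) → ℂ), zeroLocus ℂ P = (W : Set (Fin (n + 1) → ℂ))

/-- `F` vanishes to order at least `r` along the subvariety of `P` (symbolic power). -/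
def VanishesAlong {n : ℕ} (P : Ideal (S n)) (r : ℕ) (F : S n) : Prop :=
  ∃ g : S n, g ∉ P ∧ g * F ∈ P ^ r

/-- The class `δ H - ∑ μ i E i` on the blow-up is the class of an effective real divisor:
a non-negative combination of pull-backs of hypersurfaces `F j = 0` from which at most their
order along the centres is removed. -/
def Eff {n k : ℕ} (P : Fin k → Ideal (S n)) (δ : ℝ) (μ : Fin k → ℝ) : Prop :=
  ∃ (s : ℕ) (F : Fin s → S n) (e : Fin s → ℕ) (b : Fin s → ℝ) (r : Fin s → Fin k → ℕ),
    (∀ j, F j ≠ 0 ∧ (F j).IsHomogeneous (e j) ∧ 0 ≤ b j ∧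
      ∀ i, VanishesAlong (P i) (r j i) (F j)) ∧
    δ = ∑ j, b j * e j ∧ ∀ i, μ i ≤ ∑ j, b j * r j i

/-- `g` is a morphism from the projective line to projective `n`-space of degree `e`,
written in the affine coordinate. -/
def IsRatCurve {n : ℕ} (g : Fin (n + 1) → Polynomial ℂ) (e : ℕ) : Prop :=
  (∀ l, (g l).natDegree ≤ e) ∧ (∃ l, (g l).coeff e ≠ 0) ∧ ∀ a : ℂ, ∃ l, (g l).eval a ≠ 0

/-- The degree of the exceptional divisor over the subvariety of `P` on the lift of the
rational curve `g` of degree `e`: the length of the pulled back ideal sheaf, summed over the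
finite points of the projective line and the point at infinity. -/
noncomputable def excDeg {n : ℕ} (P : Ideal (S n)) (g : Fin (n + 1) → Polynomial ℂ) (e : ℕ) :
    ℕ :=
  (∑ᶠ a : ℂ, sInf {t | ∃ f ∈ P, ∃ j, f.IsHomogeneous j ∧ aeval g f ≠ 0 ∧
      t = (aeval g f).rootMultiplicity a}) +
    sInf {t | ∃ f ∈ P, ∃ j, f.IsHomogeneous j ∧ aeval g f ≠ 0 ∧
      t = e * j - (aeval g f).natDegree}

/-- The class `d H - ∑ m i E i` has non-negative degree on the lines in the fibres of the
exceptional divisors and on every rational curve not contained in an exceptional divisor. -/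
def NefOnRatCurves {n k : ℕ} (P : Fin k → Ideal (S n)) (d : ℝ) (m : Fin k → ℝ) : Prop :=
  (∀ i, 0 ≤ m i) ∧
    ∀ (g : Fin (n + 1) → Polynomial ℂ) (e : ℕ), IsRatCurve g e →
      (∀ i, ∃ f ∈ P i, aeval g f ≠ 0) → ∑ i, m i * excDeg (P i) g e ≤ d * e

end Pool.Agent.Lib.MP_9a2ae6_ag
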