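import Pool.Agent.Lib.MP_9a2ae6_ag.Local

/-! Coordinates on the module of differentials, the chain rule, Jacobians. -/

set_option linter.unusedSectionVars false

open scoped TensorProduct
open KaehlerDifferential Module

namespace Pool.Agent.Lib.MP_9a2ae6_ag

open Pool.Agent.Lib.MP_e06174_ag Place

variable {L : Type} [Field L] [Algebra ℂ L] {n : ℕ}

theorem exists_basis_D {x : Fin n → L} (hx : IsTranscendenceBasis ℂ x) :
    ∃ b : Basis (Fin n) L Ω[L⁄ℂ], ∀ i, b i = D ℂ L (x i) := by
  let A := MvPolynomial (Fin n) ℂ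
  let : Algebra A L := (MvPolynomial.aeval x : A →ₐ[ℂ] L).toRingHom.toAlgebra
  have hA : ∀ a : A, algebraMap A L a = MvPolynomial.aeval x a := fun _ => rfl
  have : IsScalarTower ℂ A L := IsScalarTower.of_algebraMap_eq fun c => by
    rw [hA, AlgHom.commutes]
  have hinj : Function.Injective (algebraMap A L) := hx.1
  have : FaithfulSMul A L := (faithfulSMul_iff_algebraMap_injective A L).2 hinj
  let : Algebra (FractionRing A) L := FractionRing.liftAlgebra A L
  have : Algebra.IsAlgebraic A L := by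
    have h1 := hx.isAlgebraic
    exact Algebra.IsAlgebraic.of_ringHom_of_comp_eq
      (hx.1.aevalEquiv : A →+* Algebra.adjoin ℂ (Set.range x)) (RingHom.id L)
      hx.1.aevalEquiv.surjective Function.injective_id
      (RingHom.ext fun a => hx.1.algebraMap_aevalEquiv a)
  have : Algebra.IsAlgebraic (FractionRing A) L :=
    IsFractionRing.comap_isAlgebraic_iff.1 this
  have : CharZero (FractionRing A) := algebraRat.charZero _
  have : Algebra.FormallyEtale A (FractionRing A) :=
    Algebra.FormallyEtale.of_isLocalization (nonZeroDivisors A)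
  have : Algebra.FormallyEtale (FractionRing A) L := Algebra.FormallyEtale.of_isSeparable _ _
  have : Algebra.FormallyEtale A L := Algebra.FormallyEtale.comp A (FractionRing A) L
  refine ⟨((mvPolynomialBasis ℂ (Fin n)).baseChange L).map
    (tensorKaehlerEquivOfFormallyEtale ℂ A L), fun b => ?_⟩
  rw [Module.Basis.map_apply, Module.Basis.baseChange_apply, mvPolynomialBasis_apply,
    tensorKaehlerEquivOfFormallyEtale_apply, mapBaseChange_tmul, one_smul, map_D, hA,
    MvPolynomial.aeval_X]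

/-- The derivations dual to a transcendence basis. -/
structure Dual (x : Fin n → L) (d : Fin n → Derivation ℂ L L) : Prop where
  dual : ∀ i j, d i (x j) = if i = j then 1 else 0
  chain : ∀ {K : Type} [Field K] [Algebra ℂ K] (φ : L →ₐ[ℂ] K) (θ : Derivation ℂ K K) (f : L),
    θ (φ f) = ∑ i, φ (d i f) * θ (φ (x i))
  wedge : ∀ f : Fin n → L, ExteriorAlgebra.ιMulti L n (fun b => D ℂ L (f b)) =
    (Matrix.of fun a b => d a (f b)).det • ExteriorAlgebra.ιMulti L n fun b => D ℂ L (x b)

theorem exists_dual {x : Fin n → L} (hx : IsTranscendenceBasis ℂ x) : ∃ d, Dual x d := by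
  obtain ⟨b, hb⟩ := exists_basis_D hx
  refine ⟨fun i => (b.coord i).compDer (D ℂ L), fun i j => ?_, fun {K} _ _ φ θ f => ?_,
    fun f => ?_⟩
  · change b.coord i (D ℂ L (x j)) = _
    rw [← hb]
    simp [Finsupp.single_apply, eq_comm]
  · let : Algebra L K := φ.toRingHom.toAlgebra
    have : IsScalarTower ℂ L K := .of_algebraMap_eq fun c => (φ.commutes c).symm
    have h1 := congrArg (θ.compAlgebraMap L).liftKaehlerDifferential (b.sum_repr (D ℂ L f))
    simp only [map_sum, map_smul, hb, Derivation.liftKaehlerDifferential_comp_D] at h1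
    exact h1.symm
  · have h1 : ExteriorAlgebra.ιMulti L n (M := Ω[L⁄ℂ]) =
        b.det.smulRight (ExteriorAlgebra.ιMulti L n b) := by
      refine Basis.ext_alternating b fun i h => ?_
      let σ : Equiv.Perm (Fin n) := Equiv.ofBijective i (Finite.injective_iff_bijective.1 h)
      change ExteriorAlgebra.ιMulti L n (b ∘ σ) =
        b.det.smulRight (ExteriorAlgebra.ιMulti L n b) (b ∘ σ)
      rw [AlternatingMap.map_perm, AlternatingMap.map_perm]
      simp [Basis.det_self]
    conv_lhs => rw [h1]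
    rw [AlternatingMap.smulRight_apply, Basis.det_apply, show (b : Fin n → _) = _ from funext hb]
    rfl

theorem Dual.pluri {x : Fin n → L} {d : Fin n → Derivation ℂ L L} (h : Dual x d) {m : ℕ}
    (f : Fin m → Fin n → L) :
    pluri ℂ L n m f = form x m (∏ a, (Matrix.of fun i b => d i (f a b)).det) := by
  rw [MP_9a2ae6_ag.pluri, form, ← MultilinearMap.map_smul_univ]
  exact congrArg _ (funext fun a => h.wedge (f a))

theorem form_injective {x : Fin n → L} (hx : IsTranscendenceBasis ℂ x) (m : ℕ) :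
    Function.Injective (form x m) := fun a b hab => by
  by_contra h
  refine form_ne_zero hx m (sub_ne_zero.2 h) ?_
  rw [form, sub_smul]
  exact sub_eq_zero.2 hab

/-- The coefficient of a section along a place. -/
theorem Dual.coeff {x : Fin n → L} {d : Fin n → Derivation ℂ L L} (h : Dual x d) {m : ℕ}
    {W : Finset L} {ω} (hω : ω ∈ sections ℂ L n m W) (O : ValuationSubring L)
    (h1 : IsDiscreteValuationRing O) (h2 : ∀ c : ℂ, algebraMap ℂ L c ∈ O)
    (T : Submodule O.toSubring L)
    (hT : ∀ a ∈ W, ∀ f : Fin m → Fin n → L, (∀ a b, f a b ∈ O) →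
      a * ∏ a, (Matrix.of fun i b => d i (f a b)).det ∈ T) :
    ∃ Ψ ∈ T, ω = form x m Ψ := by
  have h3 := hω O h1 h2
  clear hω
  induction h3 using Submodule.span_induction with
  | mem ω hω =>
    obtain ⟨a, ha, f, hf, rfl⟩ := hω
    exact ⟨_, hT a ha f hf, by rw [h.pluri, form, form, smul_smul]⟩
  | zero => exact ⟨0, zero_mem _, by simp [form]⟩
  | add a b _ _ ha hb =>
    obtain ⟨a, ha, rfl⟩ := ha
    obtain ⟨b, hb, rfl⟩ := hb
    exact ⟨a + b, add_mem ha hb, by simp [form, add_smul]⟩
  | smul c a _ ha =>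
    obtain ⟨a, ha, rfl⟩ := ha
    exact ⟨c • a, T.smul_mem c ha, by rw [form, form, smul_assoc]⟩

section curve

variable {F : Type} [Field F] [Algebra ℂ F] {x : F}

theorem exists_delta (h : IsCoord ℂ x) : ∃ δ : Derivation ℂ F F, δ x = 1 ∧
    ∀ {K : Type} [Field K] [Algebra ℂ K] (φ : F →ₐ[ℂ] K) (θ : Derivation ℂ K K) (f : F),
      θ (φ f) = φ (δ f) * θ (φ x) := by
  have h1 : IsTranscendenceBasis ℂ fun _ : Fin 1 => x :=
    isTranscendenceBasis_of_isAlgebraic (algebraicIndependent_unique_type_iff.2 h.trans)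
      fun a => by rw [Set.range_const]; exact h.isAlgebraic a
  obtain ⟨d, hd⟩ := exists_dual h1
  exact ⟨d 0, by simpa using hd.dual 0 0, fun φ θ f => by simpa using hd.chain φ θ f⟩

theorem der_ne_zero (h : IsCoord ℂ x) {θ : Derivation ℂ F F} (hθ : θ ≠ 0) : θ x ≠ 0 := by
  obtain ⟨δ, -, hδ⟩ := exists_delta h
  intro h0
  refine hθ (Derivation.ext fun f => ?_)
  have := hδ (AlgHom.id ℂ F) θ f
  simpa [h0] using this

variable (F) in
/-- A vector field on the curve with poles bounded by `α` times the polar divisor of `y`. -/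
def VF (α : ℤ) : Prop :=
  ∃ (y : F) (θ : Derivation ℂ F F), IsCoord ℂ y ∧ θ ≠ 0 ∧
    ∀ (p : Place ℂ F) (g : F), p.Ge 0 g → p.Ge (α * min 0 (p.ord y)) (θ g)

theorem vf_of_ell (h : Ell ℂ F) : VF F 0 := by
  obtain ⟨x, f, hx, hf, h1⟩ := h
  obtain ⟨δ, hδ, -⟩ := exists_delta hx
  refine ⟨x, f⁻¹ • δ, hx, fun h0 => ?_, fun p g hg => ?_⟩
  · have := congrArg (fun θ : Derivation ℂ F F => θ x) h0
    simp [hδ, hf] at this
  · have h2 := (ge_one_log hx p hδ hg).mul (ge_ord (f * p.loc x)⁻¹)
    have hl : p.loc x ≠ 0 := loc_ne_zero hx.trans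
    convert h2 using 1
    · rw [ord_inv, h1]; simp
    · rw [Derivation.smul_apply, smul_eq_mul]
      field_simp

theorem vf_of_rational (h : IsCoord ℂ x) {t : F} (ht : IntermediateField.adjoin ℂ {t} = ⊤) :
    VF F (-2) := by
  have h1 : IsCoord ℂ t := h.of_transcendental fun h4 => h.trans (by
    have := IntermediateField.isAlgebraic_adjoin_simple h4.isIntegral
    exact IntermediateField.isAlgebraic_iff.1
      (this.isAlgebraic (⟨x, ht ▸ IntermediateField.mem_top⟩ : IntermediateField.adjoin ℂ {t})))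
  obtain ⟨δ, hδ, -⟩ := exists_delta h1
  refine ⟨t, δ, h1, fun h0 => by simp [h0] at hδ, fun p g hg => ?_⟩
  have h2 := (ge_one_log h1 p hδ hg).mul (ge_ord (p.loc t)⁻¹)
  have hl : p.loc t ≠ 0 := loc_ne_zero h1.trans
  rw [mul_right_comm, mul_inv_cancel₀ hl, one_mul, ord_inv] at h2
  refine h2.mono ?_
  rcases h1.pole_or_at p with h3 | ⟨a, ha⟩
  · rw [loc_eq_of_pole h3, ord_eq_neg_one_of_pole h3 h1.trans ht]
    decide
  · rw [ha.loc_eq, ha.ord_eq_one h1.trans ht, min_eq_left (not_lt.1 ha.not_pole)]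
    decide

theorem exists_vf (h : IsCoord ℂ x) : ∃ α : ℕ, VF F α := by
  classical
  obtain ⟨δ, hδ, -⟩ := exists_delta h
  choose s hs using fun p => exists_bound_curve h p δ
  let T := ((finite_bad h hδ).union h.finite_pole).toFinset
  obtain ⟨N, -, hN⟩ := exists_big T (fun _ => 1) s (fun _ _ => one_pos) 0
  let P : Polynomial ℂ := ∏ p ∈ T, (Polynomial.X - Polynomial.C (p.cen x)) ^ N
  have hP : P ≠ 0 := Finset.prod_ne_zero_iff.2 fun p _ =>
    pow_ne_zero _ (Polynomial.X_sub_C_ne_zero _)
  refine ⟨P.natDegree + N, x, Polynomial.aeval x P • δ, h, fun h0 => ?_, fun p g hg => ?_⟩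
  · have := congrArg (fun θ : Derivation ℂ F F => θ x) h0
    simp [hδ, aeval_ne_zero h.trans hP] at this
  rw [Derivation.smul_apply, smul_eq_mul]
  rcases h.pole_or_at p with h3 | ⟨a, ha⟩
  · have h4 := hN p (by simp [T, h3])
    refine (ge_aeval_of_pole h3 le_rfl).mul' (hs p g hg) ?_
    rw [min_eq_right h3.le]
    push_cast
    nlinarith
  rw [min_eq_left (not_lt.1 ha.not_pole), mul_zero]
  by_cases hp : p ∈ T
  · have h4 := hN p hp
    obtain ⟨Q, hQ⟩ : (Polynomial.X - Polynomial.C (p.cen x)) ^ N ∣ P :=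
      Finset.dvd_prod_of_mem _ hp
    rw [hQ, ha.cen_eq]
    simp only [map_mul, map_pow, map_sub, Polynomial.aeval_X, Polynomial.aeval_C]
    exact ((Ge.pow ha N).mul (ha.ge_zero.aeval Q)).mul' (hs p g hg) (by omega)
  · refine (ha.ge_zero.aeval P).mul' (n := 0) ?_ (by simp)
    by_contra h4
    exact hp (by simpa [T] using Or.inl ⟨g, hg, h4⟩)

end curve

end Pool.Agent.Lib.MP_9a2ae6_ag
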