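import Pool.Agent.Lib.MP_9a2ae6_ag.Growth
import Pool.Agent.Lib.MP_e06174_ag.Loc4

/-! Forms on the product that descend to regular forms on every model of the quotient, and the
lower bound for the Kodaira dimension that they give. -/

set_option linter.unusedSectionVars false

open Polynomial IntermediateField Module MulAction

namespace Pool.Agent.Lib.MP_9a2ae6_ag

open Pool.Agent.Lib.MP_e06174_ag Place

variable {n : ℕ} {F : Fin n → Type} [∀ i, Field (F i)] [∀ i, Algebra ℂ (F i)]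
  {G : Type} [Group G] [Finite G] [∀ i, MulSemiringAction G (F i)] [∀ i, SMulCommClass G ℂ (F i)]
  {K : Type} [Field K] [Algebra ℂ K] [MulSemiringAction G K] [SMulCommClass G ℂ K]
  {ι : ∀ i, F i →ₐ[ℂ] K}

/-- The form `Ψ (dx₁ ∧ ⋯ ∧ dxₙ)^m` has enough zeros along every place. -/
structure Gd (S : Setup G ι) (x : ∀ i, Fix ℂ (F i) G) (m : ℕ) (Ψ : K) : Prop where
  hA : ∀ w : Place ℂ K, (∀ i f, w.ord (ι i f) = 0) → w.Ge 0 Ψ
  hB : ∀ (v : Place ℂ (Fix ℂ K G)) (w : Place ℂ K) (e : ℕ), w.Over (Fix ℂ K G).val v e →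
    (¬ ∀ i f, w.ord (ι i f) = 0) → w.Ge (e * m) (Ψ * ∏ i, w.loc (ι i (x i)) ^ m)

variable {S : Setup G ι} {x : ∀ i, Fix ℂ (F i) G} {m m' : ℕ} {Ψ Ψ' : K}

theorem Gd.one : Gd S x 0 1 := ⟨fun _ _ => ge_one, fun _ _ _ _ _ => by simpa using ge_one⟩

theorem Gd.mul (h : Gd S x m Ψ) (h' : Gd S x m' Ψ') : Gd S x (m + m') (Ψ * Ψ') := by
  refine ⟨fun w hw => (h.hA w hw).mul' (h'.hA w hw) (by simp), fun v w e hw h1 => ?_⟩
  have := (h.hB v w e hw h1).mul (h'.hB v w e hw h1)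
  convert this using 1
  · push_cast; ring
  · simp only [pow_add, Finset.prod_mul_distrib]; ring

theorem Gd.prod {α : Type*} (s : Finset α) {m : α → ℕ} {Ψ : α → K}
    (h : ∀ a ∈ s, Gd S x (m a) (Ψ a)) : Gd S x (∑ a ∈ s, m a) (∏ a ∈ s, Ψ a) := by
  classical
  induction s using Finset.induction_on with
  | empty => simpa using Gd.one
  | insert a s ha ih =>
    rw [Finset.prod_insert ha, Finset.sum_insert ha]
    exact (h a (by simp)).mul (ih fun b hb => h b (by simp [hb]))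

theorem Gd.pow (h : Gd S x m Ψ) (t : ℕ) : Gd S x (t * m) (Ψ ^ t) := by
  simpa using Gd.prod (Finset.range t) (m := fun _ => m) (Ψ := fun _ => Ψ) fun _ _ => h

theorem Gd.smul (h : Gd S x m Ψ) (g : G) : Gd S x m (g • Ψ) := by
  have hiff : ∀ (g : G) (w : Place ℂ K), (∀ i f, w.ord (ι i f) = 0) →
      ∀ i f, (g • w).ord (ι i f) = 0 := fun g w h i f => by rw [smul_ord, S.equiv, h]
  refine ⟨fun w hw => ?_, fun v w e hw h1 => ?_⟩
  · have := h.hA _ (hiff g⁻¹ w hw)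
    rwa [smul_ge, inv_inv] at this
  · have h3 := h.hB v _ e (hw.smul g⁻¹) fun h3 => h1 (by simpa using hiff g _ h3)
    have h4 : ∀ {w : Place ℂ K}, w.Over (Fix ℂ K G).val v e → ∏ i, w.loc (ι i (x i)) ^ m =
        (Fix ℂ K G).val (∏ i, v.loc (S.j i (x i)) ^ m) := fun hw => by
      rw [map_prod]
      exact Finset.prod_congr rfl fun i _ => by
        rw [map_pow, ← hw.loc_eq]; rfl
    rw [h4 hw]
    rwa [h4 (hw.smul g⁻¹), smul_ge, inv_inv, smul_mul', IntermediateField.coe_val, smul_fix] at h3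

theorem Gd.nrm [Fintype G] (h : Gd S x m Ψ) (y : Fix ℂ K G) (h' : Gd S x m (Ψ * y)) :
    Gd S x (Fintype.card G * m) (nrm ℂ G Ψ * y : Fix ℂ K G) := by
  classical
  have h1 := h'.mul (Gd.prod (Finset.univ.erase (1 : G)) fun g _ => h.smul g)
  convert h1 using 1
  · rw [Finset.sum_const, Finset.card_erase_of_mem (Finset.mem_univ _), Finset.card_univ,
      smul_eq_mul]
    obtain ⟨c, hc⟩ : ∃ c, Fintype.card G = c + 1 := ⟨_, (Nat.succ_pred_eq_of_pos Fintype.card_pos).symm⟩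
    rw [hc]; simp; ring
  · change (∏ g : G, g • Ψ) * (y : K) = _
    rw [← Finset.mul_prod_erase _ _ (Finset.mem_univ (1 : G)), one_smul]
    ring

theorem regular_le {L : Type} [Field L] [Algebra ℂ L] {n m : ℕ} (O : Subring L) :
    regularForms L n m O ≤ Submodule.span O {η | ∃ h ∈ ({1} : Finset L),
      ∃ f : Fin m → Fin n → L, (∀ a b, f a b ∈ O) ∧ η = h • pluri ℂ L n m f} := by
  refine Submodule.span_mono ?_
  rintro _ ⟨f, hf, rfl⟩
  exact ⟨1, by simp, f, hf, by rw [one_smul]; rfl⟩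

theorem Gd.mem (hx : ∀ i, IsCoord ℂ (x i : F i)) {Φ : Fix ℂ K G} (h : Gd S x m Φ) :
    form (fun i => S.j i (x i)) m Φ ∈ sections ℂ (Fix ℂ K G) n m {1} := by
  intro O hO hc
  obtain ⟨v, hv⟩ := exists_of_dvr O hc
  obtain rfl : O = v.O := by ext y; rw [hv, mem_O]
  refine regular_le _ ?_
  obtain ⟨w, e, hw⟩ := exists_over_fix v
  by_cases h1 : ∀ i f, w.ord (ι i f) = 0
  · exact form_mem_of_ge_zero v _ m ((hw.ge_zero_iff _).1 (h.hA w h1))
      fun i => ge_of_le (S.ord_j_eq_zero hw (h1 i) _).ge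
  · refine form_mem_of_ge v _ (fun i => (S.isTranscendenceBasis x hx).1.transcendental i) m
      ((hw.ge_iff _ _).1 ?_)
    convert h.hB v w e hw h1 using 1
    rw [map_mul, map_prod]
    congr 1
    exact Finset.prod_congr rfl fun i _ => by rw [map_pow, ← hw.loc_eq]; rfl

variable (S x) in
/-- A pencil of good forms moving in the direction `i`. -/
def Pencil (i : Fin n) : Prop :=
  ∃ (y : Fix ℂ (F i) G) (m : ℕ) (Ψ : K), Transcendental ℂ (y : F i) ∧ Ψ ≠ 0 ∧ Gd S x m Ψ ∧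
    Gd S x m (Ψ * ι i y)

theorem linearIndependent_monomials {k K : Type*} [Field k] [Field K] [Algebra k K] {α : Type*}
    [Fintype α] {y : α → K} (hy : AlgebraicIndependent k y) :
    LinearIndependent k fun s : α → ℕ => ∏ a, y a ^ s a := by
  have h1 := (MvPolynomial.basisMonomials α k).linearIndependent.map'
    (MvPolynomial.aeval y).toLinearMap (LinearMap.ker_eq_bot.2 hy)
  have h2 := h1.comp (fun s : α → ℕ => Finsupp.equivFunOnFinite.symm s)
    Finsupp.equivFunOnFinite.symm.injective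
  have h3 : (fun s : α → ℕ => ∏ a, y a ^ s a) = ((MvPolynomial.aeval y).toLinearMap ∘
      MvPolynomial.basisMonomials α k) ∘ fun s : α → ℕ => Finsupp.equivFunOnFinite.symm s := by
    funext s
    simp [MvPolynomial.aeval_monomial, Finsupp.prod_fintype]
  rwa [h3]

theorem card_le_rank {L σ : Type} [Field L] [Algebra ℂ L] {n m : ℕ} {x : Fin n → L}
    (hx : IsTranscendenceBasis ℂ x) (T : Submodule ℂ _) {z : σ → L} (hz : LinearIndependent ℂ z)
    (h : ∀ s, form x m (z s) ∈ T) : Cardinal.mk σ ≤ Module.rank ℂ T := by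
  let φ : L →ₗ[ℂ] _ := (LinearMap.toSpanSingleton L _ (form x m 1)).restrictScalars ℂ
  have hφ : ∀ z, φ z = form x m z := fun z => by
    simp [φ, form]
  have hφ' : LinearMap.ker φ = ⊥ := LinearMap.ker_eq_bot'.2 fun z hz => by
    by_contra h0
    exact form_ne_zero hx m h0 (hφ z ▸ hz)
  have h5 : LinearIndependent ℂ fun s => (⟨_, h s⟩ : T) := by
    refine LinearIndependent.of_comp T.subtype ?_
    have h6 : T.subtype ∘ (fun s => (⟨_, h s⟩ : T)) = φ ∘ z := funext fun s => (hφ _).symm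
    rw [h6]
    exact hz.map' φ hφ'
  exact h5.cardinal_le_rank

theorem Gd.nrm' [Fintype G] (h : Gd S x m Ψ) :
    Gd S x (Fintype.card G * m) (MP_e06174_ag.nrm ℂ G Ψ) := by
  have h1 : Gd S x m (Ψ * (1 : Fix ℂ K G)) := by rwa [OneMemClass.coe_one, mul_one]
  have h2 := h.nrm 1 h1
  rwa [mul_one] at h2

theorem exists_pencils (hx : ∀ i, IsCoord ℂ (x i : F i)) (H : Finset (Fin n))
    (h0 : ∃ (m : ℕ) (Ψ : K), 1 ≤ m ∧ Ψ ≠ 0 ∧ Gd S x m Ψ) (hH : ∀ i ∈ H, Pencil S x i) :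
    ∃ (a : ℕ) (N : Fix ℂ K G) (y : ∀ i, Fix ℂ (F i) G), 1 ≤ a ∧ N ≠ 0 ∧
      (∀ i, Transcendental ℂ (y i : F i)) ∧ ∀ (t : ℕ) (s : H → Fin (t + 1)),
        Gd S x (a * (t + 1)) ((N : K) ^ (t + 1) * ∏ i : H, ι i (y i) ^ (s i : ℕ)) := by
  classical
  have := Fintype.ofFinite G
  obtain ⟨m₀, Ψ₀, hm₀, hΨ₀, hg₀⟩ := h0
  have h1 : ∀ i, ∃ (y : Fix ℂ (F i) G) (m : ℕ) (Φ : Fix ℂ K G), Transcendental ℂ (y : F i) ∧
      Φ ≠ 0 ∧ Gd S x m Φ ∧ (i ∈ H → Gd S x m ((Φ : K) * ι i y)) := fun i => by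
    by_cases hi : i ∈ H
    · obtain ⟨y, m, Ψ, h1, h2, h3, h4⟩ := hH i hi
      exact ⟨y, _, nrm ℂ G Ψ, h1, nrm_ne_zero h2, h3.nrm', fun _ => h3.nrm (S.j i y) h4⟩
    · exact ⟨x i, 0, 1, (hx i).trans, one_ne_zero, Gd.one, fun h => absurd h hi⟩
  choose y m Φ hy hΦ hg hg' using h1
  refine ⟨Fintype.card G * m₀ + ∑ i : H, m i, nrm ℂ G Ψ₀ * ∏ i : H, Φ i, y,
    le_add_right (Nat.mul_pos Fintype.card_pos hm₀),
    mul_ne_zero (nrm_ne_zero hΨ₀) (Finset.prod_ne_zero_iff.2 fun i _ => hΦ i), hy, fun t s => ?_⟩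
  have h3 := (hg₀.nrm'.pow (t + 1)).mul (Gd.prod (Finset.univ : Finset H) fun i _ =>
    ((hg' i i.2).pow (s i)).mul ((hg i).pow (t + 1 - s i)))
  have e1 : (Fintype.card G * m₀ + ∑ i : H, m i) * (t + 1) = (t + 1) * (Fintype.card G * m₀) +
      ∑ i : H, ((s i : ℕ) * m i + (t + 1 - s i) * m i) := by
    simp only [← add_mul, Nat.add_sub_cancel' (s _).2.le, ← Finset.mul_sum]
    ring
  have e2 : ((nrm ℂ G Ψ₀ * ∏ i : H, Φ i : Fix ℂ K G) : K) =
      (nrm ℂ G Ψ₀ : K) * ∏ i : H, (Φ i : K) := by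
    rw [MulMemClass.coe_mul, SubmonoidClass.coe_finsetProd]
  have e3 : ∀ i : H, (Φ i : K) ^ (t + 1) * ι i (y i) ^ (s i : ℕ) =
      ((Φ i : K) * ι i (y i)) ^ (s i : ℕ) * (Φ i : K) ^ (t + 1 - s i) := fun i => by
    rw [mul_pow, mul_right_comm, ← pow_add, Nat.add_sub_cancel' (s i).2.le]
  rw [e1, e2, mul_pow, mul_assoc, ← Finset.prod_pow, ← Finset.prod_mul_distrib,
    Finset.prod_congr rfl fun i _ => e3 i]
  exact h3

theorem linearIndependent_mul {k K : Type*} [Field k] [Field K] [Algebra k K] {α : Type*}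
    [Fintype α] {y : α → K} (hy : AlgebraicIndependent k y) {N : K} (hN : N ≠ 0) (t : ℕ) :
    LinearIndependent k fun s : α → Fin t => N * ∏ a, y a ^ (s a : ℕ) :=
  ((linearIndependent_monomials hy).comp (fun (s : α → Fin t) i => (s i : ℕ))
    fun _ _ h => funext fun i => Fin.ext (congrFun h i)).map' (LinearMap.mulLeft k N)
    (LinearMap.ker_eq_bot.2 (mul_right_injective₀ hN))

theorem le_kodaira (hx : ∀ i, IsCoord ℂ (x i : F i)) (H : Finset (Fin n))
    (h0 : ∃ (m : ℕ) (Ψ : K), 1 ≤ m ∧ Ψ ≠ 0 ∧ Gd S x m Ψ) (hH : ∀ i ∈ H, Pencil S x i) :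
    ((H.card : ℕ∞) : WithBot ℕ∞) ≤ kodaira ℂ (Fix ℂ K G) n := by
  classical
  obtain ⟨a, N, y, ha, hN, hy, hg⟩ := exists_pencils hx H h0 hH
  refine le_growth ha fun t => ?_
  have h2 : AlgebraicIndependent ℂ fun i => S.j i (y i) :=
    AlgebraicIndependent.of_comp (Fix ℂ K G).val (S.algebraicIndependent _ hy)
  have h3 : AlgebraicIndependent ℂ fun i : H => S.j i (y i) := h2.comp _ Subtype.val_injective
  have h4 := linearIndependent_mul h3 (pow_ne_zero (t + 1) hN) (t + 1)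
  have h6 : ∀ s : H → Fin (t + 1), Gd S x (a * (t + 1))
      (N ^ (t + 1) * ∏ i : H, S.j i (y i) ^ (s i : ℕ) : Fix ℂ K G) := fun s => by
    rw [MulMemClass.coe_mul, SubmonoidClass.coe_finsetProd]
    exact hg t s
  have h5 := card_le_rank (S.isTranscendenceBasis x hx)
    (sections ℂ (Fix ℂ K G) n (a * (t + 1)) {1}) h4 fun s => (h6 s).mem hx
  rw [Cardinal.mk_fintype, Fintype.card_fun, Fintype.card_fin, Fintype.card_coe,
    Nat.cast_pow] at h5
  exact h5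

end Pool.Agent.Lib.MP_9a2ae6_ag
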