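import Pool.Agent.Lib.MP_9a2ae6_ag.KDefs

/-! Elementary estimates for the growth exponent. -/

open Filter
open scoped TensorProduct

namespace Pool.Agent.Lib.MP_9a2ae6_ag

/-- The `m`-fold pluricanonical form `⊗_a (d f_{a,1} ∧ ⋯ ∧ d f_{a,n})`. -/
noncomputable def pluri (k L : Type) [Field k] [Field L] [Algebra k L] (n m : ℕ)
    (f : Fin m → Fin n → L) : ⨂[L]^m (ExteriorAlgebra L Ω[L⁄k]) :=
  PiTensorProduct.tprod L fun a =>
    ExteriorAlgebra.ιMulti L n fun b => KaehlerDifferential.D k L (f a b)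

/-- The space of twisted pluricanonical forms. -/
noncomputable def sections (k L : Type) [Field k] [Field L] [Algebra k L] (n m : ℕ)
    (W : Finset L) : Submodule k (⨂[L]^m (ExteriorAlgebra L Ω[L⁄k])) :=
  regular k L _ (Fin m) (Fin n) (pluri k L n m) W

theorem plurigenus_eq (k L : Type) [Field k] [Field L] [Algebra k L] (n : ℕ) (W : Finset L)
    (m : ℕ) : plurigenus k L n W m = Module.rank k (sections k L n m W) := rfl

theorem le_growth {d : ℕ → Cardinal.{0}} {h a : ℕ} (ha : 1 ≤ a)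
    (H : ∀ t : ℕ, ((t + 1 : ℕ) : Cardinal) ^ h ≤ d (a * (t + 1))) :
    ((h : ℕ∞) : WithBot ℕ∞) ≤ growth d := by
  refine le_iSup₂_of_le (f := fun (κ : ℕ)
    (_ : ∃ C : ℕ, ∃ᶠ m : ℕ in atTop, (m : Cardinal) ^ κ ≤ C * d m) => ((κ : ℕ∞) : WithBot ℕ∞))
    h ⟨a ^ h, frequently_atTop.2 fun t => ⟨a * (t + 1), by nlinarith, ?_⟩⟩ le_rfl
  rw [Nat.cast_mul, mul_pow, Nat.cast_pow]
  exact mul_le_mul_right (H t) _

theorem growth_le {d : ℕ → Cardinal.{0}} {h C : ℕ}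
    (H : ∀ m : ℕ, 1 ≤ m → d m ≤ ((C * m ^ h : ℕ) : Cardinal)) :
    growth d ≤ ((h : ℕ∞) : WithBot ℕ∞) := by
  refine iSup₂_le fun κ ⟨C', hC'⟩ => ?_
  by_contra hκ
  have hκ' : h + 1 ≤ κ := by
    by_contra h1
    exact hκ (by exact_mod_cast (by omega : κ ≤ h))
  obtain ⟨m, hm, hm'⟩ := frequently_atTop.1 hC' (C' * C + 1)
  have h1 : (m : Cardinal) ^ κ ≤ C' * ((C * m ^ h : ℕ) : Cardinal) :=
    hm'.trans (mul_le_mul_right (H m (by omega)) _)
  have h2 : m ^ κ ≤ C' * (C * m ^ h) := by exact_mod_cast h1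
  have h3 : m ^ (h + 1) ≤ m ^ κ := Nat.pow_le_pow_right (by omega) hκ'
  have h4 : 0 < m ^ h := pow_pos (by omega) _
  rw [pow_succ] at h3
  nlinarith

theorem growth_eq_bot {d : ℕ → Cardinal.{0}} {m₀ : ℕ} (H : ∀ m : ℕ, m₀ ≤ m → d m = 0) :
    growth d = ⊥ := by
  refine le_bot_iff.1 (iSup₂_le fun κ ⟨C', hC'⟩ => ?_)
  obtain ⟨m, hm, hm'⟩ := frequently_atTop.1 hC' (m₀ + 1)
  rw [H m (by omega), mul_zero] at hm'
  have h2 : m ^ κ ≤ 0 := by exact_mod_cast hm'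
  have h4 : 0 < m ^ κ := pow_pos (by omega) _
  omega

theorem kodaira_le_kappaSigma (k L : Type) [Field k] [Field L] [Algebra k L] (n : ℕ) :
    kodaira k L n ≤ kappaSigma k L n :=
  le_iSup (fun W : Finset L => growth (plurigenus k L n W)) {1}

end Pool.Agent.Lib.MP_9a2ae6_ag
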