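import Mathlib

/-! Birational definitions: twisted pluricanonical forms of a function field, the Kodaira
dimension and Nakayama's numerical dimension of the canonical divisor. -/

open scoped TensorProduct

namespace Pool.Agent.Lib.MP_9a2ae6_ag

/-- Let `φ` attach a vector of `V` to each family of elements of `L`.  The vectors which, along
every discrete valuation ring `O` of `L / k`, lie in the `O`-span of the vectors `h • φ f` with
`h ∈ W` and all `f a b ∈ O`. -/
def regular (k L V α β : Type) [Field k] [Field L] [Algebra k L] [AddCommGroup V] [Module L V]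
    [Module k V] [IsScalarTower k L V] (φ : (α → β → L) → V) (W : Finset L) : Submodule k V where
  carrier := {ω | ∀ O : ValuationSubring L, IsDiscreteValuationRing O →
    (∀ c : k, algebraMap k L c ∈ O) → ω ∈ Submodule.span O.toSubring
      {η | ∃ h ∈ W, ∃ f : α → β → L, (∀ a b, f a b ∈ O) ∧ η = h • φ f}}
  zero_mem' := fun _ _ _ => Submodule.zero_mem _
  add_mem' := fun ha hb O h1 h2 => Submodule.add_mem _ (ha O h1 h2) (hb O h1 h2)
  smul_mem' := fun c ω hω O h1 h2 => by
    have := Submodule.smul_mem _ (⟨algebraMap k L c, h2 c⟩ : O.toSubring) (hω O h1 h2)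
    rwa [← algebraMap_smul L c ω]

/-- The dimension over `k` of that space. -/
noncomputable def regDim (k L V α β : Type) [Field k] [Field L] [Algebra k L] [AddCommGroup V]
    [Module L V] [Module k V] [IsScalarTower k L V] (φ : (α → β → L) → V) (W : Finset L) :
    Cardinal :=
  Module.rank k (regular k L V α β φ W)

/-- The same for the `m`-th tensor power, with generators `h • ψ(f₁) ⊗ ⋯ ⊗ ψ(fₘ)`. -/
noncomputable def powDim (k L V β : Type) [Field k] [Field L] [Algebra k L] [AddCommGroup V]
    [Module L V] (ψ : (β → L) → V) (W : Finset L) (m : ℕ) : Cardinal :=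
  regDim k L (⨂[L]^m V) (Fin m) β (fun f => PiTensorProduct.tprod L fun a => ψ (f a)) W

/-- The exterior product `d f₁ ∧ ⋯ ∧ d fₙ`. -/
noncomputable def wedge (L M : Type) [CommRing L] [AddCommGroup M] [Module L M] (d : L → M)
    (n : ℕ) (f : Fin n → L) : ExteriorAlgebra L M :=
  ExteriorAlgebra.ιMulti L n fun b => d (f b)

/-- The dimension of the space of rational `m`-canonical forms which, along every discrete
valuation ring `O` of `L / k`, lie in the `O`-span of the forms
`h • ⊗ₐ (d f_{a,1} ∧ ⋯ ∧ d f_{a,n})` with `h ∈ W` and all `f a b ∈ O`.  On a smooth projective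
model `X` on which the linear system spanned by `W` is free, with divisor class `A`, this is
`h⁰(X, m K_X + A)`. -/
noncomputable def plurigenus (k L : Type) [Field k] [Field L] [Algebra k L] (n : ℕ)
    (W : Finset L) (m : ℕ) : Cardinal :=
  powDim k L (ExteriorAlgebra L Ω[L⁄k]) (Fin n) (wedge L Ω[L⁄k] (KaehlerDifferential.D k L) n) W m

/-- The growth exponent of a sequence of dimensions: the largest `κ` with
`limsup d m / m ^ κ > 0`, and `⊥` (minus infinity) if `d m = 0` for large `m`. -/
noncomputable def growth (d : ℕ → Cardinal.{0}) : WithBot ℕ∞ :=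
  ⨆ (κ : ℕ) (_ : ∃ C : ℕ, ∃ᶠ m : ℕ in Filter.atTop, (m : Cardinal) ^ κ ≤ C * d m),
    ((κ : ℕ∞) : WithBot ℕ∞)

/-- The Kodaira dimension of the function field `L / k` of dimension `n`. -/
noncomputable def kodaira (k L : Type) [Field k] [Field L] [Algebra k L] (n : ℕ) : WithBot ℕ∞ :=
  growth (plurigenus k L n {1})

/-- Nakayama's numerical dimension `κ_σ` of the canonical divisor of `L / k`. -/
noncomputable def kappaSigma (k L : Type) [Field k] [Field L] [Algebra k L] (n : ℕ) :
    WithBot ℕ∞ :=
  ⨆ W : Finset L, growth (plurigenus k L n W)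

/-- The image in `K` of the pure tensor `f₁ ⊗ ⋯ ⊗ fₙ`. -/
noncomputable def emb (k : Type) [Field k] {n : ℕ} (F : Fin n → Type) [∀ i, Field (F i)]
    [∀ i, Algebra k (F i)] (K : Type) [Field K] [Algebra (⨂[k] i, F i) K] (f : ∀ i, F i) : K :=
  algebraMap (⨂[k] i, F i) K (PiTensorProduct.tprod k f)

end Pool.Agent.Lib.MP_9a2ae6_ag
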