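import Pool.Agent.Lib.MP_9a2ae6_ag.Slack

/-! Linear combinations of products that vanish to high order at finitely many points. -/

set_option linter.unusedSectionVars false

open Polynomial IntermediateField Module MulAction

namespace Pool.Agent.Lib.MP_9a2ae6_ag

open Pool.Agent.Lib.MP_e06174_ag Place

theorem exists_region {α : Type} [Fintype α] (r : α → ℕ) (hr : ∀ i, 0 < r i) (M : ℕ) :
    ∃ R : Finset (α → ℕ), (Fintype.card α).factorial * R.card ≤
      (∏ i, r i) * (M + Fintype.card α) ^ Fintype.card α ∧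
      ∀ a : α → ℕ, ∑ i, a i / r i < M → a ∈ R := by
  classical
  rcases M with _ | M
  · exact ⟨∅, by simp, fun α h => absurd h (Nat.not_lt_zero _)⟩
  refine ⟨(((Finset.univ : Finset (Option α)).finsuppAntidiag M) ×ˢ
    Fintype.piFinset fun i => Finset.range (r i)).image
      fun z i => r i * z.1 (some i) + z.2 i, ?_, fun a ha => ?_⟩
  · refine (Nat.mul_le_mul_left _ Finset.card_image_le).trans ?_
    rw [Finset.card_product, Finset.card_finsuppAntidiag_nat_eq_choose, Fintype.card_piFinset]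
    simp only [Finset.card_range, Finset.card_univ, Fintype.card_option]
    rw [show Fintype.card α + 1 + M - 1 = M + Fintype.card α by omega, Nat.choose_symm_add,
      ← mul_assoc, mul_comm]
    refine Nat.mul_le_mul_left _ ?_
    have h1 := Nat.descFactorial_le_pow (M + Fintype.card α) (Fintype.card α)
    rw [Nat.descFactorial_eq_factorial_mul_choose] at h1
    exact h1.trans (Nat.pow_le_pow_left (by omega) _)
  · refine Finset.mem_image.2 ⟨⟨Finsupp.equivFunOnFinite.symm fun o =>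
      o.elim (M - ∑ i, a i / r i) fun i => a i / r i, fun i => a i % r i⟩, ?_, ?_⟩
    · rw [Finset.mem_product, Finset.mem_finsuppAntidiag, Fintype.mem_piFinset]
      refine ⟨⟨?_, Finset.subset_univ _⟩, fun i => Finset.mem_range.2 (Nat.mod_lt _ (hr i))⟩
      rw [Fintype.sum_option]
      simp only [Finsupp.equivFunOnFinite_symm_apply_apply, Option.elim]
      omega
    · funext i
      simp [Nat.div_add_mod]

theorem exists_large {τ : Type*} (D : Finset τ) (μ : τ → ℕ) (k κ ε c b : ℕ) (hε : 1 ≤ ε)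
    (h : ∑ d ∈ D, μ d ^ k < κ * ε ^ k) :
    ∃ t : ℕ, 1 ≤ t ∧ c ≤ ε * t ∧ ∑ d ∈ D, (μ d * t + b) ^ k < κ * (ε * t - c) ^ k := by
  have h0 : ∀ a : ℝ, Filter.Tendsto (fun t : ℕ => a / (t : ℝ)) Filter.atTop (nhds 0) :=
    tendsto_const_div_atTop_nhds_zero_nat
  have h1 : Filter.Tendsto (fun t : ℕ => ∑ d ∈ D, ((μ d : ℝ) + b / t) ^ k) Filter.atTop
      (nhds (∑ d ∈ D, ((μ d : ℝ) + 0) ^ k)) :=
    tendsto_finsetSum _ fun d _ => ((h0 b).const_add _).pow k
  have h2 : Filter.Tendsto (fun t : ℕ => (κ : ℝ) * ((ε : ℝ) - c / t) ^ k) Filter.atTop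
      (nhds ((κ : ℝ) * ((ε : ℝ) - 0) ^ k)) := (((h0 c).const_sub _).pow k).const_mul _
  have h3 := h1.eventually_lt h2 (by simp only [add_zero, sub_zero]; exact_mod_cast h)
  obtain ⟨t, h4, h5⟩ := (h3.and (Filter.eventually_ge_atTop (c + 1))).exists
  have h6 : c ≤ ε * t := by nlinarith
  refine ⟨t, by omega, h6, ?_⟩
  have ht : (0 : ℝ) < t := by exact_mod_cast (by omega : 0 < t)
  have h7 := mul_lt_mul_of_pos_right h4 (pow_pos ht k)
  rw [Finset.sum_mul, mul_assoc, ← mul_pow] at h7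
  simp only [← mul_pow, add_mul, sub_mul, div_mul_cancel₀ _ ht.ne'] at h7
  exact_mod_cast h7

theorem exists_vanishing {α τ : Type} [Fintype α] [DecidableEq α] {F : α → Type}
    [∀ a, Field (F a)] [∀ a, Algebra ℂ (F a)] {K : Type} [Field K] [Algebra ℂ K]
    (ι : ∀ a, F a →ₐ[ℂ] K) (hx : ∀ a, ∃ x : F a, IsCoord ℂ x) {σ : α → Type}
    [∀ a, Fintype (σ a)] (C : Finset τ) (P : τ → ∀ a, Place ℂ (F a)) (r : τ → α → ℕ)
    (hr : ∀ t a, 0 < r t a) (M : τ → ℕ) (U : τ → ∀ a, σ a → F a)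
    (hU : ∀ t ∈ C, ∀ a s, (P t a).Ge 0 (U t a s))
    (hnum : ∑ t ∈ C, (∏ a, r t a) * (M t + Fintype.card α) ^ Fintype.card α <
      (Fintype.card α).factorial * ∏ a, Fintype.card (σ a)) :
    ∃ b : (∀ a, σ a) → ℂ, b ≠ 0 ∧ ∀ t ∈ C, ∀ (w : Place ℂ K) (c : α → ℕ) (E : ℕ),
      (∀ a, w.Over (ι a) (P t a) (c a)) → (∀ a, E ≤ c a * r t a) →
        w.Ge (E * M t : ℕ) (∑ β : ∀ a, σ a, b β • ∏ a, ι a (U t a (β a))) := by
  classical
  choose R hR hR' using fun t => exists_region (r t) (hr t) (M t)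
  let C' : Finset (τ × (α → ℕ)) := C.biUnion fun t => (R t).image fun a => (t, a)
  have hC : C'.card < Fintype.card (∀ a, σ a) := by
    rw [Fintype.card_pi]
    refine lt_of_mul_lt_mul_left (lt_of_le_of_lt ?_ hnum) (Nat.zero_le _)
    refine (Nat.mul_le_mul_left _ Finset.card_biUnion_le).trans ?_
    rw [Finset.mul_sum]
    exact Finset.sum_le_sum fun t _ => (Nat.mul_le_mul_left _ Finset.card_image_le).trans (hR t)
  obtain ⟨b, hb0, hb⟩ := exists_kernel C'
    (fun z (β : ∀ a, σ a) => ∏ a, (P z.1 a).cen ((P z.1 a).sh^[z.2 a] (U z.1 a (β a)))) hC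
  refine ⟨b, hb0, fun t ht w c E hw hE => ?_⟩
  have h3 : ∀ a s, ι a (U t a s) = ∑ l ∈ Finset.range (r t a * M t + 1),
      ι a ((P t a).coef (r t a * M t) l (U t a s)) * ι a ((P t a).unif ^ l) := by
    intro a s
    simp only [← map_mul, ← map_sum, ← Place.taylor]
  have h4 : ∑ β : ∀ a, σ a, b β • ∏ a, ι a (U t a (β a)) =
      ∑ l ∈ Fintype.piFinset fun a => Finset.range (r t a * M t + 1),
        (∑ β : ∀ a, σ a, b β • ∏ a, ι a ((P t a).coef (r t a * M t) (l a) (U t a (β a)))) *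
          ∏ a, ι a ((P t a).unif ^ l a) := by
    rw [Finset.sum_congr rfl fun β _ => by rw [Finset.prod_congr rfl fun a _ => h3 a (β a)]]
    simp only [Finset.prod_mul_distrib, Finset.prod_univ_sum, Finset.smul_sum,
      Finset.sum_mul, smul_mul_assoc]
    rw [Finset.sum_comm]
  rw [h4]
  refine Ge.sum fun l _ => ?_
  have h5 : ∀ a (l : ℕ), w.Ge (c a * l) (ι a ((P t a).unif ^ l)) := fun a l =>
    ((hw a).ge_iff _ _).2 (ge_of_le (by simp))
  by_cases hl : ∑ a, l a / r t a < M t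
  · have h6 : ∀ a, l a < r t a * M t := fun a => by
      have := (Finset.single_le_sum (f := fun a => l a / r t a) (fun _ _ => Nat.zero_le _)
        (Finset.mem_univ a)).trans_lt hl
      rwa [Nat.div_lt_iff_lt_mul (hr t a), mul_comm] at this
    have h7 := hb (t, l) (Finset.mem_biUnion.2 ⟨t, ht, Finset.mem_image.2 ⟨l, hR' t l hl, rfl⟩⟩)
    simp only [coef, if_pos (h6 _), AlgHom.commutes, ← map_prod, Algebra.smul_def, ← map_mul,
      ← map_sum]
    rw [h7]
    simp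
  · refine Ge.mul' (Ge.sum fun β _ => (Ge.prod_zero fun a _ =>
      ((hw a).ge_zero_iff _).2 ((hx a).choose_spec.ge_coef (hU t ht a _) _ _)).smul _)
      (Ge.prod fun a _ => h5 a _) ?_
    have h7 : E * M t ≤ ∑ a, c a * l a := by
      refine (Nat.mul_le_mul_left _ (not_lt.1 hl)).trans ?_
      rw [Finset.mul_sum]
      refine Finset.sum_le_sum fun a _ => ?_
      have h7 := Nat.mul_div_le (l a) (r t a)
      calc E * (l a / r t a) ≤ c a * r t a * (l a / r t a) := Nat.mul_le_mul_right _ (hE a)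
        _ ≤ c a * l a := by rw [mul_assoc]; gcongr
    rw [zero_add]
    exact_mod_cast h7

variable {n : ℕ} {F : Fin n → Type} [∀ i, Field (F i)] [∀ i, Algebra ℂ (F i)]
  {G : Type} [Group G] [Finite G] [∀ i, MulSemiringAction G (F i)] [∀ i, SMulCommClass G ℂ (F i)]
  {K : Type} [Field K] [Algebra ℂ K] [MulSemiringAction G K] [SMulCommClass G ℂ K]
  {ι : ∀ i, F i →ₐ[ℂ] K} (S : Setup G ι) [∀ i, FaithfulSMul G (F i)] [FaithfulSMul G K]

/-- Counting the bad tuples of points on the factors in `J`. -/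
theorem count (J : Finset (Fin n)) (Q : S.Loc → Prop) (d : Fin n → ℕ) {j : J} (hd : d j = 1)
    (Big : ∀ i : J, Finset (Place ℂ (Fix ℂ (F i) G)))
    (hBig : ∀ L, Q L → ∀ i : J, L.q i ∈ Big i) {κ : ℕ}
    (hκ : ∀ L, Q L → κ ≤ (Subgroup.centralizer (stabilizer G (L.p j) : Set G)).index) :
    ∃ BT : Finset (∀ i : J, Place ℂ (F i)),
      (∀ L : S.Loc, Q L → L.d = d → (fun i : J => L.p i) ∈ BT) ∧
      (∀ P ∈ BT, ∃ L : S.Loc, Q L ∧ L.d = d ∧ (fun i : J => L.p i) = P) ∧
      κ ^ (J.card - 1) * ∑ P ∈ BT, ∏ i, Nat.card (stabilizer G (P i)) ≤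
        (∏ i, (Big i).card) * Nat.card G ^ J.card := by
  classical
  have := Fintype.ofFinite G
  choose y hy using S.coord
  choose P hP using fun i (q : Place ℂ (Fix ℂ (F i) G)) => q.exists_over_ram
  let Pl : ∀ i : J, Finset (Place ℂ (F i)) := fun i =>
    (Big i).biUnion fun q => Finset.univ.image fun g : G => g • P i q
  have hPl : ∀ (L : S.Loc), Q L → ∀ i : J, L.p i ∈ Pl i := fun L hL i => by
    obtain ⟨g, hg⟩ := exists_smul_eq (hP i (L.q i)) (L.hq i)
    exact Finset.mem_biUnion.2 ⟨L.q i, hBig L hL i,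
      Finset.mem_image.2 ⟨g, Finset.mem_univ _, hg.symm⟩⟩
  let A : ∀ i : J, Place ℂ (F j) → Finset (Place ℂ (F i)) := fun i pj =>
    (Pl i).filter fun p => ∃ L : S.Loc, Q L ∧ L.d = d ∧ L.p j = pj ∧ L.p i = p
  let I : Finset (Place ℂ (F j)) := (Pl j).filter fun p => ∃ L : S.Loc, Q L ∧ L.p j = p
  let BT := (Fintype.piFinset Pl).filter fun P =>
    ∃ L : S.Loc, Q L ∧ L.d = d ∧ (fun i : J => L.p i) = P
  refine ⟨BT, fun L h1 h2 => Finset.mem_filter.2
    ⟨Fintype.mem_piFinset.2 (hPl L h1), L, h1, h2, rfl⟩, fun P hP => (Finset.mem_filter.1 hP).2,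
    ?_⟩
  have h1 : ∀ P ∈ BT, P j ∈ I := fun P hP => by
    obtain ⟨-, L, h1, -, rfl⟩ := Finset.mem_filter.1 hP
    exact Finset.mem_filter.2 ⟨hPl L h1 j, L, h1, rfl⟩
  have h2 : ∀ (i : J) pj, ∑ p ∈ A i pj, Nat.card (stabilizer G p) ≤
      (Big i).card * Nat.card (Subgroup.centralizer (stabilizer G pj : Set G)) := fun i pj => by
    refine sum_card_le (hy i) _ _ _ (fun p hp => ?_) fun p hp g hg a ha => ?_
    · obtain ⟨-, L, h2, -, -, rfl⟩ := Finset.mem_filter.1 hp
      exact ⟨L.q i, hBig L h2 i, L.hq i⟩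
    · obtain ⟨-, L, -, h2, rfl, rfl⟩ := Finset.mem_filter.1 hp
      obtain ⟨-, L', -, h3, h4, h5⟩ := Finset.mem_filter.1 hg
      have hj : L.d j = 1 := h2 ▸ hd
      have hj' : L'.d j = 1 := h3 ▸ hd
      have h6 : L'.q i = L.q i := ((L'.hq i).unique (h5 ▸ (L.hq i).smul g)).1
      have h7 : L'.q j = L.q j := ((L'.hq j).unique (h4 ▸ L.hq j)).1
      have h8 : L'.c i = L.c i := by
        have h8 := L'.hed i
        rw [← (L'.base hj').2, h7, (L.base hj).2, h3, ← h2, L.hed, h6] at h8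
        exact (Nat.eq_of_mul_eq_mul_right (L.q i).one_le_ram h8).symm
      obtain ⟨h9, h10⟩ := L.chi_eq hj ha i
      obtain ⟨h11, h12⟩ := L'.chi_eq hj' (h4 ▸ ha) i
      rw [h5] at h11 h12
      obtain ⟨h13, h14⟩ := (hy i).chi_smul h11
      have h15 := (hy i).eq_of_chi h13 h9 (by rw [← h14, h12, h10, h8, h4])
      rw [mul_assoc, inv_mul_eq_iff_eq_mul] at h15
      exact h15
  have hcard : (Finset.univ.erase j).card = J.card - 1 := by
    rw [Finset.card_erase_of_mem (Finset.mem_univ _), Finset.card_univ, Fintype.card_coe]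
  have h3 : ∀ pj ∈ I, κ ^ (J.card - 1) * ∑ P ∈ BT.filter (fun P => P j = pj),
      ∏ i, Nat.card (stabilizer G (P i)) ≤ Nat.card (stabilizer G pj) *
        ((∏ l ∈ Finset.univ.erase j, (Big l).card) * Nat.card G ^ (J.card - 1)) :=
    fun pj hpj => by
    obtain ⟨-, L₀, h3, rfl⟩ := Finset.mem_filter.1 hpj
    have h4 : BT.filter (fun P => P j = L₀.p j) ⊆ Fintype.piFinset fun i => A i (L₀.p j) := by
      intro P hP
      obtain ⟨h4, h5⟩ := Finset.mem_filter.1 hP
      obtain ⟨-, L, h6, h7, rfl⟩ := Finset.mem_filter.1 h4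
      exact Fintype.mem_piFinset.2 fun i => Finset.mem_filter.2 ⟨hPl L h6 i, L, h6, h7, h5, rfl⟩
    refine (Nat.mul_le_mul_left _ (Finset.sum_le_sum_of_subset h4)).trans ?_
    rw [← Finset.prod_univ_sum (fun i => A i (L₀.p j)) fun i p => Nat.card (stabilizer G p),
      ← Finset.mul_prod_erase _ _ (Finset.mem_univ j), mul_left_comm]
    refine Nat.mul_le_mul ?_ ?_
    · refine (Finset.sum_le_sum_of_subset (t := {L₀.p j}) fun p hp => ?_).trans (by simp)
      obtain ⟨-, L, -, -, h5, rfl⟩ := Finset.mem_filter.1 hp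
      exact Finset.mem_singleton.2 h5
    · have h5 : κ * Nat.card (Subgroup.centralizer (stabilizer G (L₀.p j) : Set G)) ≤
          Nat.card G := by
        rw [← (Subgroup.centralizer (stabilizer G (L₀.p j) : Set G)).index_mul_card]
        exact Nat.mul_le_mul_right _ (hκ _ h3)
      refine (Nat.mul_le_mul_left _ (Finset.prod_le_prod' fun l _ => h2 _ _)).trans ?_
      rw [Finset.prod_mul_distrib, Finset.prod_const, hcard, mul_left_comm, ← mul_pow]
      gcongr
  have h4 : ∑ p ∈ I, Nat.card (stabilizer G p) ≤ (Big j).card * Nat.card G := by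
    rw [← Subgroup.card_top (G := G)]
    refine sum_card_le (hy j) _ _ _ (fun p hp => ?_) fun _ _ _ _ => Subgroup.mem_top _
    obtain ⟨-, L, h4, rfl⟩ := Finset.mem_filter.1 hp
    exact ⟨L.q j, hBig L h4 j, L.hq j⟩
  rw [← Finset.sum_fiberwise_of_maps_to h1, Finset.mul_sum]
  refine (Finset.sum_le_sum h3).trans ?_
  rw [← Finset.sum_mul, ← Finset.mul_prod_erase _ _ (Finset.mem_univ j)]
  refine (Nat.mul_le_mul_right _ h4).trans (le_of_eq ?_)
  obtain ⟨c, hc⟩ : ∃ c, J.card = c + 1 :=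
    ⟨_, (Nat.succ_pred_eq_of_pos (Finset.card_pos.2 ⟨j.1, j.2⟩)).symm⟩
  rw [hc, Nat.add_sub_cancel]
  ring

end Pool.Agent.Lib.MP_9a2ae6_ag
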