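import Pool.Agent.Lib.MP_9a2ae6_ag.Defs

set_option autoImplicit false

namespace Pool.Agent.Lib.MP_9a2ae6_ag

open MvPolynomial

variable {n : ℕ}

theorem eval_smul_of_isHomogeneous {f : S n} {j : ℕ} (hf : f.IsHomogeneous j) (t : ℂ)
    (x : Fin (n + 1) → ℂ) : eval (t • x) f = t ^ j * eval x f := by
  classical
  rw [eval_eq', eval_eq', Finset.mul_sum]
  refine Finset.sum_congr rfl fun u hu => ?_
  have h1 : ∑ i, u i = j := by
    have := hf (mem_support_iff.1 hu)
    rw [← this, Finsupp.weight_apply, Finsupp.sum_fintype _ _ (by simp)]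
    simp
  simp only [Pi.smul_apply, smul_eq_mul, mul_pow, Finset.prod_mul_distrib,
    Finset.prod_pow_eq_pow_sum, h1]
  ring

theorem mem_zl {P : Ideal (S n)} {x : Fin (n + 1) → ℂ} :
    x ∈ zeroLocus ℂ P ↔ ∀ f ∈ P, eval x f = 0 := by
  simp [mem_zeroLocus_iff]

theorem smul_mem_zl {P : Ideal (S n)} (hP : ∀ f ∈ P, ∀ j : ℕ, homogeneousComponent j f ∈ P)
    {x : Fin (n + 1) → ℂ} (hx : x ∈ zeroLocus ℂ P) (t : ℂ) : t • x ∈ zeroLocus ℂ P := by
  rw [mem_zl] at hx ⊢
  intro f hf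
  rw [← sum_homogeneousComponent f, map_sum]
  refine Finset.sum_eq_zero fun j _ => ?_
  rw [eval_smul_of_isHomogeneous (homogeneousComponent_isHomogeneous j f), hx _ (hP f hf j),
    mul_zero]

theorem eval_aeval_poly (g : Fin (n + 1) → Polynomial ℂ) (a : ℂ) (f : S n) :
    (aeval g f).eval a = eval (fun l => (g l).eval a) f := by
  induction f using MvPolynomial.induction_on with
  | C c => simp
  | add p q hp hq => simp [hp, hq]
  | mul_X p l hp => simp [hp]

theorem exists_homog_ne {P : Ideal (S n)}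
    (hP : ∀ f ∈ P, ∀ j : ℕ, homogeneousComponent j f ∈ P)
    {g : Fin (n + 1) → Polynomial ℂ} (h : ∃ f ∈ P, aeval g f ≠ 0) :
    ∃ f ∈ P, ∃ j, f.IsHomogeneous j ∧ aeval g f ≠ 0 := by
  obtain ⟨f, hf, hne⟩ := h
  by_contra hc
  push Not at hc
  apply hne
  rw [← sum_homogeneousComponent f, map_sum]
  exact Finset.sum_eq_zero fun j _ =>
    hc _ (hP f hf j) j (homogeneousComponent_isHomogeneous j f)

theorem card_le_excDeg {P : Ideal (S n)}
    (hP : ∀ f ∈ P, ∀ j : ℕ, homogeneousComponent j f ∈ P)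
    {g : Fin (n + 1) → Polynomial ℂ} (h : ∃ f ∈ P, aeval g f ≠ 0) (e : ℕ) (A : Finset ℂ)
    (hA : ∀ a ∈ A, (fun l => (g l).eval a) ∈ zeroLocus ℂ P) : A.card ≤ excDeg P g e := by
  classical
  obtain ⟨f0, hf0, j0, hj0, hne0⟩ := exists_homog_ne hP h
  set T : ℂ → ℕ := fun a => sInf {t | ∃ f ∈ P, ∃ j, f.IsHomogeneous j ∧ aeval g f ≠ 0 ∧
      t = (aeval g f).rootMultiplicity a} with hT
  have hsupp : Function.support T ⊆ ((aeval g f0).roots.toFinset ∪ A : Finset ℂ) := by
    intro a ha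
    have h1 : T a ≤ (aeval g f0).rootMultiplicity a :=
      Nat.sInf_le ⟨f0, hf0, j0, hj0, hne0, rfl⟩
    have h2 : 0 < (aeval g f0).rootMultiplicity a := lt_of_lt_of_le (Nat.pos_of_ne_zero ha) h1
    have h3 := (Polynomial.rootMultiplicity_pos hne0).1 h2
    simp only [Finset.coe_union, Set.mem_union, Finset.mem_coe, Multiset.mem_toFinset]
    exact Or.inl ((Polynomial.mem_roots hne0).2 h3)
  have hge : ∀ a ∈ A, 1 ≤ T a := by
    intro a ha
    have hne : {t | ∃ f ∈ P, ∃ j, f.IsHomogeneous j ∧ aeval g f ≠ 0 ∧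
        t = (aeval g f).rootMultiplicity a}.Nonempty := ⟨_, f0, hf0, j0, hj0, hne0, rfl⟩
    obtain ⟨f, hf, j, _, hn, ht⟩ := Nat.sInf_mem hne
    have : T a = (aeval g f).rootMultiplicity a := ht
    rw [this]
    refine (Polynomial.rootMultiplicity_pos hn).2 ?_
    rw [Polynomial.IsRoot, eval_aeval_poly]
    exact mem_zl.1 (hA a ha) f hf
  have h1 : ∑ᶠ a, T a = ∑ a ∈ (aeval g f0).roots.toFinset ∪ A, T a :=
    finsum_eq_sum_of_support_subset _ hsupp
  have h2 : A.card ≤ ∑ a ∈ (aeval g f0).roots.toFinset ∪ A, T a := by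
    calc A.card = ∑ _a ∈ A, 1 := by simp
      _ ≤ ∑ a ∈ A, T a := Finset.sum_le_sum hge
      _ ≤ _ := Finset.sum_le_sum_of_subset Finset.subset_union_right
  unfold excDeg
  exact le_trans (h1 ▸ h2) (Nat.le_add_right _ _)

/-- the line through `p` (parameter 0) and `q` (parameter 1) -/
noncomputable def line (p q : Fin (n + 1) → ℂ) : Fin (n + 1) → Polynomial ℂ :=
  fun l => Polynomial.C (p l) + Polynomial.C (q l - p l) * Polynomial.X

theorem line_eval (p q : Fin (n + 1) → ℂ) (a : ℂ) :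
    (fun l => (line p q l).eval a) = (1 - a) • p + a • q := by
  funext l
  simp [line]
  ring

theorem line_isRatCurve {p q : Fin (n + 1) → ℂ} (hp : p ≠ 0) (h : ∀ t : ℂ, q ≠ t • p) :
    IsRatCurve (line p q) 1 := by
  refine ⟨fun l => ?_, ?_, fun a => ?_⟩
  · unfold line
    compute_degree
  · by_contra hc
    push Not at hc
    apply h 1
    funext l
    have := hc l
    simp [line, Polynomial.coeff_C] at this
    simp
    exact sub_eq_zero.1 this
  · by_contra hc
    push Not at hc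
    have h1 : (1 - a) • p + a • q = 0 := by
      rw [← line_eval]
      funext l
      exact hc l
    by_cases ha : a = 0
    · apply hp
      simpa [ha] using h1
    · apply h ((a - 1) / a)
      funext l
      have := congrFun h1 l
      simp only [Pi.add_apply, Pi.smul_apply, smul_eq_mul, Pi.zero_apply] at this ⊢
      field_simp
      linear_combination this

theorem not_sub_of_point {P : Ideal (S n)} {g : Fin (n + 1) → Polynomial ℂ} (a : ℂ)
    (h : (fun l => (g l).eval a) ∉ zeroLocus ℂ P) : ∃ f ∈ P, aeval g f ≠ 0 := by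
  rw [mem_zl] at h
  push Not at h
  obtain ⟨f, hf, hne⟩ := h
  refine ⟨f, hf, fun h0 => hne ?_⟩
  rw [← eval_aeval_poly, h0, Polynomial.eval_zero]

theorem ne_bot_of_centre {P : Ideal (S n)} {c : ℕ} (hP : IsSmoothCentre P c) (hc : 0 < c) :
    P ≠ ⊥ := by
  intro h
  have h1 := hP.height
  rw [h, Ideal.height_bot] at h1
  have : c = 0 := by exact_mod_cast h1.symm
  omega

theorem exists_not_mem_all {k : ℕ} (P : Fin k → Ideal (S n)) (h : ∀ i, P i ≠ ⊥) :
    ∃ q : Fin (n + 1) → ℂ, q 0 ≠ 0 ∧ ∀ i, q ∉ zeroLocus ℂ (P i) := by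
  choose f hf hne using fun i => Submodule.exists_mem_ne_zero_of_ne_bot (h i)
  have h1 : (X 0 * ∏ i, f i : S n) ≠ 0 :=
    mul_ne_zero (X_ne_zero _) (Finset.prod_ne_zero_iff.2 fun i _ => hne i)
  have h2 : ∃ q, eval q (X 0 * ∏ i, f i : S n) ≠ 0 := by
    by_contra hc
    push Not at hc
    exact h1 (MvPolynomial.funext fun x => by rw [hc x, map_zero])
  obtain ⟨q, hq⟩ := h2
  rw [map_mul, map_prod, eval_X] at hq
  refine ⟨q, left_ne_zero_of_mul hq, fun i hi => ?_⟩
  exact (Finset.prod_ne_zero_iff.1 (right_ne_zero_of_mul hq) i (Finset.mem_univ _))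
    (mem_zl.1 hi _ (hf i))

end Pool.Agent.Lib.MP_9a2ae6_ag
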