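import Pool.Agent.Lib.MP_9a2ae6_ag.Pos

/-! Derivations and valuation rings. -/

set_option linter.unusedSectionVars false

open Polynomial IntermediateField Module

namespace Pool.Agent.Lib.MP_9a2ae6_ag

open Pool.Agent.Lib.MP_e06174_ag Place

section pres

variable {k K : Type*} [Field k] [Field K] [Algebra k K]

/-- Regular elements whose derivative has order at least `s`. -/
def Pres (w : Place k K) (θ : Derivation k K K) (s : ℤ) : Subring K where
  carrier := {a | w.Ge 0 a ∧ w.Ge s (θ a)}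
  one_mem' := ⟨ge_one, by simp⟩
  zero_mem' := ⟨by simp, by simp⟩
  add_mem' := fun ha hb => ⟨ha.1.add hb.1, by rw [map_add]; exact ha.2.add hb.2⟩
  neg_mem' := fun ha => ⟨ha.1.neg, by rw [map_neg]; exact ha.2.neg⟩
  mul_mem' := fun ha hb => ⟨ha.1.mul' hb.1 (by simp), by
    rw [Derivation.leibniz, smul_eq_mul, smul_eq_mul]
    exact (ha.1.mul' hb.2 (by simp)).add (hb.1.mul' ha.2 (by simp))⟩

variable {w : Place k K} {θ : Derivation k K K} {s : ℤ}

theorem mem_pres {a : K} : a ∈ Pres w θ s ↔ w.Ge 0 a ∧ w.Ge s (θ a) := Iff.rfl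

theorem inv_mem_pres {b : K} (hb : b ∈ Pres w θ s) (h0 : w.ord b = 0) : b⁻¹ ∈ Pres w θ s := by
  have h1 : w.Ge 0 b⁻¹ := ge_of_le (by simp [h0])
  refine ⟨h1, ?_⟩
  rw [Derivation.leibniz_inv, smul_eq_mul]
  exact (h1.pow 2).neg.mul' hb.2 (by simp)

theorem mem_pres_of_mul {f d : K} (hd : d ∈ Pres w θ s) (hd0 : d ≠ 0) (h0 : w.ord d = 0)
    (h : f * d ∈ Pres w θ s) : f ∈ Pres w θ s := by
  have := mul_mem h (inv_mem_pres hd h0)
  rwa [mul_inv_cancel_right₀ hd0] at this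

theorem aeval_mem {M : Type*} [CommRing M] [Algebra M K] {R : Subring K}
    (hM : ∀ μ : M, algebraMap M K μ ∈ R) {y : K} (hy : y ∈ R) (P : M[X]) : aeval y P ∈ R := by
  rw [aeval_eq_sum_range]
  exact sum_mem fun i _ => by
    rw [Algebra.smul_def]
    exact mul_mem (hM _) (pow_mem hy _)

theorem mem_pres_of_adjoin {M : Type*} [Field M] [Algebra M K]
    (hM : ∀ μ : M, algebraMap M K μ ∈ Pres w θ s) {y : K} (hy : y ∈ Pres w θ s) {z : K}
    (hz : z ∈ M⟮y⟯) (h0 : w.Ge 0 z) : z ∈ Pres w θ s := by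
  classical
  obtain ⟨P, Q, hQ, rfl⟩ := exists_div_of_mem hz
  by_cases hQ' : aeval y Q = 0
  · rw [hQ', div_zero]; exact zero_mem _
  obtain ⟨a, b, hab⟩ := isCoprime_div_gcd_div_gcd (p := P) hQ
  set P' := P / gcd P Q
  set Q' := Q / gcd P Q
  have hg : gcd P Q ≠ 0 := gcd_ne_zero_of_right hQ
  have h1 : P = gcd P Q * P' := (EuclideanDomain.mul_div_cancel' hg (gcd_dvd_left _ _)).symm
  have h2 : Q = gcd P Q * Q' := (EuclideanDomain.mul_div_cancel' hg (gcd_dvd_right _ _)).symm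
  have h3 : aeval y (gcd P Q) ≠ 0 ∧ aeval y Q' ≠ 0 := by
    rwa [h2, map_mul, mul_eq_zero, not_or] at hQ'
  have h4 : aeval y P / aeval y Q * aeval y Q' = aeval y P' := by
    rw [congrArg (aeval y) h1, congrArg (aeval y) h2, map_mul, map_mul,
      mul_div_mul_left _ _ h3.1, div_mul_cancel₀ _ h3.2]
  refine mem_pres_of_mul (aeval_mem hM hy Q') h3.2 ?_ (h4 ▸ aeval_mem hM hy P')
  by_contra h5
  have h6 : w.Ge 1 (aeval y Q') := by
    have := (aeval_mem hM hy Q').1.le h3.2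
    exact ge_of_le (by omega)
  have h7 : w.Ge 1 (aeval y P') := h4 ▸ h0.mul' h6 (by simp)
  have h8 := ((aeval_mem hM hy a).1.mul' h7 (l := 1) (by simp)).add
    ((aeval_mem hM hy b).1.mul' h6 (by simp))
  rw [← map_mul, ← map_mul, ← map_add, hab, map_one] at h8
  simpa using h8.le one_ne_zero

variable {B : Type*} [Field B] [Algebra k B] [Algebra B K] [IsScalarTower k B K]
  [FiniteDimensional B K] [Algebra.IsSeparable B K] {v : Place k B} {e : ℕ}

theorem exists_den (h : w.Over (IsScalarTower.toAlgHom k B K) v e) {f : K} (hf : w.Ge 0 f) :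
    ∃ d : K, d ≠ 0 ∧ w.ord d = 0 ∧ IsIntegral v.O d ∧ IsIntegral v.O (f * d) := by
  obtain ⟨P, rfl, -⟩ := Over.exists_prime h
  obtain ⟨a, d, hnd⟩ := IsDedekindDomain.HeightOneSpectrum.exists_primeCompl_mul_eq_of_integer P f
    (ge_zero_iff.1 hf)
  have hd : ¬ (ofPrime (const_mem_S K v) P).Ge 1 (d.1 : K) := fun h =>
    d.2 ((ofPrime_ge_one_iff (const_mem_S K v) P d.1).1 h)
  rw [not_ge_iff] at hd
  have := (ofPrime_ge_zero (const_mem_S K v) P d.1).le hd.1
  change 0 ≤ (ofPrime (const_mem_S K v) P).ord (d.1 : K) at this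
  change f * (d.1 : K) = (a : K) at hnd
  exact ⟨d.1, hd.1, by omega, d.1.2, hnd ▸ a.2⟩

/-- Continuity of derivations passes to finite extensions. -/
theorem exists_bound (h : w.Over (IsScalarTower.toAlgHom k B K) v e)
    (hO : ∀ a : B, v.Ge 0 a → w.Ge s (θ (algebraMap B K a))) :
    ∃ s' : ℤ, ∀ f, w.Ge 0 f → w.Ge s' (θ f) := by
  classical
  obtain ⟨T, hT⟩ := Module.finite_def.1 (inferInstance : Module.Finite v.O (S K v))
  obtain ⟨m, -, hm⟩ := exists_big (insert s (T.image fun a : S K v => w.ord (θ a))) (fun _ => 1)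
    id (fun _ _ => one_pos) 0
  have hint : ∀ a : K, IsIntegral v.O a → w.Ge 0 a := fun a ha =>
    ge_zero_of_isIntegral (R := v.O) w (fun a => (h.ge_zero_iff a).2 (mem_O.1 a.2)) ha
  have h1 : ∀ a : S K v, (a : K) ∈ Pres w θ (-m) := fun a => by
    have ha : a ∈ Submodule.span v.O (T : Set (S K v)) := hT ▸ Submodule.mem_top
    induction ha using Submodule.span_induction with
    | mem a ha =>
      refine ⟨hint _ a.2, ge_of_le ?_⟩
      have := hm _ (Finset.mem_insert_of_mem (Finset.mem_image_of_mem _ ha))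
      simp only [id] at this
      omega
    | zero => exact zero_mem _
    | add a b _ _ ha hb => exact add_mem ha hb
    | smul c a _ ha =>
      have h2 : ((c • a : S K v) : K) = algebraMap B K c * a := Algebra.smul_def c (a : K)
      rw [h2]
      refine mul_mem ⟨(h.ge_zero_iff c).2 (mem_O.1 c.2), (hO c (mem_O.1 c.2)).mono ?_⟩ ha
      have := hm s (Finset.mem_insert_self _ _)
      simp only [id] at this
      omega
  refine ⟨-m, fun f hf => ?_⟩
  obtain ⟨d, hd0, hd, h2, h3⟩ := exists_den h hf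
  exact (mem_pres_of_mul (h1 ⟨d, h2⟩) hd0 hd (h1 ⟨_, h3⟩)).2

/-- The unramified case. -/
theorem mem_pres_of_unram (h : w.Over (IsScalarTower.toAlgHom k B K) v e)
    (hO : ∀ a : B, v.Ge 0 a → w.Ge s (θ (algebraMap B K a))) {ϑ : K} (hϑ : ϑ ∈ Pres w θ s)
    (hgen : Algebra.adjoin B {ϑ} = ⊤) (g : v.O[X]) (hg : g.Monic) (hg0 : aeval ϑ g = 0)
    (hg1 : aeval ϑ (derivative g) ≠ 0) (hg2 : w.ord (aeval ϑ (derivative g)) = 0) {f : K}
    (hf : w.Ge 0 f) : f ∈ Pres w θ s := by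
  have hO' : ∀ a : v.O, algebraMap v.O K a ∈ Pres w θ s := fun a =>
    ⟨(h.ge_zero_iff a).2 (mem_O.1 a.2), hO a (mem_O.1 a.2)⟩
  have hint : IsIntegral v.O ϑ := ⟨g, hg, hg0⟩
  obtain ⟨r, hr⟩ := minpoly.isIntegrallyClosed_dvd hint hg0
  have h1 : aeval ϑ (derivative (minpoly B ϑ)) = aeval ϑ (derivative (minpoly v.O ϑ)) := by
    rw [minpoly.isIntegrallyClosed_eq_field_fractions' B hint, derivative_map, aeval_map_algebraMap]
  have h2 : aeval ϑ (derivative g) = aeval ϑ (derivative (minpoly B ϑ)) * aeval ϑ r := by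
    rw [hr, derivative_mul, map_add, map_mul, map_mul, minpoly.aeval, zero_mul, add_zero, h1]
  have h3 : ∀ a : K, IsIntegral v.O a → a ∈ Pres w θ s := fun a ha => by
    have h3 : a ∈ (Algebra.traceForm B K).dualSubmodule
        (Subalgebra.toSubmodule (Algebra.adjoin v.O {ϑ})) := fun y hy => by
      have h4 : IsIntegral v.O y := adjoin_le_integralClosure hint hy
      have h5 := Algebra.isIntegral_trace (L := B) (ha.mul h4)
      obtain ⟨c, hc⟩ := IsIntegrallyClosed.isIntegral_iff.1 h5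
      exact Submodule.mem_one.2 ⟨c, hc⟩
    rw [traceForm_dualSubmodule_adjoin v.O B hgen hint] at h3
    obtain ⟨y, hy, rfl⟩ := h3
    obtain ⟨P, rfl⟩ : ∃ P : v.O[X], aeval ϑ P = y := by
      have hy' : y ∈ Algebra.adjoin v.O {ϑ} := hy
      rwa [Algebra.adjoin_singleton_eq_range_aeval] at hy'
    refine mem_pres_of_mul (aeval_mem hO' hϑ _) hg1 hg2 ?_
    have h4 := left_ne_zero_of_mul (h2 ▸ hg1)
    have h5 := mul_mem (aeval_mem hO' hϑ P) (aeval_mem hO' hϑ r)
    convert h5 using 1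
    rw [h2]
    change (_ : K)⁻¹ * _ * _ = _
    field_simp
  obtain ⟨d, hd0, hd, h4, h5⟩ := exists_den h hf
  exact mem_pres_of_mul (h3 _ h4) hd0 hd (h3 _ h5)

theorem mem_pres_of_unram' (h : w.Over (IsScalarTower.toAlgHom k B K) v e)
    (hO : ∀ a : B, v.Ge 0 a → w.Ge s (θ (algebraMap B K a))) {ϑ : K} (hϑ : ϑ ∈ Pres w θ s)
    (hgen : Algebra.adjoin B {ϑ} = ⊤) (g : B[X]) (hg : g.Monic)
    (hc : ∀ i, w.Ge 0 (algebraMap B K (g.coeff i))) (hg0 : aeval ϑ g = 0)
    (hg1 : aeval ϑ (derivative g) ≠ 0) (hg2 : w.ord (aeval ϑ (derivative g)) = 0) {f : K}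
    (hf : w.Ge 0 f) : f ∈ Pres w θ s := by
  obtain ⟨q, rfl, -, hq⟩ := lifts_and_degree_eq_and_monic (f := algebraMap v.O B)
    ((lifts_iff_coeff_lifts g).2 fun i => ⟨⟨_, mem_O.2 ((h.ge_zero_iff _).1 (hc i))⟩, rfl⟩) hg
  rw [derivative_map, aeval_map_algebraMap] at hg1 hg2
  rw [aeval_map_algebraMap] at hg0
  exact mem_pres_of_unram h hO hϑ hgen q hq hg0 hg1 hg2 hf

end pres

section curve

variable {k F : Type*} [Field k] [Field F] [Algebra k F] [CharZero k] [IsAlgClosed k] {x : F}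

theorem exists_bound_curve (h : IsCoord k x) (p : Place k F) (θ : Derivation k F F) :
    ∃ s : ℤ, ∀ f, p.Ge 0 f → p.Ge s (θ f) := by
  obtain ⟨z, hz, hp⟩ : ∃ z : F, IsCoord k z ∧ p.Ge 1 z := by
    rcases h.pole_or_at p with hq | ⟨c, hc⟩
    · exact ⟨x⁻¹, h.of_transcendental fun h1 => h.trans (IsAlgebraic.inv_iff.1 h1),
        ge_of_le (by rw [ord_inv]; omega)⟩
    · exact ⟨_, h.of_transcendental fun h1 => h.trans
        (by simpa using h1.add (isAlgebraic_algebraMap c)), hc⟩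
  have := hz.fin
  have : CharZero k⟮z⟯ := charZero_of_injective_algebraMap (algebraMap k _).injective
  rcases p.restrict (IsScalarTower.toAlgHom k k⟮z⟯ F) with h0 | ⟨v, e, hv⟩
  · have h1 := h0 (AdjoinSimple.gen k z)
    have h2 := hp.le (ne_zero_of_transcendental hz.trans)
    change p.ord z = 0 at h1
    omega
  have hv : p.Over (IsScalarTower.toAlgHom k k⟮z⟯ F) v e := hv
  exact exists_bound (s := p.ord (θ z)) hv fun a ha => (mem_pres_of_adjoin (M := k)
    (fun c => ⟨ge_const c, by simp⟩) ⟨hp.mono (by omega), ge_ord _⟩ a.2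
    ((hv.ge_zero_iff a).2 ha)).2

/-- The logarithmic derivation maps the valuation ring to the maximal ideal. -/
theorem ge_one_log (h : IsCoord k x) (p : Place k F) {δ : Derivation k F F} (hδ : δ x = 1)
    {g : F} (hg : p.Ge 0 g) : p.Ge 1 (p.loc x * δ g) := by
  have hl : p.loc x ≠ 0 := loc_ne_zero h.trans
  obtain ⟨s, hs⟩ := exists_bound_curve h p (p.loc x • δ)
  have ht0 := p.unif_ne_zero
  set t := p.unif with ht
  set e := p.ord (p.loc x) with he
  have he0 : e ≠ 0 := h.ord_loc_ne_zero p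
  set ε := p.loc x * t ^ (-e) with hε
  have hε0 : ε ≠ 0 := mul_ne_zero hl (zpow_ne_zero _ ht0)
  have hε1 : p.ord ε = 0 := by
    rw [hε, p.ord_mul hl (zpow_ne_zero _ ht0), ord_zpow, ht, ord_unif]; ring
  have hδl : δ (p.loc x) = 1 := by rw [loc, map_sub, Derivation.map_algebraMap, sub_zero, hδ]
  have h1 : p.loc x * δ t = (e : k)⁻¹ • (t * (1 - ε⁻¹ * (p.loc x * δ ε))) := by
    have h1 : δ ε = t ^ (-e) - e * (ε * t⁻¹ * δ t) := by
      rw [hε, Derivation.leibniz, hδl, Derivation.leibniz_zpow, smul_eq_mul, smul_eq_mul,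
        smul_eq_mul, zsmul_eq_mul, zpow_sub_one₀ ht0]
      push_cast
      ring
    have h2 : (e : F) ≠ 0 := by
      have : CharZero F := charZero_of_injective_algebraMap (algebraMap k F).injective
      exact_mod_cast he0
    rw [h1, mul_sub (p.loc x), ← hε, Algebra.smul_def, map_inv₀, map_intCast]
    field_simp
    ring
  have key : ∀ N : ℕ, (∀ f, p.Ge 0 f → p.Ge (-N) (p.loc x * δ f)) →
      ∀ f, p.Ge 0 f → p.Ge (1 - N) (p.loc x * δ f) := fun N hN f hf => by
    have h2 : p.Ge (1 - N) (p.loc x * δ t) := by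
      rw [h1]
      refine Ge.smul ((ge_ord t).mul' (n := -N) ((ge_one.mono (by omega)).sub
        ((ge_ord ε⁻¹).mul' (hN ε (ge_of_le hε1.ge)) (by simp [hε1]))) (by simp [ht, sub_eq_add_neg])) _
    have h3 : p.Ge 0 ((f - algebraMap k F (p.cen f)) / t) := by
      rw [div_eq_mul_inv]
      exact Ge.mul' (h.at_cen hf) (ge_ord _) (by simp [ht])
    set f' := (f - algebraMap k F (p.cen f)) / t with hf'
    have h4 : f = algebraMap k F (p.cen f) + t * f' := by rw [hf']; field_simp; ring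
    have h5 : p.loc x * δ f = t * (p.loc x * δ f') + f' * (p.loc x * δ t) := by
      conv_lhs => rw [h4]
      rw [map_add, Derivation.map_algebraMap, zero_add, Derivation.leibniz, smul_eq_mul,
        smul_eq_mul]
      ring
    rw [h5]
    exact ((ge_ord t).mul' (hN f' h3) (by simp [ht, sub_eq_add_neg])).add (h3.mul' h2 (by simp))
  have key2 : ∀ N : ℕ, (∀ f, p.Ge 0 f → p.Ge (-N) (p.loc x * δ f)) →
      ∀ f, p.Ge 0 f → p.Ge 1 (p.loc x * δ f) := fun N => by
    induction N with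
    | zero => exact fun hN f hf => by simpa using key 0 hN f hf
    | succ N ih => exact fun hN => ih fun f hf => (key _ hN f hf).mono (by push_cast; omega)
  exact key2 s.natAbs (fun f hf => (hs f hf).mono (by omega)) g hg

theorem exists_primitive (h : IsCoord k x) : ∃ (ϑ : F) (g : k⟮x⟯[X]), g.Monic ∧ aeval ϑ g = 0 ∧
    aeval ϑ (derivative g) ≠ 0 ∧ Algebra.adjoin k⟮x⟯ {ϑ} = ⊤ := by
  have := h.fin
  have : CharZero k⟮x⟯ := charZero_of_injective_algebraMap (algebraMap k _).injective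
  obtain ⟨ϑ, hϑ⟩ := Field.exists_primitive_element k⟮x⟯ F
  have h1 : IsIntegral k⟮x⟯ ϑ := Algebra.IsIntegral.isIntegral ϑ
  refine ⟨ϑ, minpoly _ ϑ, minpoly.monic h1, minpoly.aeval _ _,
    (Algebra.IsSeparable.isSeparable k⟮x⟯ ϑ).aeval_derivative_ne_zero (minpoly.aeval _ _), ?_⟩
  rw [← adjoin_simple_toSubalgebra_of_isAlgebraic h1.isAlgebraic, hϑ, top_toSubalgebra]

theorem finite_bad (h : IsCoord k x) {δ : Derivation k F F} (hδ : δ x = 1) :
    {p : Place k F | ¬ ∀ f, p.Ge 0 f → p.Ge 0 (δ f)}.Finite := by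
  obtain ⟨ϑ, g, h1, h2, h3, h4⟩ := exists_primitive h
  have := h.fin
  have : CharZero k⟮x⟯ := charZero_of_injective_algebraMap (algebraMap k _).injective
  let T : Set F := {x, ϑ, δ ϑ, aeval ϑ (derivative g), (aeval ϑ (derivative g))⁻¹} ∪
    (fun i => (g.coeff i : F)) '' g.support
  have hT : T.Finite := (Set.toFinite _).union ((Finset.finite_toSet _).image _)
  refine (hT.biUnion fun y _ => h.finite_poles y).subset fun p hp => by_contra fun h5 => hp ?_
  have h6 : ∀ y ∈ T, 0 ≤ p.ord y := fun y hy =>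
    not_lt.1 fun h6 => h5 (Set.mem_biUnion hy h6)
  rcases p.restrict (IsScalarTower.toAlgHom k k⟮x⟯ F) with h0 | ⟨v, e, hv⟩
  · refine absurd (h0 (AdjoinSimple.gen k x - algebraMap k _ (p.cen x))) ?_
    rw [map_sub, AlgHom.commutes]
    exact h.ord_loc_ne_zero p
  have hv : p.Over (IsScalarTower.toAlgHom k k⟮x⟯ F) v e := hv
  refine fun f hf => (mem_pres_of_unram' hv (fun a ha => (mem_pres_of_adjoin (M := k)
    (fun c => ⟨ge_const c, by simp⟩) ⟨ge_of_le (h6 x (by simp [T])), hδ ▸ ge_one⟩ a.2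
    ((hv.ge_zero_iff a).2 ha)).2) ⟨ge_of_le (h6 ϑ (by simp [T])), ge_of_le (h6 _ (by simp [T]))⟩
    h4 g h1 (fun i => ?_) h2 h3 ?_ hf).2
  · by_cases hi : i ∈ g.support
    · exact ge_of_le (h6 _ (Or.inr ⟨i, hi, rfl⟩))
    · simp [notMem_support_iff.1 hi]
  · have h7 := h6 (aeval ϑ (derivative g)) (by simp [T])
    have h8 := h6 (aeval ϑ (derivative g))⁻¹ (by simp [T])
    rw [ord_inv] at h8
    omega

end curve

end Pool.Agent.Lib.MP_9a2ae6_ag
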