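import Pool.Agent.Lib.MP_9a2ae6_ag.Lines

set_option autoImplicit false

namespace Pool.Agent.Lib.MP_9a2ae6_ag

open MvPolynomial

variable {n k : ℕ}

theorem Eff.mono {P : Fin k → Ideal (S n)} {δ : ℝ} {μ ν : Fin k → ℝ} (h : Eff P δ μ)
    (hν : ∀ i, ν i ≤ μ i) : Eff P δ ν := by
  obtain ⟨s, F, e, b, r, h1, h2, h3⟩ := h
  exact ⟨s, F, e, b, r, h1, h2, fun i => (hν i).trans (h3 i)⟩

theorem Eff.smul {P : Fin k → Ideal (S n)} {δ : ℝ} {μ : Fin k → ℝ} (h : Eff P δ μ) {t : ℝ}
    (ht : 0 ≤ t) : Eff P (t * δ) (fun i => t * μ i) := by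
  obtain ⟨s, F, e, b, r, h1, h2, h3⟩ := h
  refine ⟨s, F, e, fun j => t * b j, r,
    fun j => ⟨(h1 j).1, (h1 j).2.1, mul_nonneg ht (h1 j).2.2.1, (h1 j).2.2.2⟩, ?_, fun i => ?_⟩
  · rw [h2, Finset.mul_sum]
    exact Finset.sum_congr rfl fun j _ => by ring
  · calc t * μ i ≤ t * ∑ j, b j * r j i := mul_le_mul_of_nonneg_left (h3 i) ht
      _ = _ := by
        rw [Finset.mul_sum]
        exact Finset.sum_congr rfl fun j _ => by ring

theorem Eff.add_linear {P : Fin k → Ideal (S n)} (hpr : ∀ i, (P i).IsPrime) {δ : ℝ}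
    {μ : Fin k → ℝ} (h : Eff P δ μ) {L : S n} (hL0 : L ≠ 0) (hL1 : L.IsHomogeneous 1)
    (i0 : Fin k) (hL : L ∈ P i0) {t : ℝ} (ht : 0 ≤ t) :
    Eff P (δ + t) (fun i => μ i + if i = i0 then t else 0) := by
  obtain ⟨s, F, e, b, r, h1, h2, h3⟩ := h
  refine ⟨s + 1, Fin.cons L F, Fin.cons 1 e, Fin.cons t b,
    Fin.cons (fun i => if i = i0 then 1 else 0) r, fun j => ?_, ?_, fun i => ?_⟩
  · refine Fin.cases ?_ (fun j => ?_) j
    · refine ⟨hL0, hL1, ht, fun i => ⟨1, (Ideal.ne_top_iff_one _).1 (hpr i).ne_top, ?_⟩⟩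
      by_cases hi : i = i0
      · simp [hi, hL]
      · simp [hi]
    · simpa using h1 j
  · rw [Fin.sum_univ_succ, h2]
    simp [add_comm]
  · rw [Fin.sum_univ_succ]
    have := h3 i
    by_cases hi : i = i0
    · subst hi
      simp only [if_true, Fin.cons_zero, Fin.cons_succ, Nat.cast_one, mul_one]
      linarith
    · simp only [hi, if_false, Fin.cons_zero, Fin.cons_succ, Nat.cast_zero, mul_zero]
      linarith

theorem exists_linear_form {P : Ideal (S n)} (hpr : P.IsPrime) (hne : P ≠ ⊥)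
    (hlin : IsLinearCentre P) : ∃ L : S n, L ≠ 0 ∧ L.IsHomogeneous 1 ∧ L ∈ P := by
  classical
  obtain ⟨W, hW⟩ := hlin
  obtain ⟨q, _, hq⟩ := exists_not_mem_all (fun _ : Fin 1 => P) (fun _ => hne)
  have hq' : q ∉ W := by
    have := hq 0
    rw [hW] at this
    exact this
  obtain ⟨φ, hφq, hφW⟩ := Submodule.exists_le_ker_of_notMem hq'
  set L : S n := ∑ l, C (φ (Pi.single l 1)) * X l with hLdef
  have hev : ∀ x, eval x L = φ x := by
    intro x
    rw [hLdef, map_sum]
    conv_rhs => rw [pi_eq_sum_univ' x, map_sum]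
    refine Finset.sum_congr rfl fun l _ => ?_
    rw [map_mul, eval_C, eval_X, map_smul, smul_eq_mul, mul_comm]
  refine ⟨L, fun h0 => hφq ?_, ?_, ?_⟩
  · rw [← hev, h0, map_zero]
  · refine IsHomogeneous.sum _ _ _ fun l _ => ?_
    simpa using (isHomogeneous_C _ (φ (Pi.single l 1))).mul (isHomogeneous_X ℂ l)
  · have h1 : L ∈ vanishingIdeal ℂ (zeroLocus ℂ P) := by
      intro x hx
      rw [hW] at hx
      have := hφW hx
      rw [LinearMap.mem_ker] at this
      rw [← this, ← hev]
      rfl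
    rw [vanishingIdeal_zeroLocus_eq_radical, hpr.radical] at h1
    exact h1

section
variable {P : Fin k → Ideal (S n)} {c : Fin k → ℕ} {d : ℝ} {m : Fin k → ℝ}

theorem line_bound (hP : ∀ i, IsSmoothCentre (P i) (c i)) (hnef : NefOnRatCurves P d m)
    {p q : Fin (n + 1) → ℂ} (hp : p ≠ 0) (h : ∀ t : ℂ, q ≠ t • p)
    (hnot : ∀ i, ∃ a : ℂ, (1 - a) • p + a • q ∉ zeroLocus ℂ (P i))
    (A : Fin k → Finset ℂ) (hA : ∀ i, ∀ a ∈ A i, (1 - a) • p + a • q ∈ zeroLocus ℂ (P i)) :
    ∑ i, m i * (A i).card ≤ d := by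
  have h1 : ∀ i, ∃ f ∈ P i, aeval (line p q) f ≠ 0 := fun i => by
    obtain ⟨a, ha⟩ := hnot i
    exact not_sub_of_point a (by rwa [line_eval])
  have h2 := hnef.2 _ _ (line_isRatCurve hp h) h1
  rw [Nat.cast_one, mul_one] at h2
  refine le_trans (Finset.sum_le_sum fun i _ => ?_) h2
  refine mul_le_mul_of_nonneg_left ?_ (hnef.1 i)
  exact_mod_cast card_le_excDeg (hP i).homog (h1 i) 1 (A i)
    (fun a ha => by rw [line_eval]; exact hA i a ha)

theorem d_nonneg (hn : 1 ≤ n) (hP : ∀ i, IsSmoothCentre (P i) (c i)) (hc : ∀ i, 0 < c i)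
    (hnef : NefOnRatCurves P d m) : 0 ≤ d := by
  classical
  obtain ⟨q, hq0, hq⟩ := exists_not_mem_all P fun i => ne_bot_of_centre (hP i) (hc i)
  have hl : (Fin.last n) ≠ 0 := by
    intro h
    have := congrArg Fin.val h
    simp at this
    omega
  have := line_bound hP hnef (p := Pi.single (Fin.last n) 1) (q := q)
    (by intro h; simpa using congrFun h (Fin.last n))
    (by
      intro t h
      apply hq0
      rw [h]
      simp [hl.symm])
    (fun i => ⟨1, by simpa using hq i⟩) (fun _ => ∅) (by simp)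
  simpa using this

theorem m_le_d (hP : ∀ i, IsSmoothCentre (P i) (c i)) (hc : ∀ i, 0 < c i)
    (hnef : NefOnRatCurves P d m) (i : Fin k) : m i ≤ d := by
  classical
  obtain ⟨q, _, hq⟩ := exists_not_mem_all P fun i => ne_bot_of_centre (hP i) (hc i)
  obtain ⟨p, hp, hp0⟩ := (hP i).nonempty
  have := line_bound hP hnef (p := p) (q := q) hp0
    (fun t h => hq i (h ▸ smul_mem_zl (hP i).homog hp t))
    (fun j => ⟨1, by simpa using hq j⟩) (fun j => if j = i then {0} else ∅) (by
      intro j a ha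
      by_cases hj : j = i
      · subst hj
        simp only [if_true, Finset.mem_singleton] at ha
        simpa [ha] using hp
      · simp [hj] at ha)
  rw [Finset.sum_eq_single i (fun j _ hj => by simp [hj]) (by simp)] at this
  simpa using this

theorem two_centres (hP : ∀ i, IsSmoothCentre (P i) (c i))
    (hdisj : ∀ i j, i ≠ j → ∀ x ∈ zeroLocus ℂ (P i), x ≠ 0 → x ∉ zeroLocus ℂ (P j))
    (hnef : NefOnRatCurves P d m) {i j : Fin k} (hij : i ≠ j) : m i + m j ≤ d := by
  classical
  obtain ⟨p, hp, hp0⟩ := (hP i).nonempty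
  obtain ⟨q, hq, hq0⟩ := (hP j).nonempty
  have hqi : q ∉ zeroLocus ℂ (P i) := hdisj j i hij.symm q hq hq0
  have := line_bound hP hnef (p := p) (q := q) hp0
    (fun t h => hqi (h ▸ smul_mem_zl (hP i).homog hp t))
    (fun l => by
      by_cases hl : l = i
      · exact ⟨1, by simpa [hl] using hqi⟩
      · exact ⟨0, by simpa using hdisj i l (Ne.symm hl) p hp hp0⟩)
    (fun l => if l = i then {0} else if l = j then {1} else ∅) (by
      intro l a ha
      by_cases hl : l = i
      · subst hl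
        simp only [if_true, Finset.mem_singleton] at ha
        simpa [ha] using hp
      · by_cases hl' : l = j
        · subst hl'
          simp only [hl, if_false, if_true, Finset.mem_singleton] at ha
          simpa [ha] using hq
        · simp [hl, hl'] at ha)
  rw [Finset.sum_eq_add_of_mem i j (Finset.mem_univ _) (Finset.mem_univ _) hij
    (fun l _ hl => by simp [hl.1, hl.2])] at this
  simpa [hij.symm] using this

theorem secant (hP : ∀ i, IsSmoothCentre (P i) (c i))
    (hdisj : ∀ i j, i ≠ j → ∀ x ∈ zeroLocus ℂ (P i), x ≠ 0 → x ∉ zeroLocus ℂ (P j))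
    (hnef : NefOnRatCurves P d m) {i : Fin k} (hi : ¬ IsLinearCentre (P i)) :
    2 * m i ≤ d := by
  classical
  have hex : ∃ p ∈ zeroLocus ℂ (P i), ∃ q ∈ zeroLocus ℂ (P i), p + q ∉ zeroLocus ℂ (P i) := by
    by_contra hcon
    push Not at hcon
    obtain ⟨x, hx, _⟩ := (hP i).nonempty
    exact hi ⟨⟨⟨⟨zeroLocus ℂ (P i), fun ha hb => hcon _ ha _ hb⟩,
      by simpa using smul_mem_zl (hP i).homog hx 0⟩,
      fun t _ hy => smul_mem_zl (hP i).homog hy t⟩, rfl⟩
  obtain ⟨p, hp, q, hq, hpq⟩ := hex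
  have hp0 : p ≠ 0 := fun h => hpq (by simpa [h] using hq)
  have := line_bound hP hnef (p := p) (q := q) hp0
    (fun t h => hpq (by
      have := smul_mem_zl (hP i).homog hp (1 + t)
      rwa [add_smul, one_smul, ← h] at this))
    (fun l => by
      by_cases hl : l = i
      · refine ⟨1 / 2, fun h => hpq ?_⟩
        have := smul_mem_zl (hP l).homog h 2
        rw [smul_add, smul_smul, smul_smul] at this
        norm_num at this
        rw [← hl]
        simpa using this
      · exact ⟨0, by simpa using hdisj i l (Ne.symm hl) p hp hp0⟩)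
    (fun l => if l = i then {0, 1} else ∅) (by
      intro l a ha
      by_cases hl : l = i
      · subst hl
        simp only [if_true, Finset.mem_insert, Finset.mem_singleton] at ha
        rcases ha with ha | ha
        · simpa [ha] using hp
        · simpa [ha] using hq
      · simp [hl] at ha)
  rw [Finset.sum_eq_single i (fun j _ hj => by simp [hj]) (by simp)] at this
  simp only [if_true] at this
  rw [Finset.card_pair (zero_ne_one)] at this
  push_cast at this
  linarith

end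

theorem main (hn : 1 ≤ n) (P : Fin k → Ideal (S n)) (c : Fin k → ℕ)
    (hP : ∀ i, IsSmoothCentre (P i) (c i)) (hc : ∀ i, n + 4 ≤ 2 * c i)
    (hdisj : ∀ i j, i ≠ j → ∀ x ∈ zeroLocus ℂ (P i), x ≠ 0 → x ∉ zeroLocus ℂ (P j))
    (d : ℝ) (m : Fin k → ℝ)
    (hB : Eff P (d + (n + 1)) (fun i => m i + ((c i : ℝ) - 1)))
    (hnef : NefOnRatCurves P d m) :
    (∃ ε : ℝ, 0 < ε ∧ Eff P (d - ε) m) ∨ (d = 0 ∧ ∀ i, m i = 0) ∨
      ∃ i, IsLinearCentre (P i) ∧ m i = d ∧ ∀ j, j ≠ i → m j = 0 := by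
  classical
  have hc0 : ∀ i, 0 < c i := fun i => by have := hc i; omega
  have hγ : ∀ i, ((n : ℝ) + 2) / 2 ≤ (c i : ℝ) - 1 := fun i => by
    have : ((n + 4 : ℕ) : ℝ) ≤ ((2 * c i : ℕ) : ℝ) := by exact_mod_cast hc i
    push_cast at this
    linarith
  have hd0 := d_nonneg hn hP hc0 hnef
  have hm := hnef.1
  have hn0 : (0 : ℝ) ≤ n := Nat.cast_nonneg n
  rcases hd0.eq_or_lt with hd | hd
  · refine Or.inr (Or.inl ⟨hd.symm, fun i => le_antisymm ?_ (hm i)⟩)
    rw [hd]
    exact m_le_d hP hc0 hnef i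
  -- conclusion from a relation (1 + lam) N = H + effective
  have fin : ∀ lam : ℝ, 0 ≤ lam → Eff P ((1 + lam) * d - 1) (fun i => (1 + lam) * m i) →
      ∃ ε : ℝ, 0 < ε ∧ Eff P (d - ε) m := by
    intro lam hl h
    have h1 : (0 : ℝ) < 1 + lam := by linarith
    refine ⟨(1 + lam)⁻¹, inv_pos.2 h1, ?_⟩
    have h2 := h.smul (inv_pos.2 h1).le
    have e1 : (1 + lam)⁻¹ * ((1 + lam) * d - 1) = d - (1 + lam)⁻¹ := by field_simp
    rw [e1] at h2
    exact h2.mono fun i => le_of_eq (by field_simp)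
  by_cases hA : ∀ i, 2 * m i ≤ d
  · refine Or.inl (fin ((n + 2) / d) (by positivity) ?_)
    have e1 : (1 + (n + 2) / d) * d - 1 = d + (n + 1) := by field_simp; ring
    rw [e1]
    refine hB.mono fun i => ?_
    have h1 : (n + 2) / d * m i ≤ (n + 2) / 2 := by
      rw [div_mul_eq_mul_div, div_le_div_iff₀ hd (by norm_num)]
      nlinarith [hA i]
    have := hγ i
    nlinarith
  · push Not at hA
    obtain ⟨i, hi⟩ := hA
    have hlin : IsLinearCentre (P i) := by
      by_contra h
      linarith [secant hP hdisj hnef h]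
    have hj : ∀ j, j ≠ i → m j ≤ d - m i := fun j hji => by
      linarith [two_centres hP hdisj hnef hji]
    rcases (m_le_d hP hc0 hnef i).eq_or_lt with he | hlt
    · exact Or.inr (Or.inr ⟨i, hlin, he, fun j hji =>
        le_antisymm (by linarith [hj j hji]) (hm j)⟩)
    · obtain ⟨L, hL0, hL1, hL⟩ :=
        exists_linear_form (hP i).prime (ne_bot_of_centre (hP i) (hc0 i)) hlin
      have hpos : 0 < d - m i := by linarith
      set lam : ℝ := (n + 2) / 2 / (d - m i) with hlam
      have hl0 : 0 ≤ lam := by positivity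
      have hl1 : lam * (d - m i) = (n + 2) / 2 := by rw [hlam]; field_simp
      have ht : 0 ≤ lam * m i - (n + 2) / 2 := by nlinarith
      have h1 := hB.add_linear (fun i => (hP i).prime) hL0 hL1 i hL ht
      refine Or.inl (fin lam hl0 ?_)
      have e1 : (1 + lam) * d - 1 = d + (n + 1) + (lam * m i - (n + 2) / 2) := by linarith
      rw [e1]
      refine h1.mono fun j => ?_
      by_cases hji : j = i
      · subst hji
        simp only [if_true]
        linarith [hγ j]
      · simp only [hji, if_false]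
        have := mul_le_mul_of_nonneg_left (hj j hji) hl0
        linarith [hγ j]

end Pool.Agent.Lib.MP_9a2ae6_ag
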