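import Pool.Agent.Lib.MP_9a2ae6_ag.Pos

/-! Dimension bounds for functions with bounded poles on a finite cover of a product of lines. -/

set_option linter.unusedSectionVars false

open IntermediateField Module MvPolynomial

namespace Pool.Agent.Lib.MP_9a2ae6_ag

open Pool.Agent.Lib.MP_e06174_ag Place

theorem exists_place {k R B : Type*} [Field k] [CommRing R] [IsDomain R] [Field B] [Algebra k R]
    [Algebra k B] [Algebra R B] [IsScalarTower k R B] [IsFractionRing R B] (μ : R → ℤ)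
    (hmul : ∀ a b, a ≠ 0 → b ≠ 0 → μ (a * b) = μ a + μ b)
    (hadd : ∀ a b, a ≠ 0 → b ≠ 0 → a + b ≠ 0 → min (μ a) (μ b) ≤ μ (a + b))
    (hc : ∀ c : k, c ≠ 0 → μ (algebraMap k R c) = 0)
    (hs : ∃ a b, a ≠ 0 ∧ b ≠ 0 ∧ μ a = μ b + 1) :
    ∃ v : Place k B, ∀ a, a ≠ 0 → v.ord (algebraMap R B a) = μ a := by
  have hinj := IsFractionRing.injective R B
  have hne : ∀ {a : R}, a ≠ 0 → algebraMap R B a ≠ 0 := fun ha =>
    (map_ne_zero_iff _ hinj).2 ha
  choose nu de hde hnd using fun z : B => IsFractionRing.div_surjective (A := R) z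
  replace hde : ∀ z, de z ≠ 0 := fun z => nonZeroDivisors.ne_zero (hde z)
  have hnu : ∀ z, z ≠ 0 → nu z ≠ 0 := fun z hz h => hz (by rw [← hnd z, h]; simp)
  have key : ∀ a b : R, a ≠ 0 → b ≠ 0 → ∀ z, z = algebraMap R B a / algebraMap R B b →
      μ (nu z) - μ (de z) = μ a - μ b := fun a b ha hb z hz => by
    have h0 : z ≠ 0 := hz ▸ div_ne_zero (hne ha) (hne hb)
    have h1 := (hnd z).trans hz
    rw [div_eq_div_iff (hne (hde z)) (hne hb), ← map_mul, ← map_mul] at h1
    have h2 := congrArg μ (hinj h1)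
    rw [hmul _ _ (hnu z h0) hb, hmul _ _ ha (hde z)] at h2
    omega
  have h1 : μ 1 = 0 := by simpa using hc 1 one_ne_zero
  refine ⟨ofOrd (fun z => μ (nu z) - μ (de z)) (fun x y hx hy => ?_) (fun x y hx hy hxy => ?_)
    (fun c hc0 => ?_) ?_, fun a ha => ?_⟩
  · rw [key _ _ (mul_ne_zero (hnu x hx) (hnu y hy)) (mul_ne_zero (hde x) (hde y)) (x * y)
      (by rw [map_mul, map_mul, ← div_mul_div_comm, hnd, hnd]),
      hmul _ _ (hnu x hx) (hnu y hy), hmul _ _ (hde x) (hde y)]
    ring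
  · have h2 : x + y = algebraMap R B (nu x * de y + de x * nu y) / algebraMap R B (de x * de y) := by
      rw [map_add, map_mul, map_mul, map_mul, ← div_add_div _ _ (hne (hde x)) (hne (hde y)), hnd,
        hnd]
    have h3 : nu x * de y + de x * nu y ≠ 0 := fun h => hxy (by rw [h2, h]; simp)
    have h4 := hadd _ _ (mul_ne_zero (hnu x hx) (hde y)) (mul_ne_zero (hde x) (hnu y hy)) h3
    rw [hmul _ _ (hnu x hx) (hde y), hmul _ _ (hde x) (hnu y hy)] at h4
    rw [key _ _ h3 (mul_ne_zero (hde x) (hde y)) _ h2, hmul _ _ (hde x) (hde y)]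
    omega
  · have h2 : algebraMap k R c ≠ 0 := fun h => hc0 ((algebraMap k B).injective (by
      rw [IsScalarTower.algebraMap_apply k R B, h, map_zero, map_zero]))
    rw [key _ 1 h2 one_ne_zero _ (by rw [map_one, div_one, ← IsScalarTower.algebraMap_apply]),
      hc c hc0, h1, sub_zero]
  · obtain ⟨a, b, ha, hb, hab⟩ := hs
    exact ⟨_, div_ne_zero (hne ha) (hne hb), by rw [key a b ha hb _ rfl]; omega⟩
  · rw [ofOrd_ord _ _ _ _ _ (hne ha), key a 1 ha one_ne_zero _ (by simp), h1, sub_zero]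

variable {n : ℕ} {K : Type} [Field K] [Algebra ℂ K]

/-- The place is trivial on the polynomials that do not involve the variable `i`. -/
def TrP (Y : Fin n → K) (i : Fin n) (w : Place ℂ K) : Prop :=
  ∀ a : MvPolynomial (Fin n) ℂ, a ≠ 0 → a.degreeOf i = 0 → w.ord (aeval Y a) = 0

/-- The poles of `z` are bounded by `N i` times those of `Y i`. -/
def Bnd (Y : Fin n → K) (N : Fin n → ℤ) (z : K) : Prop :=
  ∀ i w, TrP Y i w → w.Ge (N i * min 0 (w.ord (Y i))) z

variable {Y : Fin n → K} {N N' : Fin n → ℤ} {z z' : K}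

theorem Bnd.mul (h : Bnd Y N z) (h' : Bnd Y N' z') : Bnd Y (N + N') (z * z') := fun i w hw =>
  (h i w hw).mul' (h' i w hw) (by rw [Pi.add_apply, add_mul])

theorem Bnd.mono (h : Bnd Y N z) (hN : ∀ i, N i ≤ N' i) : Bnd Y N' z := fun i w hw =>
  (h i w hw).mono (mul_le_mul_of_nonpos_right (hN i) (min_le_left _ _))

theorem bnd_aeval (a : MvPolynomial (Fin n) ℂ) :
    Bnd Y (fun i => a.degreeOf i) (aeval Y a) := fun i w hw => by
  classical
  rw [aeval_def, eval₂_eq']
  refine Ge.sum fun s hs => (ge_const _).mul' (Ge.prod (n := fun j =>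
    if j = i then s i * min 0 (w.ord (Y i)) else 0) fun j _ => ?_) ?_
  · split_ifs with hj
    · subst hj
      exact ((ge_ord _).mono (min_le_right _ _)).pow _
    · have := hw (X j) (X_ne_zero j) (degreeOf_X_of_ne fun h => hj h.symm)
      rw [aeval_X] at this
      simpa using (ge_of_le this.ge).pow (s j)
  · rw [Finset.sum_ite_eq', if_pos (Finset.mem_univ _), zero_add]
    exact mul_le_mul_of_nonpos_right (Int.ofNat_le.2 (monomial_le_degreeOf i hs))
      (min_le_left _ _)

theorem ge_of_monic {k K : Type*} [Field k] [Field K] [Algebra k K] {w : Place k K} {s : ℤ}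
    (hs : s ≤ 0) {z : K} {r : ℕ} {a : ℕ → K} (ha : ∀ l, w.Ge s (a l))
    (h : ∑ l ∈ Finset.range r, a l * z ^ l + z ^ r = 0) : w.Ge s z := by
  by_contra h1
  rw [not_ge_iff] at h1
  have h2 : w.Ge (w.ord (z ^ r) + 1) (∑ l ∈ Finset.range r, a l * z ^ l) := by
    refine Ge.sum fun l hl => (ha _).mul' (ge_ord _) ?_
    have : (l : ℤ) + 1 ≤ r := by have := Finset.mem_range.1 hl; omega
    simp only [ord_pow]
    nlinarith [h1.2]
  exact (ord_add_of_ge (pow_ne_zero _ h1.1) h2).1 (add_comm (z ^ r) _ ▸ h)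

section setting

variable {B : Type} [Field B] [Algebra ℂ B] [Algebra (MvPolynomial (Fin n) ℂ) B]
  [IsScalarTower ℂ (MvPolynomial (Fin n) ℂ) B] [IsFractionRing (MvPolynomial (Fin n) ℂ) B]
  [Algebra B K] [IsScalarTower ℂ B K] [FiniteDimensional B K]
  (hY : ∀ a, algebraMap B K (algebraMap (MvPolynomial (Fin n) ℂ) B a) = aeval Y a)
include hY

theorem exists_bnd_aux (z : K) : ∃ (D : MvPolynomial (Fin n) ℂ) (c : ℕ), D ≠ 0 ∧
    Bnd Y (fun _ => c) (aeval Y D * z) := by
  let : Algebra (MvPolynomial (Fin n) ℂ) K := (aeval Y).toRingHom.toAlgebra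
  have : IsScalarTower (MvPolynomial (Fin n) ℂ) B K := .of_algebraMap_eq fun a => (hY a).symm
  have h1 : IsAlgebraic (MvPolynomial (Fin n) ℂ) z :=
    (IsFractionRing.isAlgebraic_iff _ B K).2 (Algebra.IsAlgebraic.isAlgebraic z)
  obtain ⟨D, hD, P, hP, hP'⟩ := h1.exists_integral_multiple
  rw [Polynomial.eval₂_eq_sum_range, Finset.sum_range_succ, hP.coeff_natDegree, map_one,
    one_mul, Algebra.smul_def] at hP'
  refine ⟨D, ∑ l ∈ P.support, (P.coeff l).totalDegree, hD, fun i w hw => ge_of_monic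
    (mul_nonpos_of_nonneg_of_nonpos (by positivity) (min_le_left _ _)) (fun l => ?_) hP'⟩
  by_cases hl : l ∈ P.support
  · exact (bnd_aeval (P.coeff l)).mono
      (N' := fun _ => (∑ l ∈ P.support, (P.coeff l).totalDegree : ℕ))
      (fun j => Int.ofNat_le.2 ((degreeOf_le_totalDegree _ j).trans (Finset.single_le_sum
        (f := fun l => (P.coeff l).totalDegree) (fun _ _ => Nat.zero_le _) hl))) i w hw
  · simp [Polynomial.notMem_support_iff.1 hl]

theorem ge_trace (v : Place ℂ B) (s : ℤ) {z : K} (h : ∀ (w : Place ℂ K) (e : ℕ),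
    w.Over (IsScalarTower.toAlgHom ℂ B K) v e → w.Ge (e * s) z) :
    v.Ge s (Algebra.trace B K z) := by
  have : CharZero B := charZero_of_injective_algebraMap (algebraMap ℂ B).injective
  obtain ⟨u, hu0, hu⟩ := v.exists_ord_eq (-s)
  have h1 : IsIntegral v.O (algebraMap B K u * z) := isIntegral_of_forall_over fun w e hw =>
    ((hw.ge_iff _ u).2 (ge_of_le hu.ge)).mul' (h w e hw) (by simp)
  obtain ⟨c, hc⟩ := IsIntegrallyClosed.isIntegral_iff.1 (Algebra.isIntegral_trace (L := B) h1)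
  rw [← Algebra.smul_def, map_smul, smul_eq_mul] at hc
  have h2 := (ge_ord u⁻¹).mul' (mem_O.1 c.2) (l := s) (by simp [hu])
  change v.Ge s (u⁻¹ * algebraMap v.O B c) at h2
  rwa [hc, inv_mul_cancel_left₀ hu0] at h2

theorem trace_mem (h : Bnd Y N z) : ∃ a : MvPolynomial (Fin n) ℂ,
    algebraMap _ B a = Algebra.trace B K z ∧ (a ≠ 0 → ∀ i, (a.degreeOf i : ℤ) ≤ N i) := by
  have hover : ∀ {v : Place ℂ B} {w : Place ℂ K} {e : ℕ},
      w.Over (IsScalarTower.toAlgHom ℂ B K) v e → ∀ a : MvPolynomial (Fin n) ℂ,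
      w.ord (aeval Y a) = e * v.ord (algebraMap _ B a) := fun hw a => by
    rw [← hY]; exact hw.2 _
  have hne : ∀ {a : MvPolynomial (Fin n) ℂ}, a ≠ 0 → algebraMap _ B a ≠ 0 := fun ha =>
    (map_ne_zero_iff _ (IsFractionRing.injective _ B)).2 ha
  set r := Algebra.trace B K z with hr
  have h1 : IsUnit (IsFractionRing.den (MvPolynomial (Fin n) ℂ) r : MvPolynomial (Fin n) ℂ) := by
    by_contra h1
    have hd := nonZeroDivisors.coe_ne_zero (IsFractionRing.den (MvPolynomial (Fin n) ℂ) r)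
    obtain ⟨π, hπ, hπd⟩ := WfDvdMonoid.exists_irreducible_factor h1 hd
    have hπn : ¬ π ∣ IsFractionRing.num (MvPolynomial (Fin n) ℂ) r := fun h2 =>
      hπ.not_isUnit (IsFractionRing.num_den_reduced _ r h2 hπd)
    have hp := hπ.prime
    obtain ⟨v, hv⟩ := exists_place (k := ℂ) (B := B) (fun a => (multiplicity π a : ℤ))
      (fun a b ha hb => by
        rw [multiplicity_mul hp (.of_prime_left hp (mul_ne_zero ha hb))]; push_cast; rfl)
      (fun a b ha hb hab => by
        have := (FiniteMultiplicity.of_prime_left hp hab).le_multiplicity_of_pow_dvd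
          (dvd_add ((pow_dvd_pow π (min_le_left _ (multiplicity π b))).trans
            (pow_multiplicity_dvd π a)) ((pow_dvd_pow π (min_le_right (multiplicity π a) _)).trans
            (pow_multiplicity_dvd π b)))
        omega)
      (fun c hc => by
        rw [multiplicity_eq_zero.2 fun h2 => hπ.not_isUnit
          (isUnit_of_dvd_unit h2 ((IsUnit.mk0 c hc).map _))]; rfl)
      ⟨π, 1, hπ.ne_zero, one_ne_zero, by
        rw [multiplicity_self, multiplicity_eq_zero.2 fun h2 => hπ.not_isUnit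
          (isUnit_of_dvd_one h2)]; rfl⟩
    obtain ⟨i, hi⟩ : ∃ i, π.degreeOf i ≠ 0 := by
      by_contra h2
      push Not at h2
      have h3 : π.totalDegree = 0 := by
        rw [totalDegree_eq_zero_iff]
        exact fun s hs i => Nat.le_zero.1 ((monomial_le_degreeOf i hs).trans_eq (h2 i))
      rw [totalDegree_eq_zero_iff_eq_C] at h3
      refine hπ.not_isUnit (h3 ▸ (IsUnit.mk0 _ fun h4 => hπ.ne_zero ?_).map C)
      rw [h3, h4, map_zero]
    have h2 := ge_trace hY v 0 (z := z) fun w e hw => by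
      have h2 := h i w fun a ha ha' => by
        rw [hover hw, hv a ha, multiplicity_eq_zero.2, Nat.cast_zero, mul_zero]
        rintro ⟨b, rfl⟩
        rw [degreeOf_mul_eq (left_ne_zero_of_mul ha) (right_ne_zero_of_mul ha)] at ha'
        omega
      have h3 := hover hw (X i)
      rw [aeval_X, hv _ (X_ne_zero i)] at h3
      rwa [min_eq_left (by rw [h3]; positivity), mul_zero, ← mul_zero (e : ℤ)] at h2
    have hn : IsFractionRing.num (MvPolynomial (Fin n) ℂ) r ≠ 0 := fun h3 => hπn (h3 ▸ dvd_zero _)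
    rw [← hr, ← IsFractionRing.mk'_num_den' (MvPolynomial (Fin n) ℂ) r] at h2
    have h3 := h2.le (div_ne_zero (hne hn) (hne hd))
    rw [v.ord_div (hne hn) (hne hd), hv _ hn, hv _ hd, multiplicity_eq_zero.2 hπn] at h3
    have := multiplicity_pos_of_dvd hπd
    omega
  obtain ⟨a, ha⟩ := IsFractionRing.isInteger_of_isUnit_den h1
  refine ⟨a, ha, fun ha0 i => ?_⟩
  obtain ⟨v, hv⟩ := exists_place (k := ℂ) (B := B)
    (fun a : MvPolynomial (Fin n) ℂ => -(a.degreeOf i : ℤ))
    (fun a b ha hb => by rw [degreeOf_mul_eq ha hb]; push_cast; ring)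
    (fun a b _ _ _ => by have := degreeOf_add_le i a b; omega)
    (fun c _ => by rw [algebraMap_eq, degreeOf_C]; rfl)
    ⟨1, X i, one_ne_zero, X_ne_zero i, by simp⟩
  have h2 := ge_trace hY v (-N i) (z := z) fun w e hw => by
    have h2 := h i w fun a ha ha' => by rw [hover hw, hv a ha, ha']; simp
    have h3 := hover hw (X i)
    rw [aeval_X, hv _ (X_ne_zero i), degreeOf_X_self] at h3
    rw [h3, min_eq_right (by simp)] at h2
    exact h2.mono (le_of_eq (by push_cast; ring))
  rw [← hr, ← ha] at h2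
  have h3 := h2.le (hne ha0)
  rw [hv a ha0] at h3
  omega

theorem rank_le_aux : ∃ d c : ℕ, ∀ (N : Fin n → ℤ) (V : Submodule ℂ K), (∀ z ∈ V, Bnd Y N z) →
    Module.rank ℂ V ≤ (d * ∏ i, (N i + c).toNat : ℕ) := by
  classical
  have : CharZero B := charZero_of_injective_algebraMap (algebraMap ℂ B).injective
  let b := Module.finBasis B K
  choose D c hD hc using fun β => exists_bnd_aux hY (b β)
  refine ⟨finrank B K, ∑ β, c β + 1, fun N V hV => ?_⟩
  let mo : (∀ i, Fin (N i + (∑ β, c β + 1 : ℕ)).toNat) → B := fun s =>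
    algebraMap (MvPolynomial (Fin n) ℂ) B
      (monomial (Finsupp.equivFunOnFinite.symm fun i => (s i : ℕ)) 1)
  let T := Submodule.span ℂ (Set.range mo)
  let Λ : Fin (finrank B K) → V →ₗ[ℂ] B := fun β => ((Algebra.trace B K).restrictScalars ℂ).comp
    ((LinearMap.mulLeft ℂ (aeval Y (D β) * b β)).comp V.subtype)
  have h1 : ∀ β z, Λ β z ∈ T := fun β z => by
    obtain ⟨a, ha, ha'⟩ := trace_mem hY ((hc β).mul (hV z z.2))
    have h1 : Λ β z = algebraMap _ B a := ha.symm
    rw [h1, a.as_sum, map_sum]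
    refine sum_mem fun s hs => ?_
    have h2 : ∀ i, s i < (N i + (∑ β, c β + 1 : ℕ)).toNat := fun i => by
      have h2 := ha' (by rintro rfl; simp at hs) i
      have h3 := monomial_le_degreeOf i hs
      have h4 := Finset.single_le_sum (f := c) (fun _ _ => Nat.zero_le _) (Finset.mem_univ β)
      simp only [Pi.add_apply] at h2
      omega
    have h3 : algebraMap _ B (monomial s (a.coeff s)) = a.coeff s • mo fun i => ⟨s i, h2 i⟩ := by
      simp only [mo, Finsupp.equivFunOnFinite_symm_coe]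
      rw [← algebraMap_smul (MvPolynomial (Fin n) ℂ), Algebra.smul_def, ← map_mul, algebraMap_eq,
        C_mul_monomial, mul_one]
    rw [h3]
    exact T.smul_mem _ (Submodule.subset_span ⟨_, rfl⟩)
  have h2 : Function.Injective (LinearMap.pi fun β => (Λ β).codRestrict T (h1 β)) := by
    rw [← LinearMap.ker_eq_bot, LinearMap.ker_eq_bot']
    intro z hz
    refine Subtype.ext ((traceForm_nondegenerate B K).2 z fun y => ?_)
    have h2 : ∀ β, Algebra.trace B K (b β * z) = 0 := fun β => by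
      have h2 : Algebra.trace B K (aeval Y (D β) * b β * z) = 0 :=
        congrArg Subtype.val (congrFun hz β)
      rw [← hY, mul_assoc, ← Algebra.smul_def, map_smul, smul_eq_zero] at h2
      exact h2.resolve_left ((map_ne_zero_iff _ (IsFractionRing.injective _ B)).2 (hD β))
    rw [Algebra.traceForm_apply, ← b.sum_repr y, Finset.sum_mul, map_sum]
    exact Finset.sum_eq_zero fun β _ => by rw [smul_mul_assoc, map_smul, h2, smul_zero]
  refine (LinearMap.rank_le_of_injective _ h2).trans ?_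
  rw [rank_fun_eq_lift_mul, Fintype.card_fin, Cardinal.lift_id, Nat.cast_mul]
  refine mul_le_mul_right ((rank_span_le _).trans (Cardinal.mk_range_le.trans (le_of_eq ?_))) _
  simp

end setting

theorem exists_setting (hY : AlgebraicIndependent ℂ Y) :
    ∃ (_ : Algebra (MvPolynomial (Fin n) ℂ) (adjoin ℂ (Set.range Y)))
      (_ : IsScalarTower ℂ (MvPolynomial (Fin n) ℂ) (adjoin ℂ (Set.range Y)))
      (_ : IsFractionRing (MvPolynomial (Fin n) ℂ) (adjoin ℂ (Set.range Y))),
      ∀ a, algebraMap (adjoin ℂ (Set.range Y)) K (algebraMap (MvPolynomial (Fin n) ℂ) _ a) =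
        aeval Y a := by
  let φ := hY.aevalEquivField.toAlgHom.comp (IsScalarTower.toAlgHom ℂ (MvPolynomial (Fin n) ℂ) _)
  let i1 : Algebra (MvPolynomial (Fin n) ℂ) (adjoin ℂ (Set.range Y)) := φ.toRingHom.toAlgebra
  exact ⟨i1, .of_algebraMap_eq fun c => (φ.commutes c).symm,
    (IsLocalization.isLocalization_iff_of_algEquiv _
      (AlgEquiv.ofRingEquiv (f := hY.aevalEquivField.toRingEquiv) fun _ => rfl)).1 inferInstance,
    fun a => hY.aevalEquivField_algebraMap_apply_coe a⟩

theorem exists_bnd (hY : AlgebraicIndependent ℂ Y) [FiniteDimensional (adjoin ℂ (Set.range Y)) K]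
    (W : Finset K) : ∃ (D : K) (c : ℕ), D ≠ 0 ∧ ∀ z ∈ W, Bnd Y (fun _ => c) (D * z) := by
  classical
  obtain ⟨_, _, _, h⟩ := exists_setting hY
  choose D c hD hc using exists_bnd_aux h
  refine ⟨aeval Y (∏ z ∈ W, D z), ∑ z ∈ W, c z + (∏ z ∈ W, D z).totalDegree,
    (map_ne_zero_iff _ hY).2 (Finset.prod_ne_zero_iff.2 fun z _ => hD z), fun z hz => ?_⟩
  have h1 := ((bnd_aeval (Y := Y) (∏ z ∈ W.erase z, D z)).mul (hc z))
  rw [← mul_assoc, ← map_mul, Finset.prod_erase_mul _ _ hz] at h1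
  refine h1.mono fun i => ?_
  have h2 := Finset.single_le_sum (f := c) (fun _ _ => Nat.zero_le _) hz
  have h3 := degreeOf_le_totalDegree (∏ z ∈ W, D z) i
  rw [← Finset.prod_erase_mul _ _ hz, degreeOf_mul_eq
    (Finset.prod_ne_zero_iff.2 fun z _ => hD z) (hD z), Finset.prod_erase_mul _ _ hz] at h3
  simp only [Pi.add_apply]
  omega

theorem rank_le (hY : AlgebraicIndependent ℂ Y) [FiniteDimensional (adjoin ℂ (Set.range Y)) K] :
    ∃ d c : ℕ, ∀ (N : Fin n → ℤ) (V : Submodule ℂ K), (∀ z ∈ V, Bnd Y N z) →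
      Module.rank ℂ V ≤ (d * ∏ i, (N i + c).toNat : ℕ) := by
  obtain ⟨_, _, _, h⟩ := exists_setting hY
  exact rank_le_aux h

end Pool.Agent.Lib.MP_9a2ae6_ag
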