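import Pool.Agent.Lib.MP_9a2ae6_ag.Good

/-! Pencils of invariant regular pluricanonical forms on a curve of genus at least two. -/

set_option linter.unusedSectionVars false

open Polynomial IntermediateField Module MulAction

namespace Pool.Agent.Lib.MP_9a2ae6_ag

open Pool.Agent.Lib.MP_e06174_ag Place

section curve

variable {k F : Type*} [Field k] [Field F] [Algebra k F] [CharZero k] [IsAlgClosed k] {x : F}

theorem finrank_le_add (h : IsCoord k x) (p : Place k F) (j : ℕ) (V : Submodule k F)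
    [FiniteDimensional k V] (hV : V ≤ p.fil (-j)) :
    finrank k V ≤ finrank k ↥(V ⊓ p.fil 0) + j := by
  induction j generalizing V with
  | zero => rw [inf_eq_left.2 (by simpa using hV)]; omega
  | succ j ih =>
    have h1 := h.finrank_le_succ p _ V hV
    have h2 := ih (V ⊓ p.fil (-(j + 1 : ℕ) + 1)) (inf_le_right.trans_eq (by congr 1; omega))
    have h3 : V ⊓ p.fil (-(j + 1 : ℕ) + 1) ⊓ p.fil 0 ≤ V ⊓ p.fil 0 :=
      inf_le_inf_right _ inf_le_left
    have h4 := Submodule.finrank_mono h3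
    omega

theorem exists_sub (h : IsCoord k x) (T : Finset (Place k F)) (j : Place k F → ℕ)
    (V : Submodule k F) [FiniteDimensional k V] (hV : ∀ p ∈ T, V ≤ p.fil (-j p)) :
    ∃ V' : Submodule k F, V' ≤ V ∧ (∀ p ∈ T, V' ≤ p.fil 0) ∧
      finrank k V ≤ finrank k V' + ∑ p ∈ T, j p := by
  classical
  induction T using Finset.induction_on with
  | empty => exact ⟨V, le_rfl, by simp, by simp⟩
  | insert a T ha ih =>
    obtain ⟨V', h1, h2, h3⟩ := ih fun p hp => hV p (Finset.mem_insert_of_mem hp)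
    have : FiniteDimensional k V' := Submodule.finiteDimensional_of_le h1
    have h4 := finrank_le_add h a (j a) V' (h1.trans (hV a (Finset.mem_insert_self _ _)))
    refine ⟨V' ⊓ a.fil 0, inf_le_left.trans h1, fun p hp => ?_, ?_⟩
    · rcases Finset.mem_insert.1 hp with rfl | hp
      · exact inf_le_right
      · exact inf_le_left.trans (h2 p hp)
    · rw [Finset.sum_insert ha]; omega

theorem transcendental_inv_sub (hx : Transcendental k x) (c : k) :
    Transcendental k (x - algebraMap k F c)⁻¹ := fun h1 =>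
  hx (by simpa using (IsAlgebraic.inv_iff.1 h1).add (isAlgebraic_algebraMap c))

/-- There is a non-constant function with a single pole at a given place. -/
theorem exists_single_pole (h : IsCoord k x) (q : Place k F) :
    ∃ y : F, Transcendental k y ∧ ∀ p : Place k F, p ≠ q → p.Ge 0 y := by
  classical
  obtain ⟨z, hz, hq⟩ : ∃ z : F, IsCoord k z ∧ q.ord z < 0 := by
    rcases h.pole_or_at q with hq | ⟨c, hc⟩
    · exact ⟨x, h, hq⟩
    · exact ⟨_, h.of_transcendental (transcendental_inv_sub h.trans c), by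
        have := hc.ord_pos h.trans
        rw [ord_inv]; omega⟩
  obtain ⟨c, hc⟩ := hz.exists_many
  set d := finrank k⟮z⟯ F with hd
  obtain ⟨w, hw, hw1, hw2⟩ := hc (c * d + 2)
  let V := Submodule.span k (Set.range w)
  have : FiniteDimensional k V := FiniteDimensional.span_of_finite k (Set.finite_range _)
  have h1 : finrank k V = d * (c * d + 2) := by simpa using finrank_span_eq_card hw
  let T := hz.finite_pole.toFinset
  have hT : ∀ p, p ∈ T ↔ p.ord z < 0 := fun p => by simp [T]
  obtain ⟨V', h2, h3, h4⟩ := exists_sub h (T.erase q)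
    (fun p => (c * d + 2 + c) * (p.ord z).natAbs) V fun p hp => by
      have h5 := (hT p).1 (Finset.mem_of_mem_erase hp)
      refine Submodule.span_le.2 ?_
      rintro _ ⟨s, rfl⟩
      refine Ge.mono (hw2 s p h5) (le_of_eq ?_)
      push_cast
      rw [abs_of_neg h5]
      ring
  have h5 := hz.sum_pole_le T fun p hp => (hT p).1 hp
  rw [← Finset.add_sum_erase _ _ ((hT q).2 hq), ← hd] at h5
  rw [← Finset.mul_sum, h1] at h4
  have h6 : 2 ≤ finrank k V' := by
    have h6 : ∑ p ∈ T.erase q, (p.ord z).natAbs + 1 ≤ d := by omega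
    have h7 := Nat.mul_le_mul_left (c * d + 2 + c) h6
    nlinarith
  have : FiniteDimensional k V' := Submodule.finiteDimensional_of_le h2
  have h7 : ¬ V' ≤ k ∙ (1 : F) := fun h7 => by
    have := Submodule.finrank_mono h7
    rw [finrank_span_singleton one_ne_zero] at this
    omega
  obtain ⟨y, hy, hy'⟩ := SetLike.not_le_iff_exists.1 h7
  refine ⟨y, transcendental_of_ne_const fun a ha => hy' (Submodule.mem_span_singleton.2
    ⟨a, by rw [ha, Algebra.algebraMap_eq_smul_one]⟩), fun p hp => ?_⟩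
  by_cases hpT : p ∈ T
  · exact h3 p (Finset.mem_erase.2 ⟨hp, hpT⟩) hy
  · have h8 : V ≤ p.fil 0 := Submodule.span_le.2 (by
      rintro _ ⟨s, rfl⟩
      exact hw1 s p (ge_of_le (not_lt.1 fun h8 => hpT ((hT p).2 h8))))
    exact h8 (h2 hy)

variable (k F) in
/-- The curve carries a regular differential without zeros. -/
def Ell : Prop :=
  ∃ x f : F, IsCoord k x ∧ f ≠ 0 ∧ ∀ p : Place k F, p.ord (f * p.loc x) = 1

end curve

variable {k F G : Type*} [Field k] [Field F] [Algebra k F] [CharZero k] [IsAlgClosed k]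
  [Group G] [Finite G] [MulSemiringAction G F] [SMulCommClass G k F] [FaithfulSMul G F]

/-- The invariant form `Φ (dx)^m` is regular upstairs. -/
def Reg (x Φ : Fix k F G) (m : ℕ) : Prop :=
  ∀ q : Place k (Fix k F G), ∃ a : ℕ, m ≤ q.ram * a ∧ q.Ge a (Φ * q.loc x ^ m)

variable {x Φ Φ' : Fix k F G} {m m' : ℕ}

theorem Reg.mul (h : Reg x Φ m) (h' : Reg x Φ' m') : Reg x (Φ * Φ') (m + m') := fun q => by
  obtain ⟨a, ha, ha'⟩ := h q
  obtain ⟨b, hb, hb'⟩ := h' q
  refine ⟨a + b, by rw [mul_add]; omega, ?_⟩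
  have := ha'.mul hb'
  convert this using 1
  · push_cast; rfl
  · rw [pow_add]; ring

theorem Reg.pow (h : Reg x Φ m) (t : ℕ) : Reg x (Φ ^ t) (t * m) := by
  induction t with
  | zero => exact fun q => ⟨0, by simp, by simpa using ge_one⟩
  | succ t ih => rw [pow_succ, add_mul, one_mul]; exact ih.mul h

theorem reg_of_ord (h : ∀ q : Place k (Fix k F G), (m : ℤ) ≤ q.ram * q.ord (Φ * q.loc x ^ m)) :
    Reg x Φ m := fun q => by
  have h1 := h q
  have h2 : (1 : ℤ) ≤ q.ram := by exact_mod_cast q.one_le_ram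
  have h3 : 0 ≤ q.ord (Φ * q.loc x ^ m) := by
    by_contra h3
    have : (0 : ℤ) ≤ m := by positivity
    nlinarith
  obtain ⟨a, ha⟩ := Int.eq_ofNat_of_zero_le h3
  exact ⟨a, by rw [ha] at h1; exact_mod_cast h1, ge_of_le ha.ge⟩

theorem exists_pos (hx : IsCoord k (x : F)) (hirr : ∀ t : F, k⟮t⟯ ≠ ⊤) (hE : ¬ Ell k F) :
    ∃ (m : ℕ) (Φ y : Fix k F G), Φ ≠ 0 ∧ Transcendental k (y : F) ∧ Reg x Φ m ∧
      Reg x (Φ * y) m := by
  classical
  have := Fintype.ofFinite G
  obtain ⟨f, hf, hf'⟩ := hx.exists_regular hirr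
  obtain ⟨p₀, hp₀⟩ : ∃ p₀ : Place k F, 2 ≤ p₀.ord (f * p₀.loc (x : F)) := by
    by_contra h1
    push Not at h1
    exact hE ⟨x, f, hx, hf, fun p => by have := h1 p; have := hf' p; omega⟩
  obtain ⟨q₀, hq₀⟩ := hx.exists_under p₀
  obtain ⟨y, hy, hy'⟩ := exists_single_pole hx.fix q₀
  have hy0 := ne_zero_of_transcendental hy
  have hN := nrm_ne_zero (k := k) (G := G) hf
  have h1 : ∀ q : Place k (Fix k F G), (Fintype.card G * 1 : ℕ) + (if q = q₀ then 1 else 0) ≤
      q.ram * q.ord (nrm k G f * q.loc x ^ (Fintype.card G * 1)) := fun q => by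
    by_cases hq : q = q₀
    · subst hq
      rw [ord_nrm hx hf 1 hq₀, if_pos rfl, ← Finset.add_sum_erase _ _ (Finset.mem_univ (1 : G))]
      have h2 := Finset.card_nsmul_le_sum (Finset.univ.erase (1 : G))
        (fun g : G => (g • p₀).ord (f * (g • p₀).loc (x : F) ^ 1)) 1 fun g _ => by
          simpa using hf' (g • p₀)
      rw [Finset.card_erase_of_mem (Finset.mem_univ _), Finset.card_univ] at h2
      have h3 : 0 < Fintype.card G := Fintype.card_pos
      simp only [one_smul, pow_one, nsmul_eq_mul, mul_one] at h2 ⊢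
      omega
    · obtain ⟨p, hp⟩ := q.exists_over_ram
      rw [ord_nrm hx hf 1 hp, if_neg hq]
      have h2 := Finset.card_nsmul_le_sum Finset.univ
        (fun g : G => (g • p).ord (f * (g • p).loc (x : F) ^ 1)) 1 fun g _ => by
          simpa using hf' (g • p)
      simpa using h2
  have h2 : Reg x (nrm k G f) (Fintype.card G * 1) := reg_of_ord fun q => by
    have := h1 q
    split_ifs at this <;> omega
  refine ⟨_, _, y, pow_ne_zero _ hN, fun h3 => hy (IntermediateField.isAlgebraic_iff.2 h3),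
    h2.pow (q₀.ram * (q₀.ord y).natAbs), reg_of_ord fun q => ?_⟩
  have h3 := h1 q
  have h4 : nrm k G f * q.loc x ^ (Fintype.card G * 1) ≠ 0 :=
    mul_ne_zero hN (pow_ne_zero _ (loc_ne_zero hx.fix.trans))
  rw [mul_right_comm (nrm k G f ^ _), pow_mul' (q.loc x), ← mul_pow,
    q.ord_mul (pow_ne_zero _ h4) hy0, ord_pow]
  have h5 : (0 : ℤ) ≤ q.ram := by positivity
  set A := q.ord (nrm k G f * q.loc x ^ (Fintype.card G * 1))
  set c := Fintype.card G * 1
  split_ifs at h3 with hq
  · subst hq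
    have h6 : -q.ord y ≤ (q.ord y).natAbs := by omega
    have h7 : (0 : ℤ) ≤ q.ram * (q.ord y).natAbs := by positivity
    push_cast at h6 h7 ⊢
    nlinarith
  · have h6 := (hy' q hq).le hy0
    have h7 : (0 : ℤ) ≤ q₀.ram * (q₀.ord y).natAbs := by positivity
    push_cast at h7 ⊢
    nlinarith [mul_nonneg h5 h6]

end Pool.Agent.Lib.MP_9a2ae6_ag
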