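import Pool.Agent.Lib.MP_9a2ae6_ag.Der

/-! Vector fields on a product of curves along the prime divisors of the product. -/

set_option linter.unusedSectionVars false

open Polynomial IntermediateField Module
open scoped TensorProduct

namespace Pool.Agent.Lib.MP_9a2ae6_ag

open Pool.Agent.Lib.MP_e06174_ag Place

section base

variable {k F M K : Type*} [Field k] [Field F] [Field M] [Field K] [Algebra k F] [Algebra k M]
  [Algebra k K] [Algebra M K] [IsScalarTower k M K] [CharZero k] [IsAlgClosed k] {x : F}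
  {ι : F →ₐ[k] K} {w : Place k K} {θ : Derivation k K K} {s : ℤ}

theorem gauss (h : IsCoord k x) {p : Place k F} {c : ℕ} (hp : w.Over ι p c)
    (h0 : ∀ μ : M, w.ord (algebraMap M K μ) = 0) (R : Subring K)
    (hM : ∀ μ : M, algebraMap M K μ ∈ R) (hF : ∀ g, p.Ge 0 g → ι g ∈ R) {a : K}
    (ha : a ∈ Algebra.adjoin k (Set.range (algebraMap M K) ∪ Set.range ι)) (ha0 : a ≠ 0) :
    ∃ (g : F) (a' : K), g ≠ 0 ∧ a' ≠ 0 ∧ a' ∈ R ∧ w.ord a' = 0 ∧ a = ι g * a' := by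
  classical
  have h1 : Algebra.adjoin k (Set.range (algebraMap M K) ∪ Set.range ι) ≤
      (Algebra.TensorProduct.productMap (IsScalarTower.toAlgHom k M K) ι).range := by
    refine Algebra.adjoin_le ?_
    rintro _ (⟨μ, rfl⟩ | ⟨g, rfl⟩)
    · exact ⟨μ ⊗ₜ 1, by simp⟩
    · exact ⟨1 ⊗ₜ g, by simp⟩
  obtain ⟨t, rfl⟩ := h1 ha
  let b := Basis.ofVectorSpace k M
  obtain ⟨g, rfl⟩ := TensorProduct.eq_repr_basis_left b t
  have h2 : (Algebra.TensorProduct.productMap (IsScalarTower.toAlgHom k M K) ι).toRingHom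
      (g.sum fun i n => b i ⊗ₜ[k] n) = ∑ i ∈ g.support, algebraMap M K (b i) * ι (g i) := by
    rw [Finsupp.sum, map_sum]
    rfl
  rw [h2] at ha0 ⊢
  obtain ⟨j, hj, hj'⟩ := Finset.exists_min_image g.support (fun i => p.ord (g i))
    (Finset.nonempty_of_sum_ne_zero ha0)
  have hj0 : g j ≠ 0 := Finsupp.mem_support_iff.1 hj
  have h3 : ∀ i ∈ g.support, p.Ge 0 (g i / g j) := fun i hi => ge_of_le (by
    rw [p.ord_div (Finsupp.mem_support_iff.1 hi) hj0]
    have := hj' i hi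
    omega)
  have h4 : ∑ i ∈ g.support, p.cen (g i / g j) • b i ≠ 0 := fun h4 => by
    have h5 := linearIndependent_iff'.1 b.linearIndependent _ _ h4 j hj
    rw [div_self hj0, ← map_one (algebraMap k F), (p.at_const 1).cen_eq] at h5
    exact one_ne_zero h5
  have h5 := ord_eq_of_ge_sub (p := w) ((_root_.map_ne_zero (algebraMap M K)).2 h4)
    (y := ∑ i ∈ g.support, algebraMap M K (b i) * ι (g i / g j)) (by
      rw [h0, map_sum, ← Finset.sum_sub_distrib]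
      refine Ge.sum fun i hi => ?_
      rw [Algebra.smul_def, map_mul, ← IsScalarTower.algebraMap_apply, mul_comm (algebraMap k K _),
        ← mul_sub]
      exact (ge_of_le (h0 _).ge).mul ((hp.at_iff _).2 (h.at_cen (h3 i hi))))
  refine ⟨g j, _, hj0, h5.1, sum_mem fun i hi => mul_mem (hM _) (hF _ (h3 i hi)),
    h5.2.trans (h0 _), ?_⟩
  rw [Finset.mul_sum]
  refine Finset.sum_congr rfl fun i _ => ?_
  rw [mul_left_comm, ← map_mul, mul_div_cancel₀ _ hj0]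

theorem mem_pres_fibre (h : IsCoord k x) {p : Place k F} {c : ℕ} (hp : w.Over ι p c)
    (h0 : ∀ μ : M, w.ord (algebraMap M K μ) = 0)
    (hM : ∀ μ : M, algebraMap M K μ ∈ Pres w θ s) (hF : ∀ g, p.Ge 0 g → ι g ∈ Pres w θ s)
    (hgen : adjoin k (Set.range (algebraMap M K) ∪ Set.range ι) = ⊤) {f : K} (hf : w.Ge 0 f) :
    f ∈ Pres w θ s := by
  obtain ⟨a, ha, b, hb, rfl⟩ := mem_adjoin_iff_div.1 (hgen ▸ mem_top (x := f))
  by_cases h1 : a / b = 0
  · rw [h1]; exact zero_mem _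
  obtain ⟨g, a', hg, ha0, ha1, ha2, rfl⟩ := gauss h hp h0 _ hM hF ha (div_ne_zero_iff.1 h1).1
  obtain ⟨g', b', hg', hb0, hb1, hb2, rfl⟩ := gauss h hp h0 _ hM hF hb (div_ne_zero_iff.1 h1).2
  have h2 : ι g * a' / (ι g' * b') * b' = ι (g / g') * a' := by
    rw [map_div₀]
    field_simp
  refine mem_pres_of_mul hb1 hb0 hb2 (h2 ▸ mul_mem (hF _ ((hp.ge_zero_iff _).1 (ge_of_le ?_))) ha1)
  have h3 := congrArg w.ord h2
  rw [w.ord_mul h1 hb0, w.ord_mul ((_root_.map_ne_zero ι).2 (div_ne_zero hg hg')) ha0] at h3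
  have := hf.le h1
  omega

theorem mem_pres_horizontal (h : IsCoord k x) (h0 : ∀ g, w.ord (ι g) = 0)
    (hM : ∀ μ : M, algebraMap M K μ ∈ Pres w θ s) (hF : ∀ g, ι g ∈ Pres w θ s)
    (hgen : adjoin k (Set.range (algebraMap M K) ∪ Set.range ι) = ⊤) {f : K} (hf : w.Ge 0 f) :
    f ∈ Pres w θ s := by
  obtain ⟨ϑ, g, h1, h2, h3, h4⟩ := exists_primitive h
  have h5 : ∀ c : k⟮x⟯, ι c ∈ M⟮ι x⟯ := fun c => by
    have : k⟮x⟯ ≤ (M⟮ι x⟯.restrictScalars k).comap ι :=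
      adjoin_simple_le_iff.2 (mem_adjoin_simple_self M (ι x))
    exact this c.2
  let φ : k⟮x⟯ →+* M⟮ι x⟯ := ((ι : F →+* K).comp (algebraMap k⟮x⟯ F)).codRestrict _ h5
  have h6 : ∀ P : k⟮x⟯[X], aeval (ι ϑ) (P.map φ) = ι (aeval ϑ P) := fun P =>
    (map_aeval_eq_aeval_map (ψ := (ι : F →+* K)) (φ := φ) rfl P ϑ).symm
  have h7 : IsIntegral M⟮ι x⟯ (ι ϑ) := ⟨g.map φ, h1.map φ, by
    rw [← aeval_def, h6, h2, map_zero]⟩
  have h8 : (M⟮ι x⟯)⟮ι ϑ⟯ = ⊤ := by
    refine top_le_iff.1 fun z _ => ?_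
    refine (adjoin_le_iff (T := ((M⟮ι x⟯)⟮ι ϑ⟯.restrictScalars M).restrictScalars k)).2 ?_
      (hgen ▸ mem_top (x := z))
    rintro _ (⟨μ, rfl⟩ | ⟨a, rfl⟩)
    · exact IntermediateField.algebraMap_mem ((M⟮ι x⟯)⟮ι ϑ⟯.restrictScalars M) μ
    · have ha : a ∈ Algebra.adjoin k⟮x⟯ {ϑ} := h4 ▸ Algebra.mem_top
      rw [Algebra.adjoin_singleton_eq_range_aeval] at ha
      obtain ⟨P, rfl⟩ := ha
      have h8 : aeval (ι ϑ) (P.map φ) ∈ (M⟮ι x⟯)⟮ι ϑ⟯ :=
        algebra_adjoin_le_adjoin _ _ (aeval_mem_adjoin_singleton _ _)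
      rw [h6] at h8
      exact h8
  have h9 : Algebra.adjoin M⟮ι x⟯ {ι ϑ} = ⊤ := by
    rw [← adjoin_simple_toSubalgebra_of_isAlgebraic h7.isAlgebraic, h8, top_toSubalgebra]
  have : FiniteDimensional M⟮ι x⟯ K := by
    have := adjoin.finiteDimensional h7
    rw [h8] at this
    exact topEquiv.toLinearEquiv.finiteDimensional
  have : IsScalarTower k M⟮ι x⟯ K := .of_algebraMap_eq fun _ => rfl
  have : CharZero M⟮ι x⟯ := charZero_of_injective_algebraMap (algebraMap k _).injective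
  rcases w.restrict (IsScalarTower.toAlgHom k M⟮ι x⟯ K) with h10 | ⟨v, e, hv⟩
  · obtain ⟨y, hy0, hy⟩ := w.exists_ord_eq (-1)
    have := (ge_zero_of_isIntegral w (R := M⟮ι x⟯) (fun r => ge_of_le (h10 r).ge)
      (Algebra.IsIntegral.isIntegral y)).le hy0
    omega
  have hv : w.Over (IsScalarTower.toAlgHom k M⟮ι x⟯ K) v e := hv
  refine mem_pres_of_unram' hv (fun a ha => (mem_pres_of_adjoin hM (hF x) a.2
    ((hv.ge_zero_iff a).2 ha)).2) (hF ϑ) h9 (g.map φ) (h1.map φ) (fun i => ?_)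
    (by rw [h6, h2, map_zero]) ?_ ?_ hf
  · rw [coeff_map]
    exact ge_of_le (h0 (g.coeff i)).ge
  · rw [derivative_map, h6]
    exact (_root_.map_ne_zero ι).2 h3
  · rw [derivative_map, h6, h0]

theorem der_mem_adjoin (θ : Derivation k K K) {T : Set K} (E : Subring K)
    (hE : ∀ z ∈ adjoin k T, ∀ a ∈ E, z * a ∈ E) (hT : ∀ z ∈ T, θ z ∈ E) {z : K}
    (hz : z ∈ adjoin k T) : θ z ∈ E := by
  induction hz using adjoin_induction with
  | mem z hz => exact hT z hz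
  | algebraMap c => simp
  | add a b _ _ ha hb => rw [map_add]; exact add_mem ha hb
  | inv a h ha =>
    rw [Derivation.leibniz_inv, smul_eq_mul]
    exact hE _ (neg_mem (pow_mem (inv_mem h) 2)) _ ha
  | mul a b h h' ha hb =>
    rw [Derivation.leibniz, smul_eq_mul, smul_eq_mul]
    exact add_mem (hE _ h _ hb) (hE _ h' _ ha)

theorem der_eq_zero (θ : Derivation k K K) {T : Set K} (hT : ∀ z ∈ T, θ z = 0) {z : K}
    (hz : z ∈ adjoin k T) : θ z = 0 := by
  induction hz using adjoin_induction with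
  | mem z hz => exact hT z hz
  | algebraMap c => simp
  | add a b _ _ ha hb => rw [map_add, ha, hb, add_zero]
  | inv a h ha => rw [Derivation.leibniz_inv, ha, smul_zero]
  | mul a b h h' ha hb => rw [Derivation.leibniz, ha, hb, smul_zero, smul_zero, add_zero]

end base

variable {n : ℕ} {F : Fin n → Type} [∀ i, Field (F i)] [∀ i, Algebra ℂ (F i)]
  {G : Type} [Group G] [Finite G] [∀ i, MulSemiringAction G (F i)] [∀ i, SMulCommClass G ℂ (F i)]
  {K : Type} [Field K] [Algebra ℂ K] [MulSemiringAction G K] [SMulCommClass G ℂ K]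
  {ι : ∀ i, F i →ₐ[ℂ] K}

variable (ι) in
/-- The compositum of the factors other than `i`. -/
noncomputable def Mt (i : Fin n) : IntermediateField ℂ K :=
  adjoin ℂ {z | ∃ j, j ≠ i ∧ z ∈ Set.range (ι j)}

variable (ι) in
/-- The place is trivial on the factors other than `i`. -/
def Triv (i : Fin n) (w : Place ℂ K) : Prop := ∀ z ∈ Mt ι i, w.ord z = 0

theorem isTranscendenceBasis (S : Setup G ι) (y : ∀ i, F i) (hy : ∀ i, IsCoord ℂ (y i)) :
    IsTranscendenceBasis ℂ fun i => ι i (y i) :=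
  (S.algebraicIndependent _ fun i => (hy i).trans).isTranscendenceBasis_of_trdeg_le_of_finite
    (by simpa using S.trdeg_le)

theorem exists_lift (S : Setup G ι) (θ : ∀ i, Derivation ℂ (F i) (F i)) :
    ∃ Θ : Fin n → Derivation ℂ K K, (∀ i g, Θ i (ι i g) = ι i (θ i g)) ∧
      ∀ i j g, i ≠ j → Θ i (ι j g) = 0 := by
  choose y hy using S.coord
  obtain ⟨d, hd⟩ := exists_dual (isTranscendenceBasis S y hy)
  choose δ _ hδ using fun i => exists_delta (hy i)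
  refine ⟨fun i => ι i (θ i (y i)) • d i, fun i g => ?_, fun i j g hij => ?_⟩
  · have h1 : θ i g = δ i g * θ i (y i) := hδ i (AlgHom.id ℂ _) (θ i) g
    rw [Derivation.smul_apply, hδ i (ι i) (d i) g, hd.dual, if_pos rfl, h1, map_mul, smul_eq_mul]
    ring
  · rw [Derivation.smul_apply, hδ j (ι j) (d i) g, hd.dual, if_neg hij, mul_zero, smul_zero]

theorem mem_pres_of_triv (S : Setup G ι) {i : Fin n} {w : Place ℂ K} (hw : Triv ι i w)
    {Θ : Derivation ℂ K K} {s : ℤ} (hM : ∀ z ∈ Mt ι i, w.Ge s (Θ z))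
    (hF : ∀ g, w.Ge 0 (ι i g) → w.Ge s (Θ (ι i g))) {f : K} (hf : w.Ge 0 f) : w.Ge s (Θ f) := by
  have hgen : adjoin ℂ (Set.range (algebraMap (Mt ι i) K) ∪ Set.range (ι i)) = ⊤ := by
    refine top_le_iff.1 (S.gen.ge.trans (adjoin.mono _ _ _ fun z hz => ?_))
    obtain ⟨j, hj⟩ := Set.mem_iUnion.1 hz
    by_cases h : j = i
    · exact Or.inr (h ▸ hj)
    · exact Or.inl ⟨⟨z, subset_adjoin _ _ ⟨j, h, hj⟩⟩, rfl⟩
  have hM' : ∀ μ : Mt ι i, algebraMap _ K μ ∈ Pres w Θ s := fun μ =>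
    ⟨ge_of_le (hw _ μ.2).ge, hM _ μ.2⟩
  obtain ⟨y, hy⟩ := S.coord i
  rcases w.restrict (ι i) with h0 | ⟨p, c, hp⟩
  · exact (mem_pres_horizontal hy h0 hM'
      (fun g => ⟨ge_of_le (h0 g).ge, hF g (ge_of_le (h0 g).ge)⟩) hgen hf).2
  · have hp : w.Over (ι i) p c := hp
    exact (mem_pres_fibre hy hp (fun μ => hw _ μ.2) hM'
      (fun g hg => ⟨(hp.ge_zero_iff g).2 hg, hF g ((hp.ge_zero_iff g).2 hg)⟩) hgen hf).2

theorem ge_lift (S : Setup G ι) {θ : ∀ i, Derivation ℂ (F i) (F i)} {Θ : Fin n → Derivation ℂ K K}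
    (h1 : ∀ i g, Θ i (ι i g) = ι i (θ i g)) (h2 : ∀ i j g, i ≠ j → Θ i (ι j g) = 0) {i : Fin n}
    {y : F i} {α : ℤ} (hθ : ∀ (p : Place ℂ (F i)) (g : F i), p.Ge 0 g →
      p.Ge (α * min 0 (p.ord y)) (θ i g)) {w : Place ℂ K} (hw : Triv ι i w) {f : K}
    (hf : w.Ge 0 f) (j : Fin n) :
    w.Ge (if j = i then α * min 0 (w.ord (ι i y)) else 0) (Θ j f) := by
  split_ifs with hj
  · subst hj
    refine mem_pres_of_triv S hw (fun z hz => ?_) (fun g hg => ?_) hf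
    · rw [der_eq_zero (Θ j) (by rintro _ ⟨l, hl, g, rfl⟩; exact h2 _ _ _ hl.symm) hz]
      exact ge_zero _
    · rw [h1]
      rcases w.restrict (ι j) with h0 | ⟨p, c, hp⟩
      · exact ge_of_le (by simp [h0])
      · have hp : w.Over (ι j) p c := hp
        refine ((hp.ge_iff _ _).2 (hθ p g ((hp.ge_zero_iff g).1 hg))).mono (le_of_eq ?_)
        rw [hp.2, mul_left_comm, mul_min_of_nonneg _ _ (by positivity : (0 : ℤ) ≤ c), mul_zero]
  · refine mem_pres_of_triv S hw (fun z hz => ge_of_le (hw _ ?_).ge)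
      (fun g _ => by rw [h2 _ _ _ hj]; exact ge_zero _) hf
    refine der_mem_adjoin (Θ j) (Mt ι i).toSubfield.toSubring (fun z hz a ha => mul_mem hz ha) ?_ hz
    rintro _ ⟨l, hl, g, rfl⟩
    by_cases hlj : j = l
    · subst hlj
      rw [h1]
      exact subset_adjoin ℂ _ ⟨j, hl, _, rfl⟩
    · rw [h2 _ _ _ hlj]
      exact zero_mem _

end Pool.Agent.Lib.MP_9a2ae6_ag
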