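import Pool.Agent.Lib.MP_9a2ae6_ag.Pos

/-! Good forms with slack at the places with big inertia. -/

set_option linter.unusedSectionVars false

open Polynomial IntermediateField Module MulAction

namespace Pool.Agent.Lib.MP_9a2ae6_ag

open Pool.Agent.Lib.MP_e06174_ag Place

variable {n : ℕ} {F : Fin n → Type} [∀ i, Field (F i)] [∀ i, Algebra ℂ (F i)]
  {G : Type} [Group G] [Finite G] [∀ i, MulSemiringAction G (F i)] [∀ i, SMulCommClass G ℂ (F i)]
  {K : Type} [Field K] [Algebra ℂ K] [MulSemiringAction G K] [SMulCommClass G ℂ K]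
  {ι : ∀ i, F i →ₐ[ℂ] K}

/-- As `Gd`, with the order shifted by `t` at the places with inertia of order above `n`. -/
structure Gs (S : Setup G ι) (x : ∀ i, Fix ℂ (F i) G) (m : ℕ) (t : ℤ) (Ψ : K) : Prop where
  hA : ∀ w : Place ℂ K, (∀ i f, w.ord (ι i f) = 0) → w.Ge 0 Ψ
  hB : ∀ (v : Place ℂ (Fix ℂ K G)) (w : Place ℂ K) (e : ℕ), w.Over (Fix ℂ K G).val v e →
    (¬ ∀ i f, w.ord (ι i f) = 0) →
      w.Ge (e * m + if n < e then t else 0) (Ψ * ∏ i, w.loc (ι i (x i)) ^ m)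

variable {S : Setup G ι} {x : ∀ i, Fix ℂ (F i) G} {m m' : ℕ} {t t' : ℤ} {Ψ Ψ' : K}

theorem Gs.gd (h : Gs S x m t Ψ) (ht : 0 ≤ t) : Gd S x m Ψ :=
  ⟨h.hA, fun v w e hw h1 => (h.hB v w e hw h1).mono (by split_ifs <;> omega)⟩

theorem Gs.mul (h : Gs S x m t Ψ) (h' : Gs S x m' t' Ψ') : Gs S x (m + m') (t + t') (Ψ * Ψ') := by
  refine ⟨fun w hw => (h.hA w hw).mul' (h'.hA w hw) (by simp), fun v w e hw h1 => ?_⟩
  have := (h.hB v w e hw h1).mul (h'.hB v w e hw h1)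
  convert this using 1
  · split_ifs <;> push_cast <;> ring
  · simp only [pow_add, Finset.prod_mul_distrib]; ring

theorem Gs.pow (h : Gs S x m t Ψ) (a : ℕ) : Gs S x (a * m) (a * t) (Ψ ^ a) := by
  induction a with
  | zero => exact ⟨fun _ _ => by simpa using ge_one, fun _ _ _ _ _ => by simpa using ge_one⟩
  | succ a ih =>
    rw [pow_succ, add_mul, one_mul, Nat.cast_succ, add_mul, one_mul]
    exact ih.mul h

variable [∀ i, FaithfulSMul G (F i)] [FaithfulSMul G K]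

theorem ge_loc {nn : ∀ i, Place ℂ (Fix ℂ (F i) G) → ℕ}
    (hW : ∀ (w : Place ℂ K) (N : Fin n → ℕ), (∀ i, S.Bd nn w i (N i)) →
      w.Ge (∑ i, N i : ℕ) (Ψ * ∏ i, w.loc (ι i (x i)) ^ m)) (L : S.Loc) :
    L.w.Ge (L.e * ∑ i, L.d i * nn i (L.q i) : ℕ) (Ψ * ∏ i, L.w.loc (ι i (x i)) ^ m) := by
  refine (hW L.w _ fun i => Or.inr ⟨_, _, _, L.hp i, L.hq i, rfl⟩).mono (le_of_eq ?_)
  simp only [Finset.mul_sum, ← mul_assoc, L.hed]

theorem gs_of_bd (hx : ∀ i, IsCoord ℂ (x i : F i))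
    (nn : ∀ i, Place ℂ (Fix ℂ (F i) G) → ℕ) (hn : ∀ i q, m ≤ q.ram * nn i q)
    (hW : ∀ (w : Place ℂ K) (N : Fin n → ℕ), (∀ i, S.Bd nn w i (N i)) →
      w.Ge (∑ i, N i : ℕ) (Ψ * ∏ i, w.loc (ι i (x i)) ^ m))
    (hbig : ∀ L : S.Loc, n < L.e → L.w.Ge (L.e * m + t) (Ψ * ∏ i, L.w.loc (ι i (x i)) ^ m)) :
    Gs S x m t Ψ := by
  classical
  refine ⟨fun w hw => ?_, fun v w e hw h1 => ?_⟩
  · by_cases hΨ : Ψ = 0
    · simp [hΨ]
    have h1 := hW w 0 fun i => Or.inl ⟨hw i, rfl⟩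
    have h2 : ∀ i, w.loc (ι i (x i)) ≠ 0 ∧ w.ord (w.loc (ι i (x i))) = 0 := fun i => by
      rw [loc, ← (ι i).commutes, ← map_sub]
      exact ⟨(_root_.map_ne_zero _).2 (sub_const_ne_zero (hx i).trans _), hw i _⟩
    have h3 : ∏ i, w.loc (ι i (x i)) ^ m ≠ 0 :=
      Finset.prod_ne_zero_iff.2 fun i _ => pow_ne_zero _ (h2 i).1
    have h4 := h1.le (mul_ne_zero hΨ h3)
    rw [w.ord_mul hΨ h3, w.ord_prod _ _ fun i _ => pow_ne_zero _ (h2 i).1] at h4
    exact ge_of_le (by simpa [h2] using h4)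
  have h3 : ∀ {i} {c : ℕ} (q : Place ℂ (Fix ℂ (F i) G)), 1 ≤ c → m ≤ c * (q.ram * nn i q) :=
    fun q hc => (hn _ q).trans (Nat.le_mul_of_pos_left _ hc)
  by_cases h4 : ∀ i, ¬ ∀ f, w.ord (ι i f) = 0
  · obtain ⟨L, rfl, rfl, rfl⟩ := Setup.exists_loc (S := S) hw h4
    split_ifs with h6
    · exact hbig L h6
    refine (hW L.w _ fun i => Or.inr ⟨_, _, _, L.hp i, L.hq i, rfl⟩).mono ?_
    have h7 := Finset.card_nsmul_le_sum Finset.univ _ _ fun i _ => h3 (L.q i) (L.one_le_c i)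
    simp only [Finset.card_univ, Fintype.card_fin, smul_eq_mul] at h7
    rw [add_zero]
    exact_mod_cast (Nat.mul_le_mul_right m (not_lt.1 h6)).trans h7
  · obtain ⟨i₀, hi₀⟩ := not_forall.1 h4
    obtain ⟨i₁, hi₁⟩ := not_forall.1 h1
    have he : e = 1 := by
      rw [← card_inertia hw, Subgroup.card_eq_one, eq_bot_iff]
      exact fun g hg => (faithfulSMul_iff.1 (inferInstanceAs (FaithfulSMul G (F i₀)))) g
        (S.smul_eq_of_inertia (not_not.1 hi₀) hg)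
    have h5 : ∀ i, ∃ N, S.Bd nn w i N ∧ (i = i₁ → m ≤ N) := fun i => by
      rcases S.local_data hw i with h5 | ⟨p, c, q, d, h5, h6, -, -⟩
      · exact ⟨0, Or.inl ⟨h5, rfl⟩, by rintro rfl; exact absurd h5 hi₁⟩
      · exact ⟨_, Or.inr ⟨p, c, q, h5, h6, rfl⟩, fun _ => h3 q h5.1⟩
    choose N hN hN' using h5
    refine (hW w N hN).mono ?_
    have h6 := (hN' i₁ rfl).trans
      (Finset.single_le_sum (f := N) (fun _ _ => Nat.zero_le _) (Finset.mem_univ i₁))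
    rw [he, if_neg (by have := i₀.2; omega), add_zero]
    exact_mod_cast (one_mul m).le.trans h6

theorem bd_sum {nn : ∀ i, Place ℂ (Fix ℂ (F i) G) → ℕ} {σ : Type} [Fintype σ] (W : σ → ∀ i, F i)
    (hW : ∀ s i (p : Place ℂ (F i)) (q : Place ℂ (Fix ℂ (F i) G)),
      p.Over (Fix ℂ (F i) G).val q q.ram → p.Ge (q.ram * nn i q) (W s i * p.loc (x i : F i) ^ m))
    (a : σ → ℂ) (w : Place ℂ K) (N : Fin n → ℕ) (hN : ∀ i, S.Bd nn w i (N i)) :
    w.Ge (∑ i, N i : ℕ) ((∑ s, a s • ∏ i, ι i (W s i)) * ∏ i, w.loc (ι i (x i)) ^ m) := by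
  simp only [Finset.sum_mul, smul_mul_assoc, ← Finset.prod_mul_distrib]
  push_cast
  exact Ge.sum fun s _ => (Ge.prod fun i _ => (hN i).ge S (hW s i)).smul _

/-- Product forms. -/
theorem gs_of_prod (hx : ∀ i, IsCoord ℂ (x i : F i)) (Φ : ∀ i, Fix ℂ (F i) G)
    (nn : ∀ i, Place ℂ (Fix ℂ (F i) G) → ℕ) (hn : ∀ i q, m ≤ q.ram * nn i q)
    (hW : ∀ i (q : Place ℂ (Fix ℂ (F i) G)), q.Ge (nn i q) (Φ i * q.loc (x i) ^ m))
    (hbig : ∀ L : S.Loc, n < L.e → L.e * m + t ≤ L.e * (∑ i, L.d i * nn i (L.q i) : ℕ)) :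
    Gs S x m t (∏ i, ι i (Φ i)) := by
  have h1 := bd_sum (S := S) (x := x) (m := m) (nn := nn) (σ := Unit) (fun _ i => Φ i)
    (fun _ i p q hp => by
      have := (hp.ge_iff _ _).2 (hW i q)
      rwa [map_mul, map_pow, ← hp.loc_eq] at this) 1
  simp only [Finset.univ_unique, Pi.one_apply, one_smul, Finset.sum_singleton] at h1
  exact gs_of_bd hx nn hn h1 fun L hL => (ge_loc h1 L).mono (by exact_mod_cast hbig L hL)

theorem gs_of_reg (hx : ∀ i, IsCoord ℂ (x i : F i)) (Φ : ∀ i, Fix ℂ (F i) G)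
    (h : ∀ i, Reg (x i) (Φ i) m) : Gs S x m (-(Nat.card G * m)) (∏ i, ι i (Φ i)) := by
  choose nn hn hW using h
  refine gs_of_prod hx Φ nn hn hW fun L _ => ?_
  have h1 : L.e ≤ Nat.card G := by
    rw [← L.card]; exact Subgroup.card_le_card_group _
  have h2 : (L.e : ℤ) * m ≤ Nat.card G * m := by exact_mod_cast Nat.mul_le_mul_right m h1
  have h3 : (0 : ℤ) ≤ L.e * (∑ i, L.d i * nn i (L.q i) : ℕ) := by positivity
  omega

theorem exists_reg {k F G : Type*} [Field k] [Field F] [Algebra k F] [CharZero k] [IsAlgClosed k]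
    [Group G] [Fintype G] [MulSemiringAction G F] [SMulCommClass G k F] [FaithfulSMul G F]
    {x : Fix k F G} (hx : IsCoord k (x : F)) (hirr : ∀ t : F, k⟮t⟯ ≠ ⊤) :
    ∃ Φ : Fix k F G, Φ ≠ 0 ∧ Reg x Φ (Fintype.card G * 1) := by
  obtain ⟨f, hf, hf'⟩ := hx.exists_regular hirr
  refine ⟨nrm k G f, nrm_ne_zero hf, reg_of_ord fun q => ?_⟩
  obtain ⟨p, hp⟩ := q.exists_over_ram
  rw [ord_nrm hx hf 1 hp]
  have h2 := Finset.card_nsmul_le_sum Finset.univ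
    (fun g : G => (g • p).ord (f * (g • p).loc (x : F) ^ 1)) 1 fun g _ => by
      simpa using hf' (g • p)
  simpa using h2

/-- A form with positive slack gives pencils in all directions of genus at least two. -/
theorem Gs.pencil (hx : ∀ i, IsCoord ℂ (x i : F i)) (hirr : ∀ i (t : F i), ℂ⟮t⟯ ≠ ⊤)
    (h : Gs S x m 1 Ψ) (hΨ : Ψ ≠ 0) {i : Fin n} (hE : ¬ Ell ℂ (F i)) : Pencil S x i := by
  classical
  have := Fintype.ofFinite G
  obtain ⟨m', Φ', y, h1, h2, h3, h4⟩ := exists_pos (hx i) (hirr i) hE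
  choose Φ hΦ hΦ' using fun j => exists_reg (hx j) (hirr j)
  obtain ⟨c, hc⟩ : ∃ c, Fintype.card G * 1 = c + 1 :=
    ⟨_, (Nat.succ_pred_eq_of_pos (by simp [Fintype.card_pos])).symm⟩
  rw [hc] at hΦ'
  have key : ∀ z : Fix ℂ (F i) G, Reg (x i) (Φ' * z) m' → Gd S x
      (Nat.card G * (m' * (c + 1)) * m + m' * (c + 1))
      (Ψ ^ (Nat.card G * (m' * (c + 1))) *
        (ι i (Φ' ^ c * Φ') * ∏ j ∈ Finset.univ.erase i, ι j (Φ j ^ m')) * ι i z) := fun z hz => by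
    have h5 := gs_of_reg (S := S) (m := m' * (c + 1)) hx
      (Function.update (fun j => Φ j ^ m') i (Φ' ^ c * (Φ' * z))) fun j => by
        by_cases hj : j = i
        · subst hj
          rw [Function.update_self, show m' * (c + 1) = c * m' + m' by ring]
          exact (h3.pow c).mul hz
        · rw [Function.update_of_ne hj]
          exact (hΦ' j).pow m'
    have h6 := ((h.pow (Nat.card G * (m' * (c + 1)))).mul h5).gd (by push_cast; omega)
    rw [← Finset.mul_prod_erase _ _ (Finset.mem_univ i), Function.update_self,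
      Finset.prod_congr rfl fun j hj => by
        rw [Function.update_of_ne (Finset.mem_erase.1 hj).1]] at h6
    convert h6 using 1
    push_cast
    simp only [map_mul]
    ring
  refine ⟨y, _, _, h2, ?_, by simpa using key 1 (by simpa using h3), key y h4⟩
  refine mul_ne_zero (pow_ne_zero _ hΨ) (mul_ne_zero ?_ (Finset.prod_ne_zero_iff.2 fun j _ => ?_))
  · have : (Φ' : F i) ≠ 0 := fun h => h1 (Subtype.ext h)
    simp [this]
  · have : (Φ j : F j) ≠ 0 := fun h => hΦ j (Subtype.ext h)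
    simp [this]

open Classical in
theorem Gs.le_kodaira (hx : ∀ i, IsCoord ℂ (x i : F i)) (hirr : ∀ i (t : F i), ℂ⟮t⟯ ≠ ⊤)
    (h : Gs S x m 1 Ψ) (hΨ : Ψ ≠ 0) (hm : 1 ≤ m) :
    (((Finset.univ.filter fun i => ¬ Ell ℂ (F i)).card : ℕ∞) : WithBot ℕ∞) ≤
      kodaira ℂ (Fix ℂ K G) n :=
  MP_9a2ae6_ag.le_kodaira hx _ ⟨m, Ψ, hm, hΨ, h.gd zero_le_one⟩ fun _ hi =>
    h.pencil hx hirr hΨ (Finset.mem_filter.1 hi).2

end Pool.Agent.Lib.MP_9a2ae6_ag
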