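import Pool.Agent.Lib.MP_9a2ae6_ag.Prod
import Pool.Agent.Lib.MP_9a2ae6_ag.Poly

/-! The upper bound for the twisted plurigenera of a quotient of a product of curves. -/

set_option linter.unusedSectionVars false

open IntermediateField Module

namespace Pool.Agent.Lib.MP_9a2ae6_ag

open Pool.Agent.Lib.MP_e06174_ag Place

theorem ord_eq_zero_of_alg {k K : Type*} [Field k] [Field K] [Algebra k K] {w : Place k K}
    (E : IntermediateField k K) (hE : ∀ z ∈ E, w.ord z = 0) {z : K} (hz : IsAlgebraic E z) :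
    w.ord z = 0 := by
  by_cases h0 : z = 0
  · simp [h0]
  have h1 := (ge_zero_of_isIntegral w (R := E) (fun r => ge_of_le (hE r r.2).ge)
    hz.isIntegral).le h0
  have h2 := (ge_zero_of_isIntegral w (R := E) (fun r => ge_of_le (hE r r.2).ge)
    hz.inv.isIntegral).le (inv_ne_zero h0)
  rw [ord_inv] at h2
  omega

variable {n : ℕ} {F : Fin n → Type} [∀ i, Field (F i)] [∀ i, Algebra ℂ (F i)]
  {G : Type} [Group G] [Finite G] [∀ i, MulSemiringAction G (F i)] [∀ i, SMulCommClass G ℂ (F i)]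
  {K : Type} [Field K] [Algebra ℂ K] [MulSemiringAction G K] [SMulCommClass G ℂ K]
  {ι : ∀ i, F i →ₐ[ℂ] K}

theorem triv_of_trp {y : ∀ i, F i} (hy : ∀ i, IsCoord ℂ (y i)) {i : Fin n} {w : Place ℂ K}
    (hw : TrP (fun i => ι i (y i)) i w) : Triv ι i w := fun z hz => by
  let E := adjoin ℂ ((fun i => ι i (y i)) '' {j | j ≠ i})
  have h1 : ∀ a ∈ Algebra.adjoin ℂ ((fun i => ι i (y i)) '' {j | j ≠ i}), w.ord a = 0 := by
    intro a ha
    have h2 : ((fun i => ι i (y i)) '' {j | j ≠ i}) = (MvPolynomial.aeval fun i => ι i (y i) :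
        MvPolynomial (Fin n) ℂ →ₐ[ℂ] K) '' (MvPolynomial.X '' {j | j ≠ i}) := by
      simp [Set.image_image]
    rw [h2, ← AlgHom.map_adjoin] at ha
    obtain ⟨P, hP, rfl⟩ := ha
    by_cases h0 : P = 0
    · simp [h0]
    refine hw P h0 (by_contra fun h3 => ?_)
    exact MvPolynomial.mem_supported.1 hP (MvPolynomial.mem_vars_iff_degreeOf_ne_zero.2 h3) rfl
  have h2 : ∀ a ∈ E, w.ord a = 0 := fun a ha' => by
    obtain ⟨a, ha, b, hb, rfl⟩ := mem_adjoin_iff_div.1 ha'
    by_cases h0 : a / b = 0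
    · simp [h0]
    rw [w.ord_div (div_ne_zero_iff.1 h0).1 (div_ne_zero_iff.1 h0).2, h1 a ha, h1 b hb, sub_zero]
  have h3 : Algebra.IsAlgebraic E (adjoin E {z | ∃ j, j ≠ i ∧ z ∈ Set.range (ι j)}) :=
    isAlgebraic_adjoin (by
      rintro _ ⟨j, hj, f, rfl⟩
      exact ((hy j).isAlgebraic_map (ι j) E (subset_adjoin _ _ ⟨j, hj, rfl⟩) f).isIntegral)
  have h4 : Mt ι i ≤ (adjoin E {z | ∃ j, j ≠ i ∧ z ∈ Set.range (ι j)}).restrictScalars ℂ :=
    adjoin_le_iff.2 fun b hb => subset_adjoin E _ hb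
  exact ord_eq_zero_of_alg E h2
    (IntermediateField.isAlgebraic_iff.1 (h3.isAlgebraic ⟨z, h4 hz⟩))

theorem finiteDimensional (S : Setup G ι) {y : ∀ i, F i} (hy : ∀ i, IsCoord ℂ (y i)) :
    FiniteDimensional (adjoin ℂ (Set.range fun i => ι i (y i))) K := by
  choose s hs using S.fg
  have h1 : (⊤ : IntermediateField ℂ K).FG := by
    refine fg_def.2 ⟨⋃ i, ι i '' s i, Set.finite_iUnion fun i => (Finset.finite_toSet _).image _,
      top_le_iff.1 (S.gen.ge.trans (adjoin_le_iff.2 fun b hb => ?_))⟩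
    obtain ⟨i, f, rfl⟩ := Set.mem_iUnion.1 hb
    have h1 : adjoin ℂ (s i : Set (F i)) ≤ (adjoin ℂ (⋃ i, ι i '' s i)).comap (ι i) :=
      adjoin_le_iff.2 fun f hf => subset_adjoin _ _ (Set.mem_iUnion.2 ⟨i, f, hf, rfl⟩)
    exact h1 (hs i ▸ mem_top)
  have := fg_top_iff.1 h1
  have : Algebra.EssFiniteType (adjoin ℂ (Set.range fun i => ι i (y i))) K := .of_comp ℂ _ K
  have : Algebra.IsAlgebraic (adjoin ℂ (Set.range fun i => ι i (y i))) K :=
    ⟨S.isAlgebraic y hy _ fun i => subset_adjoin _ _ ⟨i, rfl⟩⟩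
  exact Algebra.finite_of_essFiniteType_of_isAlgebraic

theorem exists_under (w : Place ℂ K) :
    ∃ (v : Place ℂ (Fix ℂ K G)) (e : ℕ), w.Over (Fix ℂ K G).val v e := by
  refine (w.restrict (Fix ℂ K G).val).resolve_left fun h => ?_
  obtain ⟨y, -, hy⟩ := w.exists_ord_eq_one
  have := ord_eq_zero_of_alg (Fix ℂ K G) (fun z hz => h ⟨z, hz⟩) (Algebra.IsAlgebraic.isAlgebraic y)
  omega

theorem nonempty_place {Y : Fin n → K} (hY : AlgebraicIndependent ℂ Y)
    [FiniteDimensional (adjoin ℂ (Set.range Y)) K] (i : Fin n) : Nonempty (Place ℂ K) := by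
  obtain ⟨_, _, _, -⟩ := exists_setting hY
  obtain ⟨v, -⟩ := exists_place (k := ℂ) (B := adjoin ℂ (Set.range Y))
    (fun a : MvPolynomial (Fin n) ℂ => -(a.degreeOf i : ℤ))
    (fun a b ha hb => by rw [MvPolynomial.degreeOf_mul_eq ha hb]; push_cast; ring)
    (fun a b _ _ _ => by have := MvPolynomial.degreeOf_add_le i a b; omega)
    (fun c _ => by rw [MvPolynomial.algebraMap_eq, MvPolynomial.degreeOf_C]; rfl)
    ⟨1, MvPolynomial.X i, one_ne_zero, MvPolynomial.X_ne_zero i, by simp⟩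
  obtain ⟨w, -⟩ := exists_over K v
  exact ⟨w⟩

theorem ge_det {w : Place ℂ K} {i : Fin n} {s : ℤ} {M : Matrix (Fin n) (Fin n) K}
    (h : ∀ a b, w.Ge (if a = i then s else 0) (M a b)) : w.Ge s M.det := by
  rw [← Matrix.det_transpose, Matrix.det_apply']
  refine Ge.sum fun σ _ => (ge_intCast _).mul' (Ge.prod fun a _ => h a (σ a)) ?_
  simp

theorem det_lift (S : Setup G ι) {θ : ∀ i, Derivation ℂ (F i) (F i)}
    {Θ : Fin n → Derivation ℂ K K} (h1 : ∀ i g, Θ i (ι i g) = ι i (θ i g))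
    (h2 : ∀ i j g, i ≠ j → Θ i (ι j g) = 0) {x : ∀ i, Fix ℂ (F i) G}
    {d : Fin n → Derivation ℂ (Fix ℂ K G) (Fix ℂ K G)} (hd : Dual (fun i => S.j i (x i)) d)
    (f : Fin n → Fix ℂ K G) : (Matrix.of fun a b => Θ a (f b)).det =
      (∏ i, ι i (θ i (x i))) * ((Matrix.of fun a b => d a (f b)).det : Fix ℂ K G) := by
  have h3 : (Matrix.of fun a b => Θ a (f b)) = Matrix.diagonal (fun i => ι i (θ i (x i))) *
      (Fix ℂ K G).val.toRingHom.mapMatrix (Matrix.of fun a b => d a (f b)) := by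
    ext a b
    rw [Matrix.diagonal_mul, Matrix.of_apply, mul_comm]
    refine (hd.chain (Fix ℂ K G).val (Θ a) (f b)).trans ((Finset.sum_eq_single a
      (fun l _ hl => ?_) (by simp)).trans ?_)
    · rw [show Θ a ((Fix ℂ K G).val (S.j l (x l))) = 0 from h2 a l _ hl.symm, mul_zero]
    · rw [show Θ a ((Fix ℂ K G).val (S.j a (x a))) = _ from h1 a _]
      rfl
  rw [h3, Matrix.det_mul, Matrix.det_diagonal, ← RingHom.map_det]
  rfl

theorem rank_sections_le (S : Setup G ι) (i₀ : Fin n) {α : Fin n → ℤ} (hα : ∀ i, VF (F i) (α i))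
    (W : Finset (Fix ℂ K G)) : ∃ d c : ℕ, ∀ m : ℕ,
      Module.rank ℂ (sections ℂ (Fix ℂ K G) n m W) ≤ (d * ∏ i, (α i * m + c).toNat : ℕ) := by
  classical
  choose y θ hy hθ0 hθ using hα
  have hY := S.algebraicIndependent y fun i => (hy i).trans
  have := finiteDimensional S hy
  obtain ⟨Θ, h1, h2⟩ := exists_lift S θ
  choose x hx _ using fun i => (hy i).exists_fix G
  obtain ⟨d, hd⟩ := exists_dual (S.isTranscendenceBasis x hx)
  obtain ⟨D, c, hD, hc⟩ := exists_bnd hY (W.image (Fix ℂ K G).val)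
  obtain ⟨d', c', hd'⟩ := rank_le hY
  obtain ⟨w₀⟩ := nonempty_place hY i₀
  obtain ⟨v₀, -⟩ := exists_under (G := G) w₀
  set U := ∏ i, ι i (θ i (x i)) with hU
  have hU0 : U ≠ 0 := Finset.prod_ne_zero_iff.2 fun i _ =>
    (_root_.map_ne_zero _).2 (der_ne_zero (hx i) (hθ0 i))
  refine ⟨d', c + c', fun m => ?_⟩
  let φ : Fix ℂ K G →ₗ[ℂ] _ := (LinearMap.toSpanSingleton (Fix ℂ K G) _
    (form (fun i => S.j i (x i)) m 1)).restrictScalars ℂ
  have hφ : ∀ Ψ, φ Ψ = form (fun i => S.j i (x i)) m Ψ := fun Ψ => by simp [φ, form]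
  let Λ : Fix ℂ K G →ₗ[ℂ] K := (LinearMap.mulLeft ℂ (D * U ^ m)).comp (Fix ℂ K G).val.toLinearMap
  have hΛ : Function.Injective Λ :=
    (mul_right_injective₀ (mul_ne_zero hD (pow_ne_zero _ hU0))).comp Subtype.val_injective
  let V := (sections ℂ (Fix ℂ K G) n m W).comap φ
  have h3 : sections ℂ (Fix ℂ K G) n m W ≤ V.map φ := fun ω hω => by
    obtain ⟨Ψ, -, rfl⟩ := hd.coeff hω v₀.O inferInstance (fun c => mem_O.2 (ge_const c)) ⊤
      fun _ _ _ _ => trivial
    exact ⟨Ψ, by rwa [← hφ] at hω, hφ Ψ⟩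
  refine (Submodule.rank_mono h3).trans ((rank_map_le φ V).trans
    ((Submodule.equivMapOfInjective Λ hΛ V).rank_eq.le.trans
      ((hd' (fun i => α i * m + c) _ ?_).trans (le_of_eq ?_))))
  · rintro _ ⟨Ψ, hΨ, rfl⟩ i w hw
    obtain ⟨v, e, hv⟩ := exists_under (G := G) w
    let T : Submodule v.O.toSubring (Fix ℂ K G) :=
      { carrier := {Ψ | w.Ge ((α i * m + c) * min 0 (w.ord (ι i (y i)))) (Λ Ψ)}
        zero_mem' := by simp
        add_mem' := fun ha hb => by simpa using ha.add hb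
        smul_mem' := fun a Ψ h => by
          have h4 := ((hv.ge_zero_iff a).2 (mem_O.1 a.2)).mul h
          rw [zero_add] at h4
          change w.Ge _ (D * U ^ m * ((a.1 : K) * Ψ))
          rw [mul_left_comm]
          exact h4 }
    obtain ⟨Ψ', h4, h5⟩ := hd.coeff (Submodule.mem_comap.1 hΨ) v.O inferInstance
      (fun c => mem_O.2 (ge_const c)) T fun a ha f hf => by
        have h4 := (hc a (Finset.mem_image_of_mem _ ha) i w hw).mul (Ge.prod (s := Finset.univ)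
          fun b _ => ge_det (M := Matrix.of fun a b' => Θ a (f b b')) fun a b' =>
            ge_lift S h1 h2 (hθ i) (triv_of_trp hy hw) ((hv.ge_zero_iff _).2 (mem_O.1 (hf b b'))) a)
        simp only [det_lift S h1 h2 hd, Finset.prod_mul_distrib, Finset.prod_const,
          Finset.sum_const, Finset.card_univ, Fintype.card_fin, ← hU] at h4
        change w.Ge _ (D * U ^ m * ((a * ∏ b, (Matrix.of fun i b' => d i (f b b')).det :
          Fix ℂ K G) : K))
        convert h4 using 1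
        · simp only [nsmul_eq_mul]; ring
        · push_cast; ring
    rw [hφ] at h5
    exact form_injective (S.isTranscendenceBasis x hx) m h5 ▸ h4
  · simp only [add_assoc, Nat.cast_add]

end Pool.Agent.Lib.MP_9a2ae6_ag
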