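import Pool.Agent.Lib.MP_9a2ae6_ag.Kernel

/-! The dimension count producing a form with slack at the bad points. -/

set_option linter.unusedSectionVars false

open Polynomial IntermediateField Module MulAction

namespace Pool.Agent.Lib.MP_9a2ae6_ag

open Pool.Agent.Lib.MP_e06174_ag Place

variable {n : ℕ} {F : Fin n → Type} [∀ i, Field (F i)] [∀ i, Algebra ℂ (F i)]
  {G : Type} [Group G] [Finite G] [∀ i, MulSemiringAction G (F i)] [∀ i, SMulCommClass G ℂ (F i)]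
  {K : Type} [Field K] [Algebra ℂ K] [MulSemiringAction G K] [SMulCommClass G ℂ K]
  {ι : ∀ i, F i →ₐ[ℂ] K} (S : Setup G ι) [∀ i, FaithfulSMul G (F i)] [FaithfulSMul G K]

theorem vol (x : ∀ i, Fix ℂ (F i) G) (hx : ∀ i, IsCoord ℂ (x i : F i)) {m : ℕ}
    (nn : ∀ i, Place ℂ (Fix ℂ (F i) G) → ℕ) (hn : ∀ i q, m ≤ q.ram * nn i q) (J : Finset (Fin n))
    {σ : J → Type} [∀ i, Fintype (σ i)] (W : ∀ i : J, σ i → F i)
    (hli : ∀ i, LinearIndependent ℂ (W i))
    (hW : ∀ (i : J) s (p : Place ℂ (F i)) (q : Place ℂ (Fix ℂ (F i) G)),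
      p.Over (Fix ℂ (F i) G).val q q.ram → p.Ge (q.ram * nn i q) (W i s * p.loc (x i : F i) ^ m))
    (Φ : ∀ i, F i) (hΦ0 : ∀ i ∉ J, Φ i ≠ 0)
    (hΦ : ∀ i ∉ J, ∀ (p : Place ℂ (F i)) (q : Place ℂ (Fix ℂ (F i) G)),
      p.Over (Fix ℂ (F i) G).val q q.ram → p.Ge (q.ram * nn i q) (Φ i * p.loc (x i : F i) ^ m))
    (D : Finset (Fin n → ℕ)) (M : (Fin n → ℕ) → ℕ) (Q : S.Loc → Prop)
    (hD : ∀ L : S.Loc, n < L.e → m + 1 ≤ ∑ i, L.d i * nn i (L.q i) ∨
      (Q L ∧ L.d ∈ D ∧ m + 1 ≤ ∑ i, L.d i * nn i (L.q i) + M L.d)) {κ B : ℕ}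
    (hcount : ∀ d ∈ D, ∃ BT : Finset (∀ i : J, Place ℂ (F i)),
      (∀ L : S.Loc, Q L → L.d = d → (fun i : J => L.p i) ∈ BT) ∧
        κ * ∑ P ∈ BT, ∏ i, Nat.card (stabilizer G (P i)) ≤ B)
    (hnum : B * ∑ d ∈ D, (M d + J.card) ^ J.card <
      J.card.factorial * κ * ∏ i, Fintype.card (σ i)) :
    ∃ Ψ : K, Ψ ≠ 0 ∧ Gs S x m 1 Ψ := by
  classical
  choose! BT hBT hBT' using hcount
  choose u hu using fun i => (hx i).exists_under
  let U : ∀ i : J, Place ℂ (F i) → σ i → F i := fun i p s =>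
    W i s * p.loc (x i : F i) ^ m / p.unif ^ ((u i p).ram * nn i (u i p))
  obtain ⟨b, hb0, hb⟩ := exists_vanishing (F := fun i : J => F i) (fun i => ι i)
    (fun i => S.coord i) (D.sigma BT) (fun t => t.2) (fun t i => Nat.card (stabilizer G (t.2 i)))
    (fun _ _ => Nat.card_pos) (fun t => M t.1) (fun t i => U i (t.2 i))
    (fun t _ i s => by
      simp only [U, div_eq_mul_inv]
      exact Ge.mul' (hW i s _ _ (hu i _)) (ge_ord _) (by simp))
    (by
      rw [Fintype.card_coe, Finset.sum_sigma]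
      refine lt_of_mul_lt_mul_left (a := κ) (lt_of_le_of_lt ?_
        (hnum.trans_eq (by ring))) (Nat.zero_le _)
      rw [Finset.mul_sum, Finset.mul_sum]
      refine Finset.sum_le_sum fun d hd => ?_
      simp only [← Finset.sum_mul]
      rw [← mul_assoc]
      exact Nat.mul_le_mul_right _ (hBT' d hd))
  let w' : ∀ i, ((h : i ∈ J) → σ ⟨i, h⟩) → F i := fun i s =>
    if h : i ∈ J then W ⟨i, h⟩ (s h) else Φ i
  have hw' : ∀ i, LinearIndependent ℂ (w' i) := fun i => by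
    by_cases h : i ∈ J
    · have h1 : w' i = W ⟨i, h⟩ ∘ fun s => s h := funext fun s => dif_pos h
      rw [h1]
      exact (hli ⟨i, h⟩).comp _ fun s s' hs => funext fun _ => hs
    · have : Unique ((h : i ∈ J) → σ ⟨i, h⟩) :=
        ⟨⟨fun h' => absurd h' h⟩, fun _ => funext fun h' => absurd h' h⟩
      exact linearIndependent_unique_iff.2 (by simpa only [w', dif_neg h] using hΦ0 i h)
  let W' : (∀ i, σ i) → ∀ i, F i := fun β i => w' i fun h => β ⟨i, h⟩
  have hli' : LinearIndependent ℂ fun β => ∏ i, ι i (W' β i) :=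
    (S.lin w' hw').comp (fun (β : ∀ i, σ i) i h => β ⟨i, h⟩)
      fun β γ h => funext fun i => congrFun (congrFun h i.1) i.2
  have h1 := bd_sum (S := S) (x := x) (m := m) (nn := nn) W' (fun β i p q hp => by
    by_cases h : i ∈ J
    · simpa only [W', w', dif_pos h] using hW ⟨i, h⟩ (β ⟨i, h⟩) p q hp
    · simpa only [W', w', dif_neg h] using hΦ i h p q hp) b
  refine ⟨_, fun h => hb0 (funext (Fintype.linearIndependent_iff.1 hli' b h)),
    gs_of_bd hx nn hn h1 fun L hL => ?_⟩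
  have he := L.hw.1
  rcases hD L hL with h2 | ⟨hQ, hd, h2⟩
  · refine (ge_loc h1 L).mono ?_
    have := Nat.mul_le_mul_left L.e h2
    zify at this he ⊢
    linarith
  have hu' : ∀ i, u i (L.p i) = L.q i := fun i => ((hu i _).unique (L.hq i)).1
  have h3 := hb ⟨L.d, fun i : J => L.p i⟩ (Finset.mem_sigma.2 ⟨hd, hBT _ hd L hQ rfl⟩) L.w
    (fun i => L.c i) L.e (fun i => L.hp i) fun i => by
      rw [L.card_stab, ← L.hed]
      exact Nat.le_mul_of_pos_right _ (L.one_le_d i)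
  have h4 : (∑ β, b β • ∏ i, ι i (W' β i)) * ∏ i, L.w.loc (ι i (x i)) ^ m =
      (∑ β : ∀ i, σ i, b β • ∏ i : J, ι i (U i (L.p i) (β i))) *
        ∏ i, if i ∈ J then ι i ((L.p i).unif ^ ((L.q i).ram * nn i (L.q i)))
          else ι i (Φ i * (L.p i).loc (x i : F i) ^ m) := by
    simp only [Finset.sum_mul, smul_mul_assoc]
    refine Finset.sum_congr rfl fun β _ => congrArg _ ?_
    have h5 : ∏ i : J, ι i (U i (L.p i) (β i)) =
        ∏ i, if h : i ∈ J then ι i (U ⟨i, h⟩ (L.p i) (β ⟨i, h⟩)) else 1 := by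
      rw [Fintype.prod_dite, Finset.prod_const_one, mul_one]
      exact Finset.prod_congr (by ext; simp) fun _ _ => rfl
    rw [h5, ← Finset.prod_mul_distrib, ← Finset.prod_mul_distrib]
    refine Finset.prod_congr rfl fun i _ => ?_
    rw [(L.hp i).loc_eq, ← map_pow, ← map_mul]
    by_cases h : i ∈ J
    · simp only [W', w', dif_pos h, if_pos h, U, ← map_mul, hu']
      rw [div_mul_cancel₀ _ (pow_ne_zero _ (L.p i).unif_ne_zero)]
    · simp only [W', w', dif_neg h, if_neg h, one_mul]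
  rw [h4]
  refine h3.mul' (Ge.prod (n := fun i => L.c i * ((L.q i).ram * nn i (L.q i))) fun i _ => ?_) ?_
  · split_ifs with h
    · exact ((L.hp i).ge_iff _ _).2 (ge_of_le (by simp))
    · exact ((L.hp i).ge_iff _ _).2 (hΦ i h _ _ (L.hq i))
  · have h5 := Nat.mul_le_mul_left L.e h2
    rw [mul_add, mul_add, Finset.mul_sum] at h5
    simp only [← mul_assoc, L.hed] at h5
    simp only [← mul_assoc]
    zify at h5 he ⊢
    linarith

/-- The asymptotic form: large families on the factors in `J`, fixed forms elsewhere. -/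
theorem vol_case (x : ∀ i, Fix ℂ (F i) G) (hx : ∀ i, IsCoord ℂ (x i : F i)) (hn : 5 ≤ n)
    {u ε κ : ℕ} (hu : 1 ≤ u) (hε : 1 ≤ ε) (J : Finset (Fin n)) (α : Fin n → ℕ)
    (hF : ∀ i ∈ J, FData (x i) u ε (α i)) (a : Fin n → ℕ)
    (hA : ∀ i ∉ J, α i ≤ u * a i ∧ ∃ Φ, Adm (x i) Φ 12 (a i))
    (D : Finset (Fin n → ℕ))
    (hD : ∀ L : S.Loc, n < L.e → ∑ i, L.d i * α i ≤ 12 * u → L.d ∈ D)
    (hκ : ∀ d ∈ D, ∃ j ∈ J, d j = 1 ∧ Kap ℂ (F j) G κ)
    (hnum : ∑ d ∈ D, (12 * u - ∑ i, d i * α i) ^ J.card <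
      J.card.factorial * κ ^ (J.card - 1) * ε ^ J.card) :
    ∃ (m : ℕ) (Ψ : K), 1 ≤ m ∧ Ψ ≠ 0 ∧ Gs S x m 1 Ψ := by
  classical
  choose Big c hBig hcard hF using fun i : J => hF i i.2
  obtain ⟨t, ht, hct, hnum'⟩ := exists_large D _ _ _ ε (∑ i, c i) (1 + J.card) hε hnum
  choose nn W hli h1 h2 h3 using fun i => hF i t (ε * t - ∑ i, c i) (by
    have := Finset.single_le_sum (f := c) (fun _ _ => Nat.zero_le _) (Finset.mem_univ i)
    omega)
  have hA' : ∀ i, ∃ (Φ : F i) (nn' : Place ℂ (Fix ℂ (F i) G) → ℕ),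
      (∀ h : i ∈ J, nn' = nn ⟨i, h⟩) ∧ (∀ q, 12 * u * t ≤ q.ram * nn' q) ∧
      (∀ q : Place ℂ (Fix ℂ (F i) G), 6 ≤ q.ram → α i * t ≤ nn' q) ∧
      (i ∉ J → Φ ≠ 0 ∧ ∀ (p : Place ℂ (F i)) (q : Place ℂ (Fix ℂ (F i) G)),
        p.Over (Fix ℂ (F i) G).val q q.ram →
          p.Ge (q.ram * nn' q) (Φ * p.loc (x i : F i) ^ (12 * u * t))) := fun i => by
    by_cases h : i ∈ J
    · exact ⟨0, nn ⟨i, h⟩, fun _ => rfl, h1 ⟨i, h⟩, h2 ⟨i, h⟩, fun h' => absurd h h'⟩
    obtain ⟨h4, Φ, h5, h6⟩ := hA i h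
    have h7 : ∀ q : Place ℂ (Fix ℂ (F i) G),
        ((q.ord (Φ * q.loc (x i) ^ 12)).toNat : ℤ) = q.ord (Φ * q.loc (x i) ^ 12) := fun q => by
      refine Int.toNat_of_nonneg (not_lt.1 fun h => ?_)
      have h1 := (h6 q).1
      have h2 : (0 : ℤ) ≤ q.ram := by positivity
      push_cast at h1
      nlinarith
    refine ⟨Φ ^ (u * t), fun q => u * t * (q.ord (Φ * q.loc (x i) ^ 12)).toNat,
      fun h' => absurd h' h, fun q => ?_, fun q hq => ?_, fun _ =>
        ⟨pow_ne_zero _ fun h8 => h5 (Subtype.ext h8), fun p q hp => ?_⟩⟩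
    · have h8 := (h6 q).1
      rw [← h7] at h8
      have h9 : 12 ≤ q.ram * (q.ord (Φ * q.loc (x i) ^ 12)).toNat := by exact_mod_cast h8
      nlinarith [Nat.mul_le_mul_left (u * t) h9]
    · have h8 := (h6 q).2 hq
      rw [← h7] at h8
      have h9 : a i ≤ (q.ord (Φ * q.loc (x i) ^ 12)).toNat := by exact_mod_cast h8
      nlinarith [Nat.mul_le_mul_left (u * t) h9, Nat.mul_le_mul_right t h4]
    · have h8 := (hp.ge_iff _ _).2 ((ge_ord (Φ * q.loc (x i) ^ 12)).pow (u * t))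
      rw [map_pow, map_mul, map_pow, ← hp.loc_eq, mul_pow, ← pow_mul, ← h7, ← mul_assoc 12] at h8
      exact_mod_cast h8
  choose Φ nn' h4 h5 h6 h7 using hA'
  have h8 : ∀ L : S.Loc, n < L.e → (∑ i, L.d i * α i) * t ≤ ∑ i, L.d i * nn' i (L.q i) :=
    fun L hL => by
      rw [Finset.sum_mul]
      exact Finset.sum_le_sum fun i _ => by
        rw [mul_assoc]
        exact Nat.mul_le_mul_left _ (h6 i _ (by have := L.le_ram i; omega))
  obtain ⟨Ψ, h9, h10⟩ := vol S x hx (m := 12 * u * t) nn' h5 J W hli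
    (fun i s p q hp => by rw [h4 i i.2]; exact h3 i s p q hp) Φ (fun i hi => (h7 i hi).1)
    (fun i hi => (h7 i hi).2) D (fun d => (12 * u - ∑ i, d i * α i) * t + 1) (fun L => n < L.e)
    (fun L hL => by
      have h9 := h8 L hL
      by_cases h10 : ∑ i, L.d i * α i ≤ 12 * u
      · refine Or.inr ⟨hL, hD L hL h10, ?_⟩
        have := Nat.mul_le_mul_right t h10
        rw [Nat.sub_mul]
        omega
      · left
        have := Nat.mul_le_mul_right t (not_le.1 h10)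
        rw [Nat.succ_mul] at this
        omega)
    (κ := κ ^ (J.card - 1)) (B := (∏ i, (Big i).card) * Nat.card G ^ J.card)
    (fun d hd => by
      obtain ⟨j, hj, hj1, hj2⟩ := hκ d hd
      obtain ⟨BT, h9, -, h10⟩ := count S J (fun L => n < L.e) d (j := ⟨j, hj⟩) hj1 Big
        (fun L hL i => hBig i _ (by have := L.le_ram i; omega))
        fun L hL => hj2 _ _ (L.hq j) (by have := L.le_ram j; omega)
      exact ⟨BT, h9, h10⟩)
    (by
      have h4 : 0 < (∏ i, (Big i).card) * Nat.card G ^ J.card :=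
        Nat.mul_pos (Finset.prod_pos fun i _ => hcard i) (pow_pos Nat.card_pos _)
      simp only [add_assoc]
      refine (Nat.mul_lt_mul_of_pos_left hnum' h4).trans_le (le_of_eq ?_)
      simp only [Fintype.card_prod, Fintype.card_fin, Finset.prod_mul_distrib, Finset.prod_const,
        Finset.card_univ, Fintype.card_coe]
      ring)
  exact ⟨_, Ψ, by nlinarith [Nat.mul_pos hu ht], h9, h10⟩

end Pool.Agent.Lib.MP_9a2ae6_ag
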